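import Mathlib

set_option autoImplicit false

namespace Pool.Agent.Helper969.MR

/-- any two tuples that agree in two coordinates are equal -/
def Indep {P : Type} (T : Set (Fin 4 → P)) : Prop :=
  ∀ s ∈ T, ∀ t ∈ T, ∀ g g' : Fin 4, g ≠ g' → s g = t g → s g' = t g' → s = t

structure PTD {P : Type} (T : Set (Fin 4 → P)) (S : Fin 4 → Set P) : Prop where
  ind : Indep T
  mem : ∀ t ∈ T, ∀ g, t g ∈ S g
  cov : ∀ x ∈ S 0, ∀ y ∈ S 1, ∃ t ∈ T, t 0 = x ∧ t 1 = y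

def Ext {P : Type} (T : Set (Fin 4 → P)) (S : Fin 4 → Set P) : Prop :=
  ∃ a b : P → P, (∀ j ∈ S 1, a j ∈ S 2) ∧ (∀ j ∈ S 1, b j ∈ S 3) ∧
    Set.InjOn a (S 1) ∧ Set.InjOn b (S 1) ∧
    ∀ j ∈ S 1, ∀ t ∈ T, ¬ (t 1 = j ∧ t 2 = a j) ∧ ¬ (t 1 = j ∧ t 3 = b j) ∧
      ¬ (t 2 = a j ∧ t 3 = b j)

def img {P Q : Type} (φ : Fin 4 → P → Q) (T : Set (Fin 4 → P)) : Set (Fin 4 → Q) :=
  (fun t g => φ g (t g)) '' T

theorem img_ptd {P Q : Type} (φ : Fin 4 → P → Q) {T : Set (Fin 4 → P)} {S : Fin 4 → Set P}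
    (hφ : ∀ g, Set.InjOn (φ g) (S g)) (h : PTD T S) :
    PTD (img φ T) (fun g => φ g '' S g) := by
  refine ⟨?_, ?_, ?_⟩
  · rintro _ ⟨s, hs, rfl⟩ _ ⟨t, ht, rfl⟩ g g' hg h1 h2
    have e1 : s g = t g := hφ g (h.mem s hs g) (h.mem t ht g) h1
    have e2 : s g' = t g' := hφ g' (h.mem s hs g') (h.mem t ht g') h2
    rw [h.ind s hs t ht g g' hg e1 e2]
  · rintro _ ⟨t, ht, rfl⟩ g
    exact ⟨t g, h.mem t ht g, rfl⟩
  · rintro _ ⟨x, hx, rfl⟩ _ ⟨y, hy, rfl⟩
    obtain ⟨t, ht, rfl, rfl⟩ := h.cov x hx y hy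
    exact ⟨_, ⟨t, ht, rfl⟩, rfl, rfl⟩

theorem img_ext {P Q : Type} [Nonempty P] (φ : Fin 4 → P → Q) {T : Set (Fin 4 → P)}
    {S : Fin 4 → Set P}
    (hφ : ∀ g, Set.InjOn (φ g) (S g)) (h : PTD T S) :
    Ext (img φ T) (fun g => φ g '' S g) → Ext T S := by
  rintro ⟨a, b, ha, hb, hai, hbi, hne⟩
  have key : ∀ g, ∃ ψ : Q → P, ∀ y ∈ φ g '' S g, ψ y ∈ S g ∧ φ g (ψ y) = y := by
    intro g
    classical
    refine ⟨fun y => if hy : y ∈ φ g '' S g then hy.choose else Classical.arbitrary P, ?_⟩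
    intro y hy
    simp only [hy, dif_pos]
    exact hy.choose_spec
  choose ψ hψ using key
  refine ⟨fun j => ψ 2 (a (φ 1 j)), fun j => ψ 3 (b (φ 1 j)), ?_, ?_, ?_, ?_, ?_⟩
  · intro j hj
    exact (hψ 2 _ (ha _ ⟨j, hj, rfl⟩)).1
  · intro j hj
    exact (hψ 3 _ (hb _ ⟨j, hj, rfl⟩)).1
  · intro j hj j' hj' e
    have h1 := (hψ 2 _ (ha _ ⟨j, hj, rfl⟩)).2
    have h2 := (hψ 2 _ (ha _ ⟨j', hj', rfl⟩)).2
    simp only at e
    rw [e, h2] at h1
    exact hφ 1 hj hj' (hai ⟨j, hj, rfl⟩ ⟨j', hj', rfl⟩ h1.symm)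
  · intro j hj j' hj' e
    have h1 := (hψ 3 _ (hb _ ⟨j, hj, rfl⟩)).2
    have h2 := (hψ 3 _ (hb _ ⟨j', hj', rfl⟩)).2
    simp only at e
    rw [e, h2] at h1
    exact hφ 1 hj hj' (hbi ⟨j, hj, rfl⟩ ⟨j', hj', rfl⟩ h1.symm)
  · intro j hj t ht
    have h1 := (hψ 2 _ (ha _ ⟨j, hj, rfl⟩)).2
    have h2 := (hψ 3 _ (hb _ ⟨j, hj, rfl⟩)).2
    have h3 := hne (φ 1 j) ⟨j, hj, rfl⟩ _ ⟨t, ht, rfl⟩
    refine ⟨?_, ?_, ?_⟩
    · rintro ⟨e1, e2⟩
      apply h3.1
      simp only [e1, e2, h1, true_and]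
    · rintro ⟨e1, e2⟩
      apply h3.2.1
      simp only [e1, e2, h2, true_and]
    · rintro ⟨e1, e2⟩
      apply h3.2.2
      simp only [e1, e2, h1, h2, true_and]

def sets (r n : ℕ) : Fin 4 → Set ℕ := fun g => {x | x < if g = 0 then r else n}

def RectN (r n : ℕ) : Prop := ∃ T : Set (Fin 4 → ℕ), PTD T (sets r n)

def SpecN (r n : ℕ) : Prop := ∃ T : Set (Fin 4 → ℕ), PTD T (sets r n) ∧ ¬ Ext T (sets r n)

theorem exists_phi {P : Type} (F : Finset P) :
    ∃ φ : P → ℕ, Set.InjOn φ (F : Set P) ∧ φ '' (F : Set P) = {x | x < F.card} := by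
  classical
  let e := F.equivFin
  refine ⟨fun p => if hp : p ∈ F then (e ⟨p, hp⟩ : ℕ) else 0, ?_, ?_⟩
  · intro p hp q hq h
    have hp' : p ∈ F := hp
    have hq' : q ∈ F := hq
    simp only [hp', hq', dif_pos] at h
    have h2 := e.injective (Fin.ext h)
    exact congrArg Subtype.val h2
  · ext x
    simp only [Set.mem_image, Finset.mem_coe, Set.mem_setOf_eq]
    constructor
    · rintro ⟨p, hp, rfl⟩
      simp only [hp, dif_pos]
      exact (e ⟨p, hp⟩).2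
    · intro hx
      refine ⟨(e.symm ⟨x, hx⟩ : P), (e.symm ⟨x, hx⟩).2, ?_⟩
      simp

theorem rectN_of {P : Type} (r n : ℕ) (T : Set (Fin 4 → P)) (S : Fin 4 → Finset P)
    (h0 : (S 0).card = r) (h1 : ∀ g, g ≠ 0 → (S g).card = n)
    (h : PTD T (fun g => (S g : Set P))) : RectN r n := by
  have := fun g => exists_phi (S g)
  choose φ hφ hi using this
  refine ⟨img φ T, ?_⟩
  have h2 := img_ptd φ hφ h
  have : (fun g => φ g '' (fun g => (S g : Set P)) g) = sets r n := by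
    funext g
    simp only [hi, sets]
    by_cases hg : g = 0
    · subst hg; simp [h0]
    · simp [hg, h1 g hg]
  rw [← this]; exact h2

theorem specN_of {P : Type} [Nonempty P] (r n : ℕ) (T : Set (Fin 4 → P)) (S : Fin 4 → Finset P)
    (h0 : (S 0).card = r) (h1 : ∀ g, g ≠ 0 → (S g).card = n)
    (h : PTD T (fun g => (S g : Set P))) (hne : ¬ Ext T (fun g => (S g : Set P))) :
    SpecN r n := by
  have := fun g => exists_phi (S g)
  choose φ hφ hi using this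
  refine ⟨img φ T, ?_⟩
  have h2 := img_ptd φ hφ h
  have h3 := img_ext φ hφ h
  have : (fun g => φ g '' (fun g => (S g : Set P)) g) = sets r n := by
    funext g
    simp only [hi, sets]
    by_cases hg : g = 0
    · subst hg; simp [h0]
    · simp [hg, h1 g hg]
  rw [← this]; exact ⟨h2, fun h => hne (h3 h)⟩

/-- the counting obstruction -/
theorem barrier {P : Type} (T : Set (Fin 4 → P)) (S : Fin 4 → Finset P)
    (J1 A1 B1 : Finset P) (hJ : J1 ⊆ S 1) (hA : A1 ⊆ S 2) (hB : B1 ⊆ S 3)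
    (h2 : (S 2).card = (S 1).card) (h3 : (S 3).card = (S 1).card)
    (hcard : (S 1).card < J1.card + A1.card + B1.card)
    (c12 : ∀ x ∈ J1, ∀ y ∈ A1, ∃ t ∈ T, t 1 = x ∧ t 2 = y)
    (c13 : ∀ x ∈ J1, ∀ y ∈ B1, ∃ t ∈ T, t 1 = x ∧ t 3 = y)
    (c23 : ∀ x ∈ A1, ∀ y ∈ B1, ∃ t ∈ T, t 2 = x ∧ t 3 = y) :
    ¬ Ext T (fun g => (S g : Set P)) := by
  classical
  rintro ⟨a, b, ha, hb, hai, hbi, hne⟩
  have ha' : ∀ j ∈ S 1, a j ∈ S 2 := ha
  have hb' : ∀ j ∈ S 1, b j ∈ S 3 := hb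
  have imA : (S 1).image a = S 2 := by
    apply Finset.eq_of_subset_of_card_le
    · intro x hx
      obtain ⟨j, hj, rfl⟩ := Finset.mem_image.1 hx
      exact ha' j hj
    · rw [Finset.card_image_of_injOn hai, h2]
  have imB : (S 1).image b = S 3 := by
    apply Finset.eq_of_subset_of_card_le
    · intro x hx
      obtain ⟨j, hj, rfl⟩ := Finset.mem_image.1 hx
      exact hb' j hj
    · rw [Finset.card_image_of_injOn hbi, h3]
  set XA := (S 1).filter (fun j => a j ∈ A1) with hXA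
  set XB := (S 1).filter (fun j => b j ∈ B1) with hXB
  have cA : XA.card = A1.card := by
    have : XA.image a = A1 := by
      ext y
      simp only [hXA, Finset.mem_image, Finset.mem_filter]
      constructor
      · rintro ⟨j, ⟨_, hj⟩, rfl⟩; exact hj
      · intro hy
        have : y ∈ (S 1).image a := by rw [imA]; exact hA hy
        obtain ⟨j, hj, rfl⟩ := Finset.mem_image.1 this
        exact ⟨j, ⟨hj, hy⟩, rfl⟩
    rw [← this, Finset.card_image_of_injOn]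
    exact hai.mono (by intro x hx; exact (Finset.mem_filter.1 hx).1)
  have cB : XB.card = B1.card := by
    have : XB.image b = B1 := by
      ext y
      simp only [hXB, Finset.mem_image, Finset.mem_filter]
      constructor
      · rintro ⟨j, ⟨_, hj⟩, rfl⟩; exact hj
      · intro hy
        have : y ∈ (S 1).image b := by rw [imB]; exact hB hy
        obtain ⟨j, hj, rfl⟩ := Finset.mem_image.1 this
        exact ⟨j, ⟨hj, hy⟩, rfl⟩
    rw [← this, Finset.card_image_of_injOn]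
    exact hbi.mono (by intro x hx; exact (Finset.mem_filter.1 hx).1)
  have d1 : Disjoint J1 XA := by
    rw [Finset.disjoint_left]
    intro j hj hj2
    have hj3 := (Finset.mem_filter.1 hj2)
    obtain ⟨t, ht, e1, e2⟩ := c12 j hj (a j) hj3.2
    exact (hne j hj3.1 t ht).1 ⟨e1, e2⟩
  have d2 : Disjoint J1 XB := by
    rw [Finset.disjoint_left]
    intro j hj hj2
    have hj3 := (Finset.mem_filter.1 hj2)
    obtain ⟨t, ht, e1, e2⟩ := c13 j hj (b j) hj3.2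
    exact (hne j hj3.1 t ht).2.1 ⟨e1, e2⟩
  have d3 : Disjoint XA XB := by
    rw [Finset.disjoint_left]
    intro j hj hj2
    have hj3 := (Finset.mem_filter.1 hj)
    have hj4 := (Finset.mem_filter.1 hj2)
    obtain ⟨t, ht, e1, e2⟩ := c23 (a j) hj3.2 (b j) hj4.2
    exact (hne j hj3.1 t ht).2.2 ⟨e1, e2⟩
  have d4 : Disjoint (J1 ∪ XA) XB := by
    rw [Finset.disjoint_union_left]; exact ⟨d2, d3⟩
  have hsub : (J1 ∪ XA) ∪ XB ⊆ S 1 := by
    apply Finset.union_subset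
    · apply Finset.union_subset hJ
      exact Finset.filter_subset _ _
    · exact Finset.filter_subset _ _
  have := Finset.card_le_card hsub
  rw [Finset.card_union_of_disjoint d4, Finset.card_union_of_disjoint d1, cA, cB] at this
  omega

end Pool.Agent.Helper969.MR
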