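import Mathlib
import Pool.Agent.Helper969.MR1

set_option autoImplicit false

namespace Pool.Agent.Helper969.MR

def sl (N : ℕ) : Fin 5 → ZMod N := ![0, 0, 1, 2, 3]

def f {N : ℕ} (g : Fin 5) (β : ZMod N × ZMod N) : ZMod N :=
  if g = 0 then β.1 else β.2 + sl N g * β.1

theorem sl_unit {N : ℕ} (h2 : IsUnit (2 : ZMod N)) (h3 : IsUnit (3 : ZMod N))
    (g g' : Fin 5) (hg : g ≠ 0) (hg' : g' ≠ 0) (h : g ≠ g') : IsUnit (sl N g - sl N g') := by
  fin_cases g <;> fin_cases g' <;> simp_all [sl] <;>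
    first
    | (convert (isUnit_one : IsUnit (1 : ZMod N)) using 1; ring1)
    | (convert (isUnit_one.neg : IsUnit (-1 : ZMod N)) using 1; ring1)
    | (convert h2 using 1; ring1)
    | (convert h2.neg using 1; ring1)
    | (convert h3 using 1; ring1)
    | (convert h3.neg using 1; ring1)

theorem f_inj {N : ℕ} (h2 : IsUnit (2 : ZMod N)) (h3 : IsUnit (3 : ZMod N))
    (g g' : Fin 5) (h : g ≠ g') (β β' : ZMod N × ZMod N)
    (e : f g β = f g β') (e' : f g' β = f g' β') : β = β' := by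
  obtain ⟨i, x⟩ := β
  obtain ⟨i', x'⟩ := β'
  simp only [f] at e e'
  by_cases hg : g = 0
  · have hg' : g' ≠ 0 := by rintro rfl; exact h hg
    simp only [hg, if_true] at e
    simp only [hg', if_false] at e'
    subst e
    simpa using e'
  · by_cases hg' : g' = 0
    · simp only [hg', if_true] at e'
      simp only [hg, if_false] at e
      subst e'
      simpa using e
    · simp only [hg, hg', if_false] at e e'
      have hu := sl_unit h2 h3 g g' hg hg' h
      have : (sl N g - sl N g') * (i - i') = 0 := by linear_combination e - e'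
      have h4 := (hu.mul_right_eq_zero).1 this
      have h5 : i = i' := sub_eq_zero.1 h4
      subst h5
      simpa using e

theorem f_surj {N : ℕ} [NeZero N] (h2 : IsUnit (2 : ZMod N)) (h3 : IsUnit (3 : ZMod N))
    (g g' : Fin 5) (h : g ≠ g') (a a' : ZMod N) : ∃ β : ZMod N × ZMod N, f g β = a ∧ f g' β = a' := by
  have inj : Function.Injective (fun β : ZMod N × ZMod N => (f g β, f g' β)) := by
    intro β β' hb
    simp only [Prod.mk.injEq] at hb
    exact f_inj h2 h3 g g' h β β' hb.1 hb.2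
  have := (Finite.injective_iff_surjective.1 inj) (a, a')
  obtain ⟨β, hβ⟩ := this
  exact ⟨β, congrArg Prod.fst hβ, congrArg Prod.snd hβ⟩

structure Ing (N w : ℕ) (ρ : ZMod N → ℕ) (U V : Finset (ZMod N))
    (I : ZMod N × ZMod N → Set (Fin 4 → Option ℕ)) : Prop where
  ind : ∀ β, Indep (I β)
  one : ∀ β, ∀ q ∈ I β, ∀ g g' : Fin 4, g ≠ g' → q g = none → q g' ≠ none
  memR : ∀ β, ∀ q ∈ I β, ∀ k, q 0 = some k → k < ρ β.1
  memV : ∀ β, ∀ q ∈ I β, q 0 = none → f 4 β ∈ V
  mem : ∀ β, ∀ q ∈ I β, ∀ g, g ≠ 0 → ∀ k, q g = some k → k < w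
  memU : ∀ β, ∀ q ∈ I β, ∀ g, g ≠ 0 → q g = none → f 4 β ∈ U
  cov : ∀ β, ∀ k < ρ β.1, ∀ y < w, ∃ q ∈ I β, q 0 = some k ∧ q 1 = some y
  covU : ∀ β, f 4 β ∈ U → ∀ k < ρ β.1, ∃ q ∈ I β, q 0 = some k ∧ q 1 = none
  covV : ∀ β, f 4 β ∈ V → ∀ y < w, ∃ q ∈ I β, q 0 = none ∧ q 1 = some y

def bigT {N : ℕ} (I : ZMod N × ZMod N → Set (Fin 4 → Option ℕ)) (H : Set (Fin 4 → ZMod N)) :
    Set (Fin 4 → ZMod N × Option ℕ) :=
  {t | (∃ β, ∃ q ∈ I β, ∀ g, t g = (if q g = none then f 4 β else f g.castSucc β, q g)) ∨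
    ∃ h ∈ H, ∀ g, t g = (h g, none)}

def bigS {N : ℕ} [NeZero N] (w : ℕ) (ρ : ZMod N → ℕ) (U V : Finset (ZMod N)) :
    Fin 4 → Finset (ZMod N × Option ℕ) := fun g =>
  if g = 0 then
    ((Finset.univ.sigma fun i : ZMod N => Finset.range (ρ i)).image
      (fun p => (p.1, some p.2))) ∪ V.image (fun e => (e, none))
  else
    (((Finset.univ : Finset (ZMod N)) ×ˢ Finset.range w).image (fun p => (p.1, some p.2))) ∪
      U.image (fun e => (e, none))

theorem mem_bigS_zero {N : ℕ} [NeZero N] (w : ℕ) (ρ : ZMod N → ℕ) (U V : Finset (ZMod N))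
    (p : ZMod N × Option ℕ) :
    p ∈ bigS w ρ U V 0 ↔ (∃ k, p.2 = some k ∧ k < ρ p.1) ∨ (p.2 = none ∧ p.1 ∈ V) := by
  obtain ⟨x, o⟩ := p
  simp only [bigS, if_true, Finset.mem_union, Finset.mem_image, Finset.mem_sigma,
    Finset.mem_univ, Finset.mem_range, true_and, Sigma.exists, Prod.mk.injEq]
  constructor
  · rintro (⟨i, k, h1, h2, h3⟩ | ⟨e, h1, h2, h3⟩)
    · subst h2; exact Or.inl ⟨k, h3.symm, h1⟩
    · subst h2; exact Or.inr ⟨h3.symm, h1⟩
  · rintro (⟨k, h1, h2⟩ | ⟨h1, h2⟩)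
    · exact Or.inl ⟨x, k, h2, rfl, h1.symm⟩
    · exact Or.inr ⟨x, h2, rfl, h1.symm⟩

theorem mem_bigS {N : ℕ} [NeZero N] (w : ℕ) (ρ : ZMod N → ℕ) (U V : Finset (ZMod N))
    (g : Fin 4) (hg : g ≠ 0) (p : ZMod N × Option ℕ) :
    p ∈ bigS w ρ U V g ↔ (∃ k, p.2 = some k ∧ k < w) ∨ (p.2 = none ∧ p.1 ∈ U) := by
  obtain ⟨x, o⟩ := p
  simp only [bigS, hg, if_false, Finset.mem_union, Finset.mem_image, Finset.mem_product,
    Finset.mem_univ, Finset.mem_range, true_and, Prod.exists, Prod.mk.injEq]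
  constructor
  · rintro (⟨i, k, h1, h2, h3⟩ | ⟨e, h1, h2, h3⟩)
    · subst h2; exact Or.inl ⟨k, h3.symm, h1⟩
    · subst h2; exact Or.inr ⟨h3.symm, h1⟩
  · rintro (⟨k, h1, h2⟩ | ⟨h1, h2⟩)
    · exact Or.inl ⟨x, k, h2, rfl, h1.symm⟩
    · exact Or.inr ⟨x, h2, rfl, h1.symm⟩

theorem card_bigS_zero {N : ℕ} [NeZero N] (w : ℕ) (ρ : ZMod N → ℕ) (U V : Finset (ZMod N)) :
    (bigS w ρ U V 0).card = ∑ i, ρ i + V.card := by
  simp only [bigS, if_true]
  rw [Finset.card_union_of_disjoint, Finset.card_image_of_injective, Finset.card_image_of_injective,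
    Finset.card_sigma]
  · simp
  · intro a b h; simpa using h
  · rintro ⟨a, b⟩ ⟨c, d⟩ h
    simp only [Prod.mk.injEq, Option.some.injEq] at h
    obtain ⟨rfl, rfl⟩ := h; rfl
  · rw [Finset.disjoint_left]
    intro p hp hq
    obtain ⟨a, _, rfl⟩ := Finset.mem_image.1 hp
    obtain ⟨b, _, h⟩ := Finset.mem_image.1 hq
    simp at h

theorem card_bigS {N : ℕ} [NeZero N] (w : ℕ) (ρ : ZMod N → ℕ) (U V : Finset (ZMod N))
    (g : Fin 4) (hg : g ≠ 0) :
    (bigS w ρ U V g).card = N * w + U.card := by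
  simp only [bigS, hg, if_false]
  rw [Finset.card_union_of_disjoint, Finset.card_image_of_injective, Finset.card_image_of_injective,
    Finset.card_product]
  · simp [ZMod.card]
  · intro a b h; simpa using h
  · rintro ⟨a, b⟩ ⟨c, d⟩ h
    simp only [Prod.mk.injEq, Option.some.injEq] at h
    obtain ⟨rfl, rfl⟩ := h; rfl
  · rw [Finset.disjoint_left]
    intro p hp hq
    obtain ⟨a, _, rfl⟩ := Finset.mem_image.1 hp
    obtain ⟨b, _, h⟩ := Finset.mem_image.1 hq
    simp at h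

theorem bigT_indep {N : ℕ} [NeZero N] (h2 : IsUnit (2 : ZMod N)) (h3 : IsUnit (3 : ZMod N))
    {w : ℕ} {ρ : ZMod N → ℕ} {U V : Finset (ZMod N)}
    {I : ZMod N × ZMod N → Set (Fin 4 → Option ℕ)} (hI : Ing N w ρ U V I)
    {H : Set (Fin 4 → ZMod N)} (hH : Indep H) : Indep (bigT I H) := by
  rintro s (⟨β, q, hq, hs⟩ | ⟨h, hh, hs⟩) t (⟨β', q', hq', ht⟩ | ⟨h', hh', ht⟩) g g' hg e e'
  · rw [hs, ht] at e e'
    simp only [Prod.mk.injEq] at e e'
    obtain ⟨e1, e2⟩ := e
    obtain ⟨e3, e4⟩ := e'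
    have hb : β = β' := by
      by_cases c : q g = none
      · have c' : q g' ≠ none := hI.one β q hq g g' hg c
        rw [if_pos c, if_pos (by rw [← e2]; exact c)] at e1
        rw [if_neg c', if_neg (by rw [← e4]; exact c')] at e3
        refine f_inj h2 h3 4 g'.castSucc ?_ β β' e1 e3
        intro hc
        have := congrArg Fin.val hc
        simp at this
        omega
      · rw [if_neg c, if_neg (by rw [← e2]; exact c)] at e1
        by_cases c' : q g' = none
        · rw [if_pos c', if_pos (by rw [← e4]; exact c')] at e3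
          refine f_inj h2 h3 g.castSucc 4 ?_ β β' e1 e3
          intro hc
          have := congrArg Fin.val hc
          simp at this
          omega
        · rw [if_neg c', if_neg (by rw [← e4]; exact c')] at e3
          refine f_inj h2 h3 g.castSucc g'.castSucc ?_ β β' e1 e3
          intro hc
          exact hg (Fin.castSucc_injective _ hc)
    subst hb
    have hqq := hI.ind β q hq q' hq' g g' hg e2 e4
    subst hqq
    funext x
    rw [hs, ht]
  · exfalso
    rw [hs, ht] at e e'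
    simp only [Prod.mk.injEq] at e e'
    exact hI.one β q hq g g' hg e.2 e'.2
  · exfalso
    rw [hs, ht] at e e'
    simp only [Prod.mk.injEq] at e e'
    exact hI.one β' q' hq' g g' hg e.2.symm e'.2.symm
  · rw [hs, ht] at e e'
    simp only [Prod.mk.injEq, and_true] at e e'
    have := hH h hh h' hh' g g' hg e e'
    subst this
    funext x
    rw [hs, ht]

theorem bigT_ptd {N : ℕ} [NeZero N] (h2 : IsUnit (2 : ZMod N)) (h3 : IsUnit (3 : ZMod N))
    {w : ℕ} {ρ : ZMod N → ℕ} {U V : Finset (ZMod N)}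
    {I : ZMod N × ZMod N → Set (Fin 4 → Option ℕ)} (hI : Ing N w ρ U V I)
    {H : Set (Fin 4 → ZMod N)}
    (hH : PTD H (fun g => if g = 0 then (V : Set (ZMod N)) else (U : Set (ZMod N)))) :
    PTD (bigT I H) (fun g => (bigS w ρ U V g : Set (ZMod N × Option ℕ))) := by
  refine ⟨bigT_indep h2 h3 hI hH.ind, ?_, ?_⟩
  · rintro t (⟨β, q, hq, hs⟩ | ⟨h, hh, hs⟩) g
    · show t g ∈ bigS w ρ U V g
      by_cases hg : g = 0
      · subst hg
        rw [mem_bigS_zero, hs]
        cases hc : q 0 with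
        | none => right; exact ⟨rfl, by simpa using hI.memV β q hq hc⟩
        | some k =>
          left; refine ⟨k, rfl, ?_⟩
          simpa [f] using hI.memR β q hq k hc
      · rw [mem_bigS _ _ _ _ g hg, hs]
        cases hc : q g with
        | none => right; exact ⟨rfl, by simpa using hI.memU β q hq g hg hc⟩
        | some k =>
          left; exact ⟨k, rfl, hI.mem β q hq g hg k hc⟩
    · show t g ∈ bigS w ρ U V g
      have hm := hH.mem h hh g
      by_cases hg : g = 0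
      · subst hg
        rw [mem_bigS_zero, hs]
        right; exact ⟨rfl, by simpa using hm⟩
      · rw [mem_bigS _ _ _ _ g hg, hs]
        right; exact ⟨rfl, by simpa [hg] using hm⟩
  · rintro ⟨x, o⟩ hx ⟨y, o'⟩ hy
    have hx' : (x, o) ∈ bigS w ρ U V 0 := hx
    have hy' : (y, o') ∈ bigS w ρ U V 1 := hy
    rw [mem_bigS_zero] at hx'
    rw [mem_bigS _ _ _ _ 1 (by decide)] at hy'
    simp only at hx' hy'
    rcases hx' with (⟨k, rfl, hk⟩ | ⟨rfl, hV⟩) <;> rcases hy' with (⟨l, rfl, hl⟩ | ⟨rfl, hU⟩)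
    · obtain ⟨β, hb1, hb2⟩ := f_surj h2 h3 0 1 (by decide) x y
      have hb3 : β.1 = x := by simpa [f] using hb1
      obtain ⟨q, hq, q0, q1⟩ := hI.cov β k (by rw [hb3]; exact hk) l hl
      refine ⟨_, Or.inl ⟨β, q, hq, fun g => rfl⟩, ?_, ?_⟩
      · simp only [q0]
        simpa using hb1
      · simp only [q1]
        simpa using hb2
    · obtain ⟨β, hb1, hb2⟩ := f_surj h2 h3 0 4 (by decide) x y
      have hb3 : β.1 = x := by simpa [f] using hb1
      obtain ⟨q, hq, q0, q1⟩ := hI.covU β (by rw [hb2]; exact hU) k (by rw [hb3]; exact hk)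
      refine ⟨_, Or.inl ⟨β, q, hq, fun g => rfl⟩, ?_, ?_⟩
      · simp only [q0]
        simpa using hb1
      · simp only [q1]
        simpa using hb2
    · obtain ⟨β, hb1, hb2⟩ := f_surj h2 h3 4 1 (by decide) x y
      obtain ⟨q, hq, q0, q1⟩ := hI.covV β (by rw [hb1]; exact hV) l hl
      refine ⟨_, Or.inl ⟨β, q, hq, fun g => rfl⟩, ?_, ?_⟩
      · simp only [q0]
        simpa using hb1
      · simp only [q1]
        simpa using hb2
    · obtain ⟨h, hh, h0, h1⟩ := hH.cov x (by simpa using hV) y (by simpa using hU)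
      refine ⟨_, Or.inr ⟨h, hh, fun g => rfl⟩, ?_, ?_⟩
      · simp only [h0]
      · simp only [h1]

end Pool.Agent.Helper969.MR
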