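import Mathlib
import Pool.Agent.Helper969.MR2

set_option autoImplicit false

namespace Pool.Agent.Helper969.MR

/-- base 8 digit number `g` (from the left) of a four digit code -/
def dg (g : Fin 4) (c : ℕ) : ℕ := c / 8 ^ (3 - g.val) % 8

/-- decode: the digit `w` stands for the extra point -/
def oq (w c : ℕ) : Fin 4 → Option ℕ := fun g => if dg g c = w then none else some (dg g c)

def lP3 : List ℕ := [0, 73, 146, 219, 292, 365, 438, 522, 592, 641, 741, 814, 883, 924, 1041, 1090, 1160, 1260, 1333, 1374, 1443]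

def lQ3 : List ℕ := [0, 73, 146, 219, 292, 367, 445, 502, 522, 592, 641, 741, 811, 894, 951, 988, 1041, 1090, 1160, 1276, 1311, 1397, 1454, 1507]

def lP4 : List ℕ := [0, 73, 146, 219, 292, 365, 438, 522, 592, 641, 741, 814, 883, 924, 1041, 1090, 1195, 1228, 1333, 1374, 1440, 1565, 1652, 1672, 1750, 1795, 1890, 1961]

def lQ4 : List ℕ := [0, 73, 146, 219, 292, 367, 445, 502, 522, 592, 641, 741, 811, 894, 951, 988, 1041, 1090, 1183, 1276, 1293, 1392, 1454, 1507, 1566, 1659, 1672, 1778, 1815, 1889, 1924, 2029]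

def lP5 : List ℕ := [0, 73, 146, 219, 292, 365, 438, 522, 592, 641, 741, 814, 883, 924, 1041, 1123, 1192, 1228, 1333, 1374, 1410, 1565, 1642, 1716, 1750, 1795, 1864, 1953, 2092, 2117, 2190, 2289, 2328, 2402, 2451]

def lQ5 : List ℕ := [0, 73, 146, 219, 292, 367, 445, 502, 522, 592, 641, 741, 811, 894, 951, 988, 1041, 1090, 1183, 1276, 1288, 1397, 1454, 1507, 1566, 1659, 1704, 1778, 1815, 1889, 1924, 1997, 2099, 2141, 2190, 2247, 2361, 2388, 2464, 2538]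

def lP6 : List ℕ := [0, 73, 146, 219, 292, 365, 438, 522, 592, 641, 741, 814, 883, 924, 1041, 1126, 1204, 1258, 1293, 1368, 1411, 1589, 1644, 1699, 1750, 1817, 1858, 1928, 2091, 2138, 2190, 2244, 2352, 2401, 2453, 2590, 2629, 2728, 2801, 2835, 2892, 2978]

def lQ6 : List ℕ := [10, 80, 129, 245, 299, 382, 423, 476, 545, 628, 648, 731, 773, 879, 954, 982, 1024, 1097, 1170, 1276, 1335, 1373, 1454, 1507, 1566, 1659, 1708, 1735, 1809, 1890, 1968, 1997, 2109, 2114, 2207, 2280, 2342, 2387, 2444, 2545, 2583, 2661, 2739, 2766, 2872, 2884, 2969, 3050]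

def lP7 : List ℕ := [38, 65, 138, 235, 285, 336, 436, 537, 588, 659, 710, 816, 869, 938, 1037, 1142, 1196, 1242, 1297, 1347, 1440, 1556, 1645, 1664, 1777, 1826, 1870, 1947, 2099, 2130, 2209, 2248, 2350, 2396, 2437, 2600, 2659, 2718, 2773, 2820, 2930, 2953, 3074, 3160, 3253, 3300, 3339, 3433, 3478]

def lQ7 : List ℕ := [59, 71, 137, 230, 274, 348, 437, 488, 520, 593, 695, 748, 773, 890, 926, 995, 1063, 1150, 1171, 1229, 1332, 1344, 1450, 1497, 1582, 1636, 1725, 1744, 1819, 1905, 1935, 1986, 2068, 2122, 2200, 2297, 2351, 2405, 2435, 2550, 2561, 2672, 2722, 2783, 2830, 2923, 3004, 3029, 3098, 3181, 3206, 3315, 3384, 3415, 3489, 3532]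

def lW3 : List ℕ := [0, 73, 146, 522, 592, 641, 1041, 1090, 1160]

def lW4 : List ℕ := [26, 83, 136, 193, 529, 600, 643, 714, 1035, 1090, 1177, 1232, 1536, 1609, 1682]


structure ChkI (L : List ℕ) : Prop where
  ind : ∀ c ∈ L, ∀ c' ∈ L, ∀ g g' : Fin 4, g ≠ g' → dg g c = dg g c' → dg g' c = dg g' c' → c = c'

def Cov (ρ w : ℕ) (L : List ℕ) : Prop := ∀ k < ρ, ∀ y < w, ∃ c ∈ L, dg 0 c = k ∧ dg 1 c = y

def CovS (L : List ℕ) : Prop := ∀ y < 3, ∀ z < 3,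
  (∃ c ∈ L, dg 1 c = y ∧ dg 2 c = z) ∧ (∃ c ∈ L, dg 1 c = y ∧ dg 3 c = z) ∧
  (∃ c ∈ L, dg 2 c = y ∧ dg 3 c = z)

structure ChkP (w ρ : ℕ) (L : List ℕ) : Prop where
  ind : ∀ c ∈ L, ∀ c' ∈ L, ∀ g g' : Fin 4, g ≠ g' → dg g c = dg g c' → dg g' c = dg g' c' → c = c'
  low : ∀ c ∈ L, dg 0 c < ρ ∧ dg 1 c < w ∧ dg 2 c < w ∧ dg 3 c < w
  cov : ∀ k < ρ, ∀ y < w, ∃ c ∈ L, dg 0 c = k ∧ dg 1 c = y

structure ChkQ (w ρ : ℕ) (L : List ℕ) : Prop where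
  ind : ∀ c ∈ L, ∀ c' ∈ L, ∀ g g' : Fin 4, g ≠ g' → dg g c = dg g c' → dg g' c = dg g' c' → c = c'
  one : ∀ c ∈ L, ∀ g g' : Fin 4, g ≠ g' → dg g c = w → dg g' c ≠ w
  low : ∀ c ∈ L, (dg 0 c < ρ ∨ dg 0 c = w) ∧ dg 1 c ≤ w ∧ dg 2 c ≤ w ∧ dg 3 c ≤ w
  cov : ∀ k < ρ, ∀ y < w + 1, ∃ c ∈ L, dg 0 c = k ∧ dg 1 c = y

instance (w ρ : ℕ) (L : List ℕ) : Decidable (ChkP w ρ L) :=
  decidable_of_iff ((∀ c ∈ L, ∀ c' ∈ L, ∀ g g' : Fin 4, g ≠ g' → dg g c = dg g c' →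
      dg g' c = dg g' c' → c = c') ∧
    (∀ c ∈ L, dg 0 c < ρ ∧ dg 1 c < w ∧ dg 2 c < w ∧ dg 3 c < w) ∧
    (∀ k < ρ, ∀ y < w, ∃ c ∈ L, dg 0 c = k ∧ dg 1 c = y))
  ⟨fun h => ⟨h.1, h.2.1, h.2.2⟩, fun h => ⟨h.1, h.2, h.3⟩⟩

instance (w ρ : ℕ) (L : List ℕ) : Decidable (ChkQ w ρ L) :=
  decidable_of_iff ((∀ c ∈ L, ∀ c' ∈ L, ∀ g g' : Fin 4, g ≠ g' → dg g c = dg g c' →
      dg g' c = dg g' c' → c = c') ∧
    (∀ c ∈ L, ∀ g g' : Fin 4, g ≠ g' → dg g c = w → dg g' c ≠ w) ∧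
    (∀ c ∈ L, (dg 0 c < ρ ∨ dg 0 c = w) ∧ dg 1 c ≤ w ∧ dg 2 c ≤ w ∧ dg 3 c ≤ w) ∧
    (∀ k < ρ, ∀ y < w + 1, ∃ c ∈ L, dg 0 c = k ∧ dg 1 c = y))
  ⟨fun h => ⟨h.1, h.2.1, h.2.2.1, h.2.2.2⟩, fun h => ⟨h.1, h.2, h.3, h.4⟩⟩

instance (L : List ℕ) : Decidable (CovS L) := by unfold CovS; infer_instance

set_option maxRecDepth 100000

theorem cP3 : ChkP 7 3 lP3 := by decide +kernel
theorem cP4 : ChkP 7 4 lP4 := by decide +kernel
theorem cP5 : ChkP 7 5 lP5 := by decide +kernel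
theorem cP6 : ChkP 7 6 lP6 := by decide +kernel
theorem cP7 : ChkP 7 7 lP7 := by decide +kernel
theorem cQ3 : ChkQ 7 3 lQ3 := by decide +kernel
theorem cQ4 : ChkQ 7 4 lQ4 := by decide +kernel
theorem cQ5 : ChkQ 7 5 lQ5 := by decide +kernel
theorem cQ6 : ChkQ 7 6 lQ6 := by decide +kernel
theorem cQ7 : ChkQ 7 7 lQ7 := by decide +kernel
theorem sP3 : CovS lP3 := by decide +kernel
theorem sP4 : CovS lP4 := by decide +kernel
theorem sP5 : CovS lP5 := by decide +kernel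
theorem sP6 : CovS lP6 := by decide +kernel
theorem sP7 : CovS lP7 := by decide +kernel
theorem sQ3 : CovS lQ3 := by decide +kernel
theorem sQ4 : CovS lQ4 := by decide +kernel
theorem sQ5 : CovS lQ5 := by decide +kernel
theorem sQ6 : CovS lQ6 := by decide +kernel
theorem sQ7 : CovS lQ7 := by decide +kernel
theorem cW3 : ChkP 3 3 lW3 := by decide +kernel
theorem cW4 : ChkQ 3 3 lW4 := by decide +kernel
theorem cW4' : ∀ y < 3, ∃ c ∈ lW4, dg 0 c = 3 ∧ dg 1 c = y := by decide +kernel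
theorem cW4'' : ∀ y < 3, (∃ c ∈ lW4, dg 1 c = 3 ∧ dg 2 c = y) ∧ (∃ c ∈ lW4, dg 1 c = 3 ∧ dg 3 c = y) := by
  decide +kernel

end Pool.Agent.Helper969.MR
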