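import Mathlib
import Pool.Agent.Helper969.MR3

set_option autoImplicit false

namespace Pool.Agent.Helper969.MR

theorem oq_eq_none {w c : ℕ} {g : Fin 4} : oq w c g = none ↔ dg g c = w := by
  unfold oq; split <;> simp_all

theorem oq_eq_some {w c : ℕ} {g : Fin 4} {k : ℕ} : oq w c g = some k ↔ dg g c = k ∧ k ≠ w := by
  unfold oq; split
  · rename_i h
    simp only [reduceCtorEq, false_iff]
    rintro ⟨h1, h2⟩; exact h2 (h1 ▸ h)
  · rename_i h
    simp only [Option.some.injEq]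
    constructor
    · intro h1; exact ⟨h1, h1 ▸ h⟩
    · exact fun h => h.1

theorem oq_inj {w c c' : ℕ} {g : Fin 4} (h : oq w c g = oq w c' g) : dg g c = dg g c' := by
  by_cases h1 : dg g c = w
  · have := oq_eq_none.2 h1
    rw [h] at this
    rw [h1, oq_eq_none.1 this]
  · have h2 : oq w c g = some (dg g c) := oq_eq_some.2 ⟨rfl, h1⟩
    rw [h] at h2
    exact (oq_eq_some.1 h2).1.symm

def IB {N : ℕ} (w : ℕ) (LP LQ : ZMod N → List ℕ) (U V : Finset (ZMod N))
    (β : ZMod N × ZMod N) : Set (Fin 4 → Option ℕ) :=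
  {q | ∃ c ∈ (if f 4 β ∈ U then LQ β.1 else LP β.1), q = oq w c ∧ (dg 0 c = w → f 4 β ∈ V)}

theorem IB_ing {N : ℕ} (w : ℕ) (ρ : ZMod N → ℕ) (LP LQ : ZMod N → List ℕ)
    (U V : Finset (ZMod N)) (hρ : ∀ i, ρ i ≤ w) (hVU : V ⊆ U)
    (hP : ∀ i, ChkP w (ρ i) (LP i)) (hQ : ∀ i, ChkQ w (ρ i) (LQ i))
    (hV : V = ∅ ∨ ∀ i, ∀ y < w, ∃ c ∈ LQ i, dg 0 c = w ∧ dg 1 c = y) :
    Ing N w ρ U V (IB w LP LQ U V) := by
  have plow : ∀ i, ∀ c ∈ LP i, ∀ g, dg g c < w := by
    intro i c hc g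
    obtain ⟨a0, a1, a2, a3⟩ := (hP i).low c hc
    have h2 := hρ i
    match g with
    | 0 => omega
    | 1 => omega
    | 2 => omega
    | 3 => omega
  have qlow : ∀ i, ∀ c ∈ LQ i, ∀ g, dg g c ≤ w := by
    intro i c hc g
    obtain ⟨a0, a1, a2, a3⟩ := (hQ i).low c hc
    have h2 := hρ i
    match g with
    | 0 => omega
    | 1 => omega
    | 2 => omega
    | 3 => omega
  constructor
  · rintro β _ ⟨c, hc, rfl, _⟩ _ ⟨c', hc', rfl, _⟩ g g' hg e e'
    have e1 := oq_inj e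
    have e2 := oq_inj e'
    split_ifs at hc hc'
    · rw [(hQ _).ind c hc c' hc' g g' hg e1 e2]
    · rw [(hP _).ind c hc c' hc' g g' hg e1 e2]
  · rintro β _ ⟨c, hc, rfl, _⟩ g g' hg e e'
    rw [oq_eq_none] at e e'
    split_ifs at hc
    · exact (hQ _).one c hc g g' hg e e'
    · exact absurd e (plow _ c hc g).ne
  · rintro β _ ⟨c, hc, rfl, _⟩ k hk
    rw [oq_eq_some] at hk
    split_ifs at hc
    · have := ((hQ _).low c hc).1
      rcases this with h | h
      · rw [← hk.1]; exact h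
      · exact absurd (hk.1.symm.trans h) hk.2
    · have := ((hP _).low c hc).1
      rw [← hk.1]; exact this
  · rintro β _ ⟨c, hc, rfl, hcV⟩ h0
    rw [oq_eq_none] at h0
    exact hcV h0
  · rintro β _ ⟨c, hc, rfl, _⟩ g hg k hk
    rw [oq_eq_some] at hk
    split_ifs at hc
    · have := qlow _ c hc g
      omega
    · have := plow _ c hc g
      omega
  · rintro β _ ⟨c, hc, rfl, _⟩ g hg hk
    rw [oq_eq_none] at hk
    split_ifs at hc with h
    · exact h
    · exact absurd hk (plow _ c hc g).ne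
  · intro β k hk y hy
    by_cases h : f 4 β ∈ U
    · obtain ⟨c, hc, h0, h1⟩ := (hQ β.1).cov k hk y (by omega)
      have := hρ β.1
      refine ⟨_, ⟨c, by rw [if_pos h]; exact hc, rfl, ?_⟩, ?_, ?_⟩
      · intro h'; omega
      · rw [oq_eq_some]; exact ⟨h0, by omega⟩
      · rw [oq_eq_some]; exact ⟨h1, by omega⟩
    · obtain ⟨c, hc, h0, h1⟩ := (hP β.1).cov k hk y hy
      have := hρ β.1
      refine ⟨_, ⟨c, by rw [if_neg h]; exact hc, rfl, ?_⟩, ?_, ?_⟩
      · intro h'; omega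
      · rw [oq_eq_some]; exact ⟨h0, by omega⟩
      · rw [oq_eq_some]; exact ⟨h1, by omega⟩
  · intro β h k hk
    obtain ⟨c, hc, h0, h1⟩ := (hQ β.1).cov k hk w (by omega)
    have := hρ β.1
    refine ⟨_, ⟨c, by rw [if_pos h]; exact hc, rfl, ?_⟩, ?_, ?_⟩
    · intro h'; omega
    · rw [oq_eq_some]; exact ⟨h0, by omega⟩
    · rw [oq_eq_none]; exact h1
  · intro β h y hy
    rcases hV with hV | hV
    · rw [hV] at h; simp at h
    · obtain ⟨c, hc, h0, h1⟩ := hV β.1 y hy
      refine ⟨_, ⟨c, by rw [if_pos (hVU h)]; exact hc, rfl, ?_⟩, ?_, ?_⟩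
      · intro _; exact h
      · rw [oq_eq_none]; exact h0
      · rw [oq_eq_some]; exact ⟨h1, by omega⟩

/-- elements of `ZMod N` with small representative -/
def sm (N : ℕ) [NeZero N] (s : ℕ) : Finset (ZMod N) :=
  (Finset.range s).image (fun k : ℕ => (k : ZMod N))

theorem cast_inj {N a b : ℕ} [NeZero N] (ha : a < N) (hb : b < N)
    (h : (a : ZMod N) = (b : ZMod N)) : a = b := by
  have := congrArg ZMod.val h
  rwa [ZMod.val_cast_of_lt ha, ZMod.val_cast_of_lt hb] at this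

theorem card_sm {N s : ℕ} [NeZero N] (h : s ≤ N) : (sm N s).card = s := by
  unfold sm
  rw [Finset.card_image_of_injOn, Finset.card_range]
  intro a ha b hb hab
  simp only [Finset.coe_range, Set.mem_Iio] at ha hb
  exact cast_inj (by omega) (by omega) hab

theorem sm_sub {N s u : ℕ} [NeZero N] (h : s ≤ u) : sm N s ⊆ sm N u := by
  unfold sm
  exact Finset.image_subset_image (Finset.range_subset_range.2 h)

theorem mem_sm {N s : ℕ} [NeZero N] {x : ZMod N} : x ∈ sm N s ↔ ∃ k < s, (k : ZMod N) = x := by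
  simp [sm]

/-- push a small design into `ZMod N` -/
theorem cast_ptd {N s u : ℕ} [NeZero N] (hs : s ≤ N) (hu : u ≤ N) {T : Set (Fin 4 → ℕ)}
    (h : PTD T (sets s u)) :
    PTD (img (fun _ (k : ℕ) => (k : ZMod N)) T)
      (fun g => if g = 0 then (sm N s : Set (ZMod N)) else (sm N u : Set (ZMod N))) := by
  have h1 := img_ptd (fun (_ : Fin 4) (k : ℕ) => (k : ZMod N)) (S := sets s u) ?_ h
  · convert h1 using 1
    funext g
    by_cases hg : g = 0
    · simp only [hg, if_true, sets, sm, Finset.coe_image, Finset.coe_range]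
      rfl
    · simp only [hg, if_false, sets, sm, Finset.coe_image, Finset.coe_range]
      rfl
  · intro g a ha b hb hab
    simp only [sets, Set.mem_setOf_eq] at ha hb
    split_ifs at ha hb
    · exact cast_inj (by omega) (by omega) hab
    · exact cast_inj (by omega) (by omega) hab

theorem sum_const3 {N : ℕ} [NeZero N] (c : ℕ) : (∑ _i : ZMod N, c) = N * c := by
  simp [ZMod.card]

/-- composition with `3 N` new columns -/
theorem rect_rec {N s u : ℕ} [NeZero N] (h2 : IsUnit (2 : ZMod N)) (h3 : IsUnit (3 : ZMod N))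
    (hsu : s ≤ u) (hu : u ≤ N) (h : RectN s u) : RectN (N * 3 + s) (N * 3 + u) := by
  obtain ⟨T, hT⟩ := h
  have hI : Ing N 3 (fun _ => 3) (sm N u) (sm N s)
      (IB 3 (fun _ => lW3) (fun _ => lW4) (sm N u) (sm N s)) :=
    IB_ing 3 (fun _ => 3) _ _ _ _ (fun _ => le_refl _) (sm_sub hsu) (fun _ => cW3) (fun _ => cW4)
      (Or.inr (fun _ => cW4'))
  have hb := bigT_ptd h2 h3 hI (cast_ptd (le_trans hsu hu) hu hT)
  refine rectN_of _ _ _ _ ?_ ?_ hb
  · rw [card_bigS_zero, sum_const3, card_sm (le_trans hsu hu)]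
  · intro g hg
    rw [card_bigS _ _ _ _ g hg, card_sm hu]

/-- hole filling keeps maximality -/
theorem spec_rec {N s u : ℕ} [NeZero N] (h2 : IsUnit (2 : ZMod N)) (h3 : IsUnit (3 : ZMod N))
    (hsu : s ≤ u) (hu : u ≤ N) (h : SpecN s u) : SpecN (N * 3 + s) (N * 3 + u) := by
  obtain ⟨T, hT, hne⟩ := h
  have hI : Ing N 3 (fun _ => 3) (sm N u) (sm N s)
      (IB 3 (fun _ => lW3) (fun _ => lW4) (sm N u) (sm N s)) :=
    IB_ing 3 (fun _ => 3) _ _ _ _ (fun _ => le_refl _) (sm_sub hsu) (fun _ => cW3) (fun _ => cW4)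
      (Or.inr (fun _ => cW4'))
  have hb := bigT_ptd h2 h3 hI (cast_ptd (le_trans hsu hu) hu hT)
  refine specN_of _ _ _ _ ?_ ?_ hb ?_
  · rw [card_bigS_zero, sum_const3, card_sm (le_trans hsu hu)]
  · intro g hg
    rw [card_bigS _ _ _ _ g hg, card_sm hu]
  · rintro ⟨a, b, ha, hb', hai, hbi, hno⟩
    have ha' : ∀ j ∈ bigS 3 (fun _ => 3) (sm N u) (sm N s) 1,
        a j ∈ bigS 3 (fun _ => 3) (sm N u) (sm N s) 2 := ha
    have hb'' : ∀ j ∈ bigS 3 (fun _ => 3) (sm N u) (sm N s) 1,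
        b j ∈ bigS 3 (fun _ => 3) (sm N u) (sm N s) 3 := hb'
    -- hole columns must receive hole symbols
    have inJ : ∀ k < u, (((k : ZMod N), none) : ZMod N × Option ℕ) ∈
        bigS 3 (fun _ => 3) (sm N u) (sm N s) 1 := by
      intro k hk
      rw [mem_bigS _ _ _ _ 1 (by decide)]
      right; exact ⟨rfl, mem_sm.2 ⟨k, hk, rfl⟩⟩
    have keyA : ∀ k < u, ∃ l < u, a ((k : ZMod N), none) = ((l : ZMod N), none) := by
      intro k hk
      have h4 := ha' _ (inJ k hk)
      rw [mem_bigS _ _ _ _ 2 (by decide)] at h4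
      rcases h4 with ⟨y, hy, hy3⟩ | ⟨h5, h6⟩
      · exfalso
        obtain ⟨β, hb1, hb2⟩ := f_surj h2 h3 4 2 (by decide) (k : ZMod N) (a ((k : ZMod N), none)).1
        obtain ⟨c, hc, d1, d2⟩ := (cW4'' y hy3).1
        have hU : f 4 β ∈ sm N u := by rw [hb1]; exact mem_sm.2 ⟨k, hk, rfl⟩
        have hq : oq 3 c ∈ IB 3 (fun _ => lW3) (fun _ => lW4) (sm N u) (sm N s) β := by
          refine ⟨c, by rw [if_pos hU]; exact hc, rfl, ?_⟩
          intro h0
          exact absurd d1 (cW4.one c hc 0 1 (by decide) h0)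
        refine (hno _ (inJ k hk) _ (Or.inl ⟨β, oq 3 c, hq, fun g => rfl⟩)).1 ⟨?_, ?_⟩
        · simp only [oq_eq_none.2 d1, if_true, hb1]
        · have : oq 3 c 2 = some y := oq_eq_some.2 ⟨d2, by omega⟩
          simp only [this]
          apply Prod.ext
          · simpa using hb2
          · exact hy.symm
      · obtain ⟨l, hl, h7⟩ := mem_sm.1 h6
        exact ⟨l, hl, Prod.ext h7.symm h5⟩
    have keyB : ∀ k < u, ∃ l < u, b ((k : ZMod N), none) = ((l : ZMod N), none) := by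
      intro k hk
      have h4 := hb'' _ (inJ k hk)
      rw [mem_bigS _ _ _ _ 3 (by decide)] at h4
      rcases h4 with ⟨y, hy, hy3⟩ | ⟨h5, h6⟩
      · exfalso
        obtain ⟨β, hb1, hb2⟩ := f_surj h2 h3 4 3 (by decide) (k : ZMod N) (b ((k : ZMod N), none)).1
        obtain ⟨c, hc, d1, d2⟩ := (cW4'' y hy3).2
        have hU : f 4 β ∈ sm N u := by rw [hb1]; exact mem_sm.2 ⟨k, hk, rfl⟩
        have hq : oq 3 c ∈ IB 3 (fun _ => lW3) (fun _ => lW4) (sm N u) (sm N s) β := by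
          refine ⟨c, by rw [if_pos hU]; exact hc, rfl, ?_⟩
          intro h0
          exact absurd d1 (cW4.one c hc 0 1 (by decide) h0)
        refine (hno _ (inJ k hk) _ (Or.inl ⟨β, oq 3 c, hq, fun g => rfl⟩)).2.1 ⟨?_, ?_⟩
        · simp only [oq_eq_none.2 d1, if_true, hb1]
        · have : oq 3 c 3 = some y := oq_eq_some.2 ⟨d2, by omega⟩
          simp only [this]
          apply Prod.ext
          · simpa using hb2
          · exact hy.symm
      · obtain ⟨l, hl, h7⟩ := mem_sm.1 h6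
        exact ⟨l, hl, Prod.ext h7.symm h5⟩
    choose! a' ha1 ha2 using keyA
    choose! b' hb1 hb2 using keyB
    apply hne
    refine ⟨a', b', ?_, ?_, ?_, ?_, ?_⟩
    · intro j hj; exact ha1 j hj
    · intro j hj; exact hb1 j hj
    · intro j hj j' hj' e
      have h4 : a ((j : ZMod N), none) = a ((j' : ZMod N), none) := by
        rw [ha2 j hj, ha2 j' hj', e]
      have h5 := hai (inJ j hj) (inJ j' hj') h4
      have h6 := congrArg Prod.fst h5
      exact cast_inj (lt_of_lt_of_le hj hu) (lt_of_lt_of_le hj' hu) h6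
    · intro j hj j' hj' e
      have h4 : b ((j : ZMod N), none) = b ((j' : ZMod N), none) := by
        rw [hb2 j hj, hb2 j' hj', e]
      have h5 := hbi (inJ j hj) (inJ j' hj') h4
      have h6 := congrArg Prod.fst h5
      exact cast_inj (lt_of_lt_of_le hj hu) (lt_of_lt_of_le hj' hu) h6
    · intro j hj t ht
      have h4 := hno _ (inJ j hj) _ (Or.inr ⟨_, ⟨t, ht, rfl⟩, fun g => rfl⟩)
      simp only [ha2 j hj, hb2 j hj] at h4
      refine ⟨?_, ?_, ?_⟩
      · rintro ⟨e1, e2⟩; exact h4.1 ⟨by rw [e1], by rw [e2]⟩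
      · rintro ⟨e1, e2⟩; exact h4.2.1 ⟨by rw [e1], by rw [e2]⟩
      · rintro ⟨e1, e2⟩; exact h4.2.2 ⟨by rw [e1], by rw [e2]⟩

end Pool.Agent.Helper969.MR
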