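import Mathlib
import Pool.Agent.Helper969.MR4

set_option autoImplicit false

namespace Pool.Agent.Helper969.MR

theorem isUnit_cast {N m : ℕ} (h : Nat.Coprime m N) : IsUnit (m : ZMod N) :=
  (ZMod.isUnit_iff_coprime m N).2 h

theorem rect_odd (n : ℕ) (hn : n % 2 = 1) : RectN n n := by
  haveI : NeZero n := ⟨by omega⟩
  have h2 : IsUnit (2 : ZMod n) := by
    have : Nat.Coprime 2 n := (Nat.coprime_two_left).2 (Nat.odd_iff.2 hn)
    exact_mod_cast isUnit_cast this
  have c2 : ∀ x y : ZMod n, 2 * x = 2 * y → x = y := fun x y h => h2.mul_left_cancel h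
  refine rectN_of (P := ZMod n) n n
    {t | ∃ i j : ZMod n, t = ![i, j, i + j, 2 * i + j]} (fun _ => Finset.univ) ?_ ?_ ?_
  · simp [ZMod.card]
  · intro g _; simp [ZMod.card]
  · refine ⟨?_, ?_, ?_⟩
    · rintro _ ⟨i, j, rfl⟩ _ ⟨i', j', rfl⟩ g g' hg e e'
      have : i = i' ∧ j = j' := by
        fin_cases g <;> fin_cases g' <;>
          simp only [Fin.mk_zero, Fin.mk_one, Fin.reduceFinMk, Fin.zero_eta, Fin.isValue,
            Matrix.cons_val_zero, Matrix.cons_val_one, Matrix.cons_val, ne_eq, not_true,
            reduceCtorEq] at hg e e' ⊢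
        all_goals first
          | exact absurd rfl hg
          | skip
        · exact ⟨e, e'⟩
        · subst e; exact ⟨rfl, by linear_combination e'⟩
        · subst e; exact ⟨rfl, by linear_combination e'⟩
        · exact ⟨e', e⟩
        · subst e; exact ⟨by linear_combination e', rfl⟩
        · subst e; exact ⟨c2 _ _ (by linear_combination e'), rfl⟩
        · subst e'; exact ⟨rfl, by linear_combination e⟩
        · subst e'; exact ⟨by linear_combination e, rfl⟩
        · have h1 : i = i' := by linear_combination e' - e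
          subst h1; exact ⟨rfl, by linear_combination e⟩
        · subst e'; exact ⟨rfl, by linear_combination e⟩
        · subst e'; exact ⟨c2 _ _ (by linear_combination e), rfl⟩
        · have h1 : i = i' := by linear_combination e - e'
          subst h1; exact ⟨rfl, by linear_combination e⟩
      rw [this.1, this.2]
    · intro t _ g; simp
    · intro x _ y _
      exact ⟨_, ⟨x, y, rfl⟩, rfl, rfl⟩

theorem rect_restrict {r m : ℕ} (hr : r ≤ m) (h : RectN m m) : RectN r m := by
  obtain ⟨T, hT⟩ := h
  refine ⟨{t | t ∈ T ∧ t 0 < r}, ?_, ?_, ?_⟩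
  · intro s hs t ht g g' hg e e'
    exact hT.ind s hs.1 t ht.1 g g' hg e e'
  · intro t ht g
    have := hT.mem t ht.1 g
    by_cases hg : g = 0
    · subst hg; simpa [sets] using ht.2
    · simpa [sets, hg] using this
  · intro x hx y hy
    have hx' : x < r := by simpa [sets] using hx
    have hy' : y < m := by simpa [sets] using hy
    obtain ⟨t, ht, h0, h1⟩ := hT.cov x (by simp [sets]; omega) y (by simpa [sets] using hy')
    exact ⟨t, ⟨ht, by rw [h0]; exact hx'⟩, h0, h1⟩

/-- in a square design all pairs of coordinates are covered -/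
theorem cov_sq {n : ℕ} {T : Set (Fin 4 → ℕ)} (hT : PTD T (sets n n)) (g g' : Fin 4) (hg : g ≠ g')
    (x y : ℕ) (hx : x < n) (hy : y < n) : ∃ t ∈ T, t g = x ∧ t g' = y := by
  have hmem : ∀ t ∈ T, ∀ g, t g < n := by
    intro t ht g
    have := hT.mem t ht g
    simpa [sets] using this
  have hc : ∀ p : Fin n × Fin n, ∃ t ∈ T, t 0 = p.1.val ∧ t 1 = p.2.val := by
    intro p
    exact hT.cov p.1.val (by simp [sets]) p.2.val (by simp [sets])
  choose τ h1 h2 h3 using hc
  have inj : Function.Injective (fun p : Fin n × Fin n =>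
      ((⟨τ p g, hmem _ (h1 p) g⟩ : Fin n), (⟨τ p g', hmem _ (h1 p) g'⟩ : Fin n))) := by
    intro p p' hp
    simp only [Prod.mk.injEq, Fin.mk.injEq] at hp
    have e := hT.ind _ (h1 p) _ (h1 p') g g' hg hp.1 hp.2
    have e1 := h2 p
    have e2 := h2 p'
    have e3 := h3 p
    have e4 := h3 p'
    rw [e] at e1 e3
    exact Prod.ext (Fin.ext (e1.symm.trans e2)) (Fin.ext (e3.symm.trans e4))
  obtain ⟨p, hp⟩ := (Finite.injective_iff_surjective.1 inj) (⟨x, hx⟩, ⟨y, hy⟩)
  simp only [Prod.mk.injEq, Fin.mk.injEq] at hp
  exact ⟨τ p, h1 p, hp.1, hp.2⟩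

theorem fs_sets (r n : ℕ) :
    (fun g : Fin 4 => (((if g = 0 then Finset.range r else Finset.range n) : Finset ℕ) : Set ℕ))
      = sets r n := by
  funext g
  by_cases hg : g = 0
  · simp only [hg, if_true, sets, Finset.coe_range]; rfl
  · simp only [hg, if_false, sets, Finset.coe_range]; rfl

/-- direct sum of a square on `r` points and a rectangle -/
theorem spec_sum {r n : ℕ} (h3 : n < 3 * r) (h2 : 2 * r ≤ n) (hr : RectN r r)
    (hm : RectN (n - r) (n - r)) : SpecN r n := by
  obtain ⟨T1, hT1⟩ := hr
  obtain ⟨T2, hT2⟩ := rect_restrict (r := r) (by omega) hm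
  have m1 : ∀ t ∈ T1, ∀ g, t g < r := by
    intro t ht g
    simpa [sets] using hT1.mem t ht g
  have m2 : ∀ t ∈ T2, ∀ g, g ≠ 0 → t g < n - r := by
    intro t ht g hg
    simpa [sets, hg] using hT2.mem t ht g
  have m2' : ∀ t ∈ T2, t 0 < r := by
    intro t ht
    simpa [sets] using hT2.mem t ht 0
  set T : Set (Fin 4 → ℕ) := T1 ∪ {t | ∃ s ∈ T2, ∀ g, t g = if g = 0 then s 0 else s g + r} with hT
  have hp : PTD T (sets r n) := by
    refine ⟨?_, ?_, ?_⟩
    · rintro t (ht | ⟨s, hs, ht⟩) t' (ht' | ⟨s', hs', ht'⟩) g g' hg e e'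
      · exact hT1.ind t ht t' ht' g g' hg e e'
      · exfalso
        by_cases h0 : g = 0
        · have h0' : g' ≠ 0 := by rintro rfl; exact hg h0
          rw [ht' g', if_neg h0'] at e'
          have := m1 t ht g'
          omega
        · rw [ht' g, if_neg h0] at e
          have := m1 t ht g
          omega
      · exfalso
        by_cases h0 : g = 0
        · have h0' : g' ≠ 0 := by rintro rfl; exact hg h0
          rw [ht g', if_neg h0'] at e'
          have := m1 t' ht' g'
          omega
        · rw [ht g, if_neg h0] at e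
          have := m1 t' ht' g
          omega
      · have key : ∀ g, t g = t' g → s g = s' g := by
          intro g h
          rw [ht, ht'] at h
          by_cases h0 : g = 0
          · simpa [h0] using h
          · simpa [h0] using h
        have := hT2.ind s hs s' hs' g g' hg (key g e) (key g' e')
        subst this
        funext x; rw [ht, ht']
    · rintro t (ht | ⟨s, hs, ht⟩) g
      · have := m1 t ht g
        simp only [sets, Set.mem_setOf_eq]
        split_ifs <;> omega
      · simp only [sets, Set.mem_setOf_eq]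
        rw [ht]
        by_cases h0 : g = 0
        · simp only [h0, if_true]; exact m2' s hs
        · simp only [h0, if_false]
          have := m2 s hs g h0
          omega
    · intro x hx y hy
      have hx' : x < r := by simpa [sets] using hx
      have hy' : y < n := by simpa [sets] using hy
      by_cases hyr : y < r
      · obtain ⟨t, ht, h0, h1⟩ := hT1.cov x (by simpa [sets] using hx') y (by simpa [sets] using hyr)
        exact ⟨t, Or.inl ht, h0, h1⟩
      · obtain ⟨t, ht, h0, h1⟩ := hT2.cov x (by simpa [sets] using hx') (y - r)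
          (by simp [sets]; omega)
        refine ⟨fun g => if g = 0 then t 0 else t g + r, Or.inr ⟨t, ht, fun g => rfl⟩, ?_, ?_⟩
        · simpa using h0
        · simp [h1]; omega
  refine specN_of r n T (fun g => if g = 0 then Finset.range r else Finset.range n) ?_ ?_ ?_ ?_
  · simp
  · intro g hg; simp [hg]
  · rw [fs_sets]; exact hp
  · refine barrier T (fun g => if g = 0 then Finset.range r else Finset.range n)
      (Finset.range r) (Finset.range r) (Finset.range r) ?_ ?_ ?_ ?_ ?_ ?_ ?_ ?_ ?_
    · simp; omega
    · simp; omega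
    · simp; omega
    · simp
    · simp
    · simp; omega
    · intro x hx y hy
      obtain ⟨t, ht, h⟩ := cov_sq hT1 1 2 (by decide) x y (Finset.mem_range.1 hx)
        (Finset.mem_range.1 hy)
      exact ⟨t, Or.inl ht, h⟩
    · intro x hx y hy
      obtain ⟨t, ht, h⟩ := cov_sq hT1 1 3 (by decide) x y (Finset.mem_range.1 hx)
        (Finset.mem_range.1 hy)
      exact ⟨t, Or.inl ht, h⟩
    · intro x hx y hy
      obtain ⟨t, ht, h⟩ := cov_sq hT1 2 3 (by decide) x y (Finset.mem_range.1 hx)
        (Finset.mem_range.1 hy)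
      exact ⟨t, Or.inl ht, h⟩

end Pool.Agent.Helper969.MR
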