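import Mathlib
import Pool.Agent.Helper969.MR5

set_option autoImplicit false

namespace Pool.Agent.Helper969.MR

theorem units_of (N : ℕ) (h : Nat.Coprime 6 N) : IsUnit (2 : ZMod N) ∧ IsUnit (3 : ZMod N) := by
  have h2 : Nat.Coprime 2 N := Nat.Coprime.coprime_dvd_left (by norm_num) h
  have h3 : Nat.Coprime 3 N := Nat.Coprime.coprime_dvd_left (by norm_num) h
  exact ⟨by exact_mod_cast isUnit_cast h2, by exact_mod_cast isUnit_cast h3⟩

theorem cop_of (q : ℕ) : Nat.Coprime 6 (6 * q + 1) := by
  simp

/-- squares of every order at least 80 -/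
theorem rect_all (n : ℕ) (hn : 80 ≤ n) : RectN n n := by
  rcases Nat.mod_two_eq_zero_or_one n with h | h
  · set q := (n - 4) / 18 with hq
    set N := 6 * q + 1 with hN
    have : NeZero N := ⟨by omega⟩
    obtain ⟨h2, h3⟩ := units_of N (cop_of q)
    have hu : n - 3 * N ≤ N := by omega
    have := rect_rec h2 h3 (le_refl _) hu (rect_odd (n - 3 * N) (by omega))
    have e : N * 3 + (n - 3 * N) = n := by omega
    rwa [e] at this
  · exact rect_odd n h

/-- the cyclic construction -/
theorem spec_cyc (k c : ℕ) (hc : 1 ≤ c) (hck : c ≤ k + 1) :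
    SpecN (2 * k + 1) (2 * k + 1 + c) := by
  set l := 2 * k + 1 with hl
  set n := l + c with hn
  have : NeZero n := ⟨by omega⟩
  have : Nonempty (ZMod n) := ⟨0⟩
  have modl : ∀ u, u < l → (2 * u % l = 2 * u ∧ u ≤ k) ∨ (2 * u % l + l = 2 * u ∧ k < u) := by
    intro u hu
    by_cases h : u ≤ k
    · left; exact ⟨Nat.mod_eq_of_lt (by omega), h⟩
    · right
      refine ⟨?_, by omega⟩
      rw [Nat.mod_eq_sub_mod (by omega), Nat.mod_eq_of_lt (by omega)]
      omega
  have inj2 : ∀ u u', u < l → u' < l → 2 * u % l = 2 * u' % l → u = u' := by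
    intro u u' hu hu' h
    rcases modl u hu with h1 | h1 <;> rcases modl u' hu' with h2 | h2 <;> omega
  have ltl : ∀ u, 2 * u % l < l := fun u => Nat.mod_lt _ (by omega)
  set T : Set (Fin 4 → ZMod n) :=
    {t | ∃ u : ℕ, u < l ∧ ∃ j : ZMod n,
      t = ![(u : ZMod n), j, j + ((2 * u % l : ℕ) : ZMod n), j + (u : ZMod n)]} with hT
  have e03 : ∀ u u' : ℕ, u < l → u' < l → (u : ZMod n) = (u' : ZMod n) → u = u' := by
    intro u u' hu hu' h
    exact cast_inj (by omega) (by omega) h
  have e2 : ∀ u u' : ℕ, u < l → u' < l →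
      ((2 * u % l : ℕ) : ZMod n) = ((2 * u' % l : ℕ) : ZMod n) → u = u' := by
    intro u u' hu hu' h
    have h1 := ltl u
    have h2 := ltl u'
    exact inj2 u u' hu hu' (cast_inj (by omega) (by omega) h)
  have e3 : ∀ u u' : ℕ, u < l → u' < l →
      (u : ZMod n) - ((2 * u % l : ℕ) : ZMod n) = (u' : ZMod n) - ((2 * u' % l : ℕ) : ZMod n) →
      u = u' := by
    intro u u' hu hu' h
    have h5 : ((u + 2 * u' % l : ℕ) : ZMod n) = ((u' + 2 * u % l : ℕ) : ZMod n) := by
      push_cast
      linear_combination h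
    rw [ZMod.natCast_eq_natCast_iff] at h5
    have h6 := h5
    rcases modl u hu with h1 | h1 <;> rcases modl u' hu' with h2 | h2
    · have : u' + (u + 2 * u' % l) = u' + (u + u') + u' := by omega
      have h7 : u + 2 * u' ≡ u' + 2 * u [MOD n] := by rw [h1.1, h2.1] at h6; exact h6
      have h8 : u' ≡ u [MOD n] := by
        have h9 : (u + u') + u' ≡ (u + u') + u [MOD n] := by
          convert h7 using 1 <;> ring
        exact Nat.ModEq.add_left_cancel' _ h9
      have := Nat.ModEq.eq_of_lt_of_lt h8 (by omega) (by omega)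
      omega
    · exfalso
      have h7 : u + 2 * u' % l + l ≡ u' + 2 * u % l + l [MOD n] := Nat.ModEq.add_right _ h6
      have h8 : (u + u') + u' ≡ (u + u') + (u + l) [MOD n] := by
        convert h7 using 1 <;> omega
      have h9 : u' ≡ u + l [MOD n] := Nat.ModEq.add_left_cancel' _ h8
      have h10 := (Nat.modEq_iff_dvd' (by omega : u' ≤ u + l)).1 h9
      have := Nat.le_of_dvd (by omega) h10
      omega
    · exfalso
      have h7 : u + 2 * u' % l + l ≡ u' + 2 * u % l + l [MOD n] := Nat.ModEq.add_right _ h6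
      have h8 : (u + u') + (u' + l) ≡ (u + u') + u [MOD n] := by
        convert h7 using 1 <;> omega
      have h9 : u' + l ≡ u [MOD n] := Nat.ModEq.add_left_cancel' _ h8
      have h10 := (Nat.modEq_iff_dvd' (by omega : u ≤ u' + l)).1 h9.symm
      have := Nat.le_of_dvd (by omega) h10
      omega
    · have h7 : u + 2 * u' % l + l ≡ u' + 2 * u % l + l [MOD n] := Nat.ModEq.add_right _ h6
      have h8 : (u + u') + u' ≡ (u + u') + u [MOD n] := by
        convert h7 using 1 <;> omega
      have h9 : u' ≡ u [MOD n] := Nat.ModEq.add_left_cancel' _ h8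
      have := Nat.ModEq.eq_of_lt_of_lt h9 (by omega) (by omega)
      omega
  have hp : PTD T (fun g => ((if g = 0 then sm n l else Finset.univ : Finset (ZMod n)) :
      Set (ZMod n))) := by
    refine ⟨?_, ?_, ?_⟩
    · rintro _ ⟨u, hu, j, rfl⟩ _ ⟨u', hu', j', rfl⟩ g g' hg e e'
      have : u = u' ∧ j = j' := by
        fin_cases g <;> fin_cases g' <;>
          simp only [Fin.mk_zero, Fin.mk_one, Fin.reduceFinMk, Fin.zero_eta, Fin.isValue,
            Matrix.cons_val_zero, Matrix.cons_val_one, Matrix.cons_val, ne_eq, not_true,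
            reduceCtorEq] at hg e e' ⊢
        · exact ⟨e03 _ _ hu hu' e, e'⟩
        · have := e03 _ _ hu hu' e
          subst this; exact ⟨rfl, by linear_combination e'⟩
        · have := e03 _ _ hu hu' e
          subst this; exact ⟨rfl, by linear_combination e'⟩
        · exact ⟨e03 _ _ hu hu' e', e⟩
        · subst e; exact ⟨e2 _ _ hu hu' (by linear_combination e'), rfl⟩
        · subst e; exact ⟨e03 _ _ hu hu' (by linear_combination e'), rfl⟩
        · have := e03 _ _ hu hu' e'
          subst this; exact ⟨rfl, by linear_combination e⟩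
        · subst e'; exact ⟨e2 _ _ hu hu' (by linear_combination e), rfl⟩
        · have := e3 _ _ hu hu' (by linear_combination e' - e)
          subst this; exact ⟨rfl, by linear_combination e⟩
        · have := e03 _ _ hu hu' e'
          subst this; exact ⟨rfl, by linear_combination e⟩
        · subst e'; exact ⟨e03 _ _ hu hu' (by linear_combination e), rfl⟩
        · have := e3 _ _ hu hu' (by linear_combination e - e')
          subst this; exact ⟨rfl, by linear_combination e⟩
      rw [this.1, this.2]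
    · rintro _ ⟨u, hu, j, rfl⟩ g
      by_cases hg : g = 0
      · subst hg
        simp only [if_true, Matrix.cons_val_zero, Finset.mem_coe]
        exact mem_sm.2 ⟨u, hu, rfl⟩
      · simp [hg]
    · intro x hx y _
      have hx' : x ∈ sm n l := by simpa using hx
      obtain ⟨u, hu, rfl⟩ := mem_sm.1 hx'
      exact ⟨_, ⟨u, hu, y, rfl⟩, rfl, rfl⟩
  refine specN_of _ _ T (fun g => if g = 0 then sm n l else Finset.univ) ?_ ?_ hp ?_
  · simp only [if_true]
    exact card_sm (by omega)
  · intro g hg
    simp only [hg, if_false, Finset.card_univ, ZMod.card]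
  · rintro ⟨a, b, -, -, -, -, hno⟩
    have h0 := hno 0 (by simp)
    -- the missing symbols of column 0 are large
    have hA : l ≤ (a 0).val := by
      by_contra hlt
      push Not at hlt
      set v := (a 0).val with hv
      -- choose u with 2u % l = v
      have hex : ∃ u < l, 2 * u % l = v := by
        by_cases hpar : v % 2 = 0
        · exact ⟨v / 2, by omega, by rw [Nat.mod_eq_of_lt (by omega)]; omega⟩
        · refine ⟨(v + l) / 2, by omega, ?_⟩
          have : 2 * ((v + l) / 2) = v + l := by omega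
          rw [this, Nat.add_mod_right, Nat.mod_eq_of_lt hlt]
      obtain ⟨u, hu, hu2⟩ := hex
      refine (h0 _ ⟨u, hu, 0, rfl⟩).1 ⟨rfl, ?_⟩
      show (0 : ZMod n) + ((2 * u % l : ℕ) : ZMod n) = a 0
      rw [hu2, hv, zero_add, ZMod.natCast_zmod_val]
    have hB : l ≤ (b 0).val := by
      by_contra hlt
      push Not at hlt
      refine (h0 _ ⟨(b 0).val, hlt, 0, rfl⟩).2.1 ⟨rfl, ?_⟩
      show (0 : ZMod n) + (((b 0).val : ℕ) : ZMod n) = b 0
      rw [zero_add, ZMod.natCast_zmod_val]
    have hA2 := ZMod.val_lt (a 0)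
    have hB2 := ZMod.val_lt (b 0)
    have hex : ∃ u < l, u + (a 0).val = (b 0).val + 2 * u % l := by
      rcases le_or_gt (b 0).val (a 0).val with h | h
      · refine ⟨(a 0).val - (b 0).val, by omega, ?_⟩
        rw [Nat.mod_eq_of_lt (by omega)]; omega
      · refine ⟨l - ((b 0).val - (a 0).val), by omega, ?_⟩
        rw [Nat.mod_eq_sub_mod (by omega), Nat.mod_eq_of_lt (by omega)]; omega
    obtain ⟨u, hu, he⟩ := hex
    have he' : (u : ZMod n) + a 0 = b 0 + ((2 * u % l : ℕ) : ZMod n) := by
      have := congrArg (fun x : ℕ => (x : ZMod n)) he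
      simp only [Nat.cast_add, ZMod.natCast_zmod_val] at this
      exact this
    refine (h0 _ ⟨u, hu, a 0 - ((2 * u % l : ℕ) : ZMod n), rfl⟩).2.2 ⟨?_, ?_⟩
    · show a 0 - ((2 * u % l : ℕ) : ZMod n) + ((2 * u % l : ℕ) : ZMod n) = a 0
      ring
    · show a 0 - ((2 * u % l : ℕ) : ZMod n) + (u : ZMod n) = b 0
      linear_combination he'

end Pool.Agent.Helper969.MR
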