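import Mathlib
import Pool.Agent.Helper969.MR6

set_option autoImplicit false

namespace Pool.Agent.Helper969.MR

def LP (k : ℕ) : List ℕ :=
  if k = 3 then lP3 else if k = 4 then lP4 else if k = 5 then lP5 else if k = 6 then lP6 else lP7

def LQ (k : ℕ) : List ℕ :=
  if k = 3 then lQ3 else if k = 4 then lQ4 else if k = 5 then lQ5 else if k = 6 then lQ6 else lQ7

theorem chkLP (k : ℕ) (h : 3 ≤ k) (h' : k ≤ 7) : ChkP 7 k (LP k) := by
  interval_cases k
  · exact cP3
  · exact cP4
  · exact cP5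
  · exact cP6
  · exact cP7

theorem chkLQ (k : ℕ) (h : 3 ≤ k) (h' : k ≤ 7) : ChkQ 7 k (LQ k) := by
  interval_cases k
  · exact cQ3
  · exact cQ4
  · exact cQ5
  · exact cQ6
  · exact cQ7

theorem covLP (k : ℕ) (h : 3 ≤ k) (h' : k ≤ 7) : CovS (LP k) := by
  interval_cases k
  · exact sP3
  · exact sP4
  · exact sP5
  · exact sP6
  · exact sP7

theorem covLQ (k : ℕ) (h : 3 ≤ k) (h' : k ≤ 7) : CovS (LQ k) := by
  interval_cases k
  · exact sQ3
  · exact sQ4
  · exact sQ5
  · exact sQ6
  · exact sQ7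

theorem exists_rho {N r : ℕ} [NeZero N] (h : N * 3 ≤ r) (h' : r ≤ N * 7) :
    ∃ ρ : ZMod N → ℕ, (∀ i, 3 ≤ ρ i ∧ ρ i ≤ 7) ∧ ∑ i, ρ i = r := by
  have hN : 0 < N := Nat.pos_of_ne_zero (NeZero.ne N)
  set q := r / N with hq
  set s := r % N with hs
  have hr : N * q + s = r := Nat.div_add_mod r N
  have hsN : s < N := Nat.mod_lt _ hN
  have hq3 : 3 ≤ q := by
    rw [hq, Nat.le_div_iff_mul_le hN]; linarith
  by_cases h7 : q = 7
  · have hs0 : s = 0 := by
      rw [h7] at hr; omega
    refine ⟨fun _ => 7, fun _ => ⟨by norm_num, le_refl _⟩, ?_⟩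
    rw [sum_const3]
    rw [h7, hs0] at hr
    omega
  · have hq6 : q ≤ 6 := by
      by_contra hc
      have : 8 ≤ q := by omega
      have : N * 8 ≤ N * q := Nat.mul_le_mul_left N this
      omega
    refine ⟨fun i => q + if i ∈ sm N s then 1 else 0, ?_, ?_⟩
    · intro i
      simp only
      split_ifs <;> omega
    · rw [Finset.sum_add_distrib, sum_const3]
      have : (∑ i : ZMod N, if i ∈ sm N s then 1 else 0) = s := by
        rw [Finset.sum_ite_mem]
        simp [card_sm hsN.le]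
      rw [this, hr]

theorem spec_td {N r u : ℕ} [NeZero N] (h2 : IsUnit (2 : ZMod N)) (h3 : IsUnit (3 : ZMod N))
    (hu : u ≤ N) (hr : N * 3 ≤ r) (hr' : r ≤ N * 7) : SpecN r (N * 7 + u) := by
  obtain ⟨ρ, hρ, hsum⟩ := exists_rho hr hr'
  have hN : 0 < N := Nat.pos_of_ne_zero (NeZero.ne N)
  have hI : Ing N 7 ρ (sm N u) ∅
      (IB 7 (fun i => LP (ρ i)) (fun i => LQ (ρ i)) (sm N u) ∅) :=
    IB_ing 7 ρ _ _ _ _ (fun i => (hρ i).2) (Finset.empty_subset _)
      (fun i => chkLP _ (hρ i).1 (hρ i).2) (fun i => chkLQ _ (hρ i).1 (hρ i).2) (Or.inl rfl)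
  have hH : PTD (∅ : Set (Fin 4 → ZMod N))
      (fun g => if g = 0 then ((∅ : Finset (ZMod N)) : Set (ZMod N)) else (sm N u : Set (ZMod N))) := by
    refine ⟨?_, ?_, ?_⟩
    · intro s hs; exact absurd hs (Set.notMem_empty _)
    · intro s hs; exact absurd hs (Set.notMem_empty _)
    · intro x hx; simp at hx
  have hb := bigT_ptd h2 h3 hI hH
  refine specN_of _ _ _ _ ?_ ?_ hb ?_
  · rw [card_bigS_zero, hsum]; simp
  · intro g hg
    rw [card_bigS _ _ _ _ g hg, card_sm hu]
  · set J1 : Finset (ZMod N × Option ℕ) :=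
      ((Finset.univ : Finset (ZMod N)) ×ˢ Finset.range 3).image (fun p => (p.1, some p.2)) with hJ1
    have cJ : J1.card = N * 3 := by
      rw [hJ1, Finset.card_image_of_injective, Finset.card_product]
      · simp [ZMod.card]
      · rintro ⟨a, b⟩ ⟨c, d⟩ h
        simp only [Prod.mk.injEq, Option.some.injEq] at h
        obtain ⟨rfl, rfl⟩ := h; rfl
    have memJ : ∀ p, p ∈ J1 ↔ ∃ k, p.2 = some k ∧ k < 3 := by
      rintro ⟨x, o⟩
      simp only [hJ1, Finset.mem_image, Finset.mem_product, Finset.mem_univ, Finset.mem_range,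
        true_and, Prod.exists, Prod.mk.injEq]
      constructor
      · rintro ⟨i, k, h1, h2, h3⟩; exact ⟨k, h3.symm, h1⟩
      · rintro ⟨k, h1, h2⟩; exact ⟨x, k, h2, rfl, h1.symm⟩
    have sub : ∀ g : Fin 4, g ≠ 0 → J1 ⊆ bigS 7 ρ (sm N u) ∅ g := by
      intro g hg p hp
      obtain ⟨k, hk, hk3⟩ := (memJ p).1 hp
      rw [mem_bigS _ _ _ _ g hg]
      exact Or.inl ⟨k, hk, by omega⟩
    have covT : ∀ g g' : Fin 4, g ≠ g' → g ≠ 0 → g' ≠ 0 →
        (∀ k, 3 ≤ k → k ≤ 7 → ∀ y < 3, ∀ z < 3, ∃ c ∈ LP k, dg g c = y ∧ dg g' c = z) →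
        (∀ k, 3 ≤ k → k ≤ 7 → ∀ y < 3, ∀ z < 3, ∃ c ∈ LQ k, dg g c = y ∧ dg g' c = z) →
        ∀ x ∈ J1, ∀ y ∈ J1, ∃ t ∈ bigT (IB 7 (fun i => LP (ρ i)) (fun i => LQ (ρ i)) (sm N u) ∅)
          (∅ : Set (Fin 4 → ZMod N)), t g = x ∧ t g' = y := by
      intro g g' hg hg0 hg0' hP hQ x hx y hy
      obtain ⟨k, hk, hk3⟩ := (memJ x).1 hx
      obtain ⟨l, hl, hl3⟩ := (memJ y).1 hy
      obtain ⟨β, hb1, hb2⟩ := f_surj h2 h3 g.castSucc g'.castSucc
        (fun h => hg (Fin.castSucc_injective _ h)) x.1 y.1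
      have hex : ∃ c ∈ (if f 4 β ∈ sm N u then LQ (ρ β.1) else LP (ρ β.1)),
          dg g c = k ∧ dg g' c = l := by
        split_ifs
        · exact hQ _ (hρ β.1).1 (hρ β.1).2 k hk3 l hl3
        · exact hP _ (hρ β.1).1 (hρ β.1).2 k hk3 l hl3
      obtain ⟨c, hc, d1, d2⟩ := hex
      have hc0 : dg 0 c = 7 → f 4 β ∈ (∅ : Finset (ZMod N)) := by
        intro h0
        exfalso
        split_ifs at hc
        · have hh := (chkLQ _ (hρ β.1).1 (hρ β.1).2).low c hc
          have := (chkLQ _ (hρ β.1).1 (hρ β.1).2).one c hc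
          rcases hh.1 with h5 | h5
          · have := (hρ β.1).2; omega
          · -- digit 0 equal to 7 never happens in the lists
            have key : ∀ k, 3 ≤ k → k ≤ 7 → ∀ c ∈ LQ k, dg 0 c ≠ 7 := by
              intro k hk hk'
              interval_cases k <;> decide +kernel
            exact key _ (hρ β.1).1 (hρ β.1).2 c hc h0
        · have hh := (chkLP _ (hρ β.1).1 (hρ β.1).2).low c hc
          have := (hρ β.1).2
          omega
      refine ⟨_, Or.inl ⟨β, oq 7 c, ⟨c, hc, rfl, hc0⟩, fun g => rfl⟩, ?_, ?_⟩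
      · have h5 : oq 7 c g = some k := oq_eq_some.2 ⟨d1, by omega⟩
        simp only [h5]
        apply Prod.ext
        · simpa using hb1
        · exact hk.symm
      · have h5 : oq 7 c g' = some l := oq_eq_some.2 ⟨d2, by omega⟩
        simp only [h5]
        apply Prod.ext
        · simpa using hb2
        · exact hl.symm
    refine barrier _ _ J1 J1 J1 (sub 1 (by decide)) (sub 2 (by decide)) (sub 3 (by decide))
      ?_ ?_ ?_ ?_ ?_ ?_
    · rw [card_bigS _ _ _ _ 2 (by decide), card_bigS _ _ _ _ 1 (by decide)]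
    · rw [card_bigS _ _ _ _ 3 (by decide), card_bigS _ _ _ _ 1 (by decide)]
    · rw [card_bigS _ _ _ _ 1 (by decide), card_sm hu, cJ]; omega
    · exact covT 1 2 (by decide) (by decide) (by decide)
        (fun k h h' y hy z hz => (covLP k h h' y hy z hz).1)
        (fun k h h' y hy z hz => (covLQ k h h' y hy z hz).1)
    · exact covT 1 3 (by decide) (by decide) (by decide)
        (fun k h h' y hy z hz => (covLP k h h' y hy z hz).2.1)
        (fun k h h' y hy z hz => (covLQ k h h' y hy z hz).2.1)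
    · exact covT 2 3 (by decide) (by decide) (by decide)
        (fun k h h' y hy z hz => (covLP k h h' y hy z hz).2.2)
        (fun k h h' y hy z hz => (covLQ k h h' y hy z hz).2.2)

theorem main (n r : ℕ) (hn : 1000 ≤ n) (h1 : n < 3 * r) (h2 : r < n) : SpecN r n := by
  by_cases hA : 2 * r ≤ n
  · exact spec_sum h1 hA (rect_all r (by omega)) (rect_all (n - r) (by omega))
  · push Not at hA
    by_cases hB : r + 42 ≤ n
    · set q := (n - 7) / 42 with hq
      have : NeZero (6 * q + 1) := ⟨by omega⟩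
      obtain ⟨u2, u3⟩ := units_of (6 * q + 1) (cop_of q)
      have := spec_td (N := 6 * q + 1) (r := r) (u := n - (6 * q + 1) * 7) u2 u3
        (by omega) (by omega) (by omega)
      have e : (6 * q + 1) * 7 + (n - (6 * q + 1) * 7) = n := by omega
      rwa [e] at this
    · push Not at hB
      rcases Nat.mod_two_eq_zero_or_one r with h | h
      · -- r even: fill the hole
        set q := (n - 150) / 18 with hq
        have : NeZero (6 * q + 1) := ⟨by omega⟩
        obtain ⟨u2, u3⟩ := units_of (6 * q + 1) (cop_of q)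
        set N := 6 * q + 1 with hN
        set m := n - N * 3 with hm
        set c := n - r with hc
        have hmc : m - c = 2 * ((m - c) / 2) + 1 := by omega
        have hs := spec_cyc ((m - c) / 2) c (by omega) (by omega)
        rw [← hmc] at hs
        have e1 : m - c + c = m := by omega
        rw [e1] at hs
        have hs2 := spec_rec (N := N) u2 u3 (by omega) (by omega) hs
        have e2 : N * 3 + (m - c) = r := by omega
        have e3 : N * 3 + m = n := by omega
        rwa [e2, e3] at hs2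
      · have hs := spec_cyc (r / 2) (n - r) (by omega) (by omega)
        have e1 : 2 * (r / 2) + 1 = r := by omega
        have e2 : r + (n - r) = n := by omega
        rwa [e1, e2] at hs

end Pool.Agent.Helper969.MR
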