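import Mathlib

set_option autoImplicit false

namespace Pool.Agent.Helper969.TB

/-- A symmetric Hamiltonian cycle of the additive group `G`, given as a successor map: reversing
the cycle and negating gives the same cycle, and everything is reached from `0`. -/
structure SymCyc {G : Type} [AddCommGroup G] (κ : G → G) : Prop where
  symm : ∀ x, κ (-(κ x)) = -x
  trans : ∀ x, ∃ m : ℕ, κ^[m] 0 = x

namespace SymCyc

variable {G : Type} [AddCommGroup G] {κ : G → G}

theorem inj (h : SymCyc κ) : Function.Injective κ := by
  intro x y hxy
  have h1 := h.symm x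
  have h2 := h.symm y
  rw [hxy] at h1
  exact neg_injective (h1.symm.trans h2)

variable [Fintype G]

theorem period (h : SymCyc κ) : Function.minimalPeriod κ 0 = Fintype.card G := by
  classical
  have hper : (0 : G) ∈ Function.periodicPts κ := Function.Injective.mem_periodicPts h.inj 0
  have hpos : 0 < Function.minimalPeriod κ 0 := Function.minimalPeriod_pos_of_mem_periodicPts hper
  have hinj : Set.InjOn (fun m => κ^[m] (0 : G)) (Set.Iio (Function.minimalPeriod κ 0)) :=
    Function.iterate_injOn_Iio_minimalPeriod
  apply le_antisymm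
  · have h1 : (Finset.range (Function.minimalPeriod κ 0)).card ≤ (Finset.univ : Finset G).card := by
      apply Finset.card_le_card_of_injOn (fun m => κ^[m] (0 : G)) (fun _ _ => Finset.mem_univ _)
      intro a ha b hb hab
      exact hinj (by simpa using ha) (by simpa using hb) hab
    simpa using h1
  · have h1 : (Finset.univ : Finset G).card ≤ (Finset.range (Function.minimalPeriod κ 0)).card := by
      apply Finset.card_le_card_of_surjOn (fun m => κ^[m] (0 : G))
      intro x _
      obtain ⟨m, hm⟩ := h.trans x
      refine ⟨m % Function.minimalPeriod κ 0, ?_, ?_⟩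
      · simpa using Nat.mod_lt _ hpos
      · simp only
        rw [Function.iterate_mod_minimalPeriod_eq, hm]
    simpa using h1

theorem iter_card (h : SymCyc κ) : κ^[Fintype.card G] 0 = 0 := by
  rw [← h.period]
  exact Function.iterate_minimalPeriod

theorem iter_inj (h : SymCyc κ) {a b : ℕ} (ha : a < Fintype.card G) (hb : b < Fintype.card G)
    (hab : κ^[a] 0 = κ^[b] 0) : a = b := by
  have hinj : Set.InjOn (fun m => κ^[m] (0 : G)) (Set.Iio (Function.minimalPeriod κ 0)) :=
    Function.iterate_injOn_Iio_minimalPeriod
  rw [h.period] at hinj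
  exact hinj (by simpa using ha) (by simpa using hb) hab

theorem exists_lt (h : SymCyc κ) (x : G) : ∃ m, m < Fintype.card G ∧ κ^[m] 0 = x := by
  obtain ⟨m, hm⟩ := h.trans x
  have hpos : 0 < Fintype.card G := Fintype.card_pos_iff.2 ⟨0⟩
  refine ⟨m % Fintype.card G, Nat.mod_lt _ hpos, ?_⟩
  rw [← hm, ← h.period, Function.iterate_mod_minimalPeriod_eq]

theorem iter_neg (h : SymCyc κ) (j : ℕ) (hj : j ≤ Fintype.card G) :
    κ^[Fintype.card G - j] 0 = -(κ^[j] 0) := by
  induction j with
  | zero => simp [h.iter_card]
  | succ j ih =>
    have ih' := ih (by omega)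
    have e : Fintype.card G - j = (Fintype.card G - (j + 1)) + 1 := by omega
    rw [e, Function.iterate_succ_apply'] at ih'
    apply h.inj
    rw [ih', Function.iterate_succ_apply' κ j, h.symm]

end SymCyc

end Pool.Agent.Helper969.TB
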