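import Pool.Agent.Helper969.TB9

set_option autoImplicit false

namespace Pool.Agent.Helper969.TB

section cov

variable {S K I : Type} {n : ℕ} {L : K → I → ℕ → S} {b1 b2 : K} {sg : S → S → Bool}

theorem cov_rev (hrev : ∀ (k' : ({k : K // k ≠ b1} × Bool) ⊕ Fin 3) (i' : I × Bool),
      ∃ i'', ∀ J, J < 2 * n → LL n L b1 sg k' i'' J = LL n L b1 sg k' i' (2 * n - 1 - J))
    {x y z : S × Bool}
    (h : ∃ k' i' J, J + 2 < 2 * n ∧ LL n L b1 sg k' i' J = z ∧
      LL n L b1 sg k' i' (J + 1) = y ∧ LL n L b1 sg k' i' (J + 2) = x) :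
    ∃ k' i' J, J + 2 < 2 * n ∧ LL n L b1 sg k' i' J = x ∧
      LL n L b1 sg k' i' (J + 1) = y ∧ LL n L b1 sg k' i' (J + 2) = z := by
  obtain ⟨k', i', J, hJ, h0, h1, h2⟩ := h
  obtain ⟨i'', hi''⟩ := hrev k' i'
  refine ⟨k', i'', 2 * n - 3 - J, by omega, ?_, ?_, ?_⟩
  · rw [hi'' _ (by omega), ← h2]; congr 1; omega
  · rw [hi'' _ (by omega), ← h1]; congr 1; omega
  · rw [hi'' _ (by omega), ← h0]; congr 1; omega

theorem ed_solve (s p : Bool) (j : ℕ) (hj : j % 2 = 0) : ∃ t, ed s t j = p := by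
  cases s <;> cases p
  · exact ⟨false, by simp [ed]⟩
  · exact ⟨true, by simp [ed, hj]⟩
  · exact ⟨true, by simp [ed, hj]⟩
  · exact ⟨false, by simp [ed]⟩

/-- target `(a, b, b)` -/
theorem tri_last (hD : DataProp n L b1 b2) (hn : n % 2 = 0) (hn4 : 4 ≤ n)
    (a b : S) (hab : a ≠ b) (α β : Bool) :
    ∃ k' i' J, J + 2 < 2 * n ∧ LL n L b1 sg k' i' J = (a, α) ∧
      LL n L b1 sg k' i' (J + 1) = (b, β) ∧ LL n L b1 sg k' i' (J + 2) = (b, !β) := by
  obtain ⟨k, i, ha, hb⟩ := hD.last a b hab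
  have e1 : n - 2 + 1 = n - 1 := by omega
  have e2 : n - 2 + 2 = n + 0 := by omega
  have q1 : xor β (!β) = true := by cases β <;> rfl
  by_cases hk : k = b1
  · subst hk
    cases hp : xor α β
    · refine hit3 (k' := Sum.inr 0) (i := i) (J := n - 2) (by omega) ?_ ?_ ?_ ?_ ?_
      · rw [VA_lo i _ (by omega), ha]
      · rw [VA_lo i _ (by omega), e1, hb]
      · rw [e2, VA_hi, Nat.sub_zero, hb]
      · rw [WA_lo i _ (by omega), WA_lo i _ (by omega), hp, XA_even _ _ (by omega),
          XA_end _ _ (by omega)]; rfl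
      · rw [e2, WA_hi, WA_lo i _ (by omega), q1, XA_end _ _ (by omega), XA_end _ _ (by omega)]
        rfl
    · have e3 : 2 * n - 3 + 1 = 2 * n - 2 := by omega
      have e4 : 2 * n - 3 + 2 = 2 * n - 1 := by omega
      refine hit3 (k' := Sum.inr 2) (i := i) (J := 2 * n - 3) (by omega) ?_ ?_ ?_ ?_ ?_
      · rw [VC, ← ha]; congr 1; unfold vC; split_ifs <;> omega
      · rw [VC, ← hb]; congr 1; unfold vC; split_ifs <;> omega
      · rw [VC, ← hb]; congr 1; unfold vC; split_ifs <;> omega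
      · rw [e3, hp]
        cases hs : sgn n L sg k i
        · rw [WC_f i _ hs, WC_f i _ hs, bC_one _ (by omega) (by omega),
            bC_zero _ (by omega) (by omega)]; rfl
        · rw [WC_t i _ hs, WC_t i _ hs]
          have f1 : 2 * n - 1 - (2 * n - 3) = 2 := by omega
          have f2 : 2 * n - 1 - (2 * n - 2) = 1 := by omega
          rw [f1, f2, bC_one 1 (by omega) (by omega), bC_zero 2 (by omega) (by omega)]; rfl
      · rw [e3, e4, q1]
        cases hs : sgn n L sg k i
        · rw [WC_f i _ hs, WC_f i _ hs, bC_last hn4, bC_zero _ (by omega) (by omega)]; rfl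
        · rw [WC_t i _ hs, WC_t i _ hs]
          have f1 : 2 * n - 1 - (2 * n - 1) = 0 := by omega
          have f2 : 2 * n - 1 - (2 * n - 2) = 1 := by omega
          rw [f1, f2, bC_one 1 (by omega) (by omega), bC_z]; rfl
  · obtain ⟨t, ht⟩ := ed_solve (sgn n L sg k i) (xor α β) (n - 2) (by omega)
    refine hit3 (k' := Sum.inl (⟨k, hk⟩, t)) (i := i) (J := n - 2) (by omega) ?_ ?_ ?_ ?_ ?_
    · rw [VF_lo k hk t i _ (by omega), ha]
    · rw [VF_lo k hk t i _ (by omega), e1, hb]
    · rw [e2, VF_hi, Nat.sub_zero, hb]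
    · rw [WF_lo k hk t i _ (by omega), WF_lo k hk t i _ (by omega), XX_succ, ht]
    · rw [e2, WF_hi, WF_lo k hk t i _ (by omega), q1, e1, Nat.sub_zero]
      cases XX (sgn n L sg k i) t (n - 1) <;> rfl

theorem hitmid {k' : ({k : K // k ≠ b1} × Bool) ⊕ Fin 3} {i : I} {J : ℕ} {a b : S}
    (hrev : ∀ (k' : ({k : K // k ≠ b1} × Bool) ⊕ Fin 3) (i' : I × Bool),
      ∃ i'', ∀ J, J < 2 * n → LL n L b1 sg k' i'' J = LL n L b1 sg k' i' (2 * n - 1 - J))
    (α β : Bool) (hJ : J + 2 < 2 * n) (h0 : VV n L b1 k' i J = a)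
    (h1 : VV n L b1 k' i (J + 1) = b) (h2 : VV n L b1 k' i (J + 2) = a)
    (hpq : WW n L b1 sg k' i (J + 2) = !(WW n L b1 sg k' i J)) :
    ∃ k' i' J, J + 2 < 2 * n ∧ LL n L b1 sg k' i' J = (a, α) ∧
      LL n L b1 sg k' i' (J + 1) = (b, β) ∧ LL n L b1 sg k' i' (J + 2) = (a, !α) := by
  by_cases hm : xor (WW n L b1 sg k' i J) (WW n L b1 sg k' i (J + 1)) = xor α β
  · refine hit3 hJ h0 h1 h2 hm ?_
    revert hm
    rw [hpq]
    generalize WW n L b1 sg k' i J = x0
    generalize WW n L b1 sg k' i (J + 1) = x1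
    cases x0 <;> cases x1 <;> cases α <;> cases β <;> simp
  · apply cov_rev hrev
    refine hit3 hJ h0 h1 h2 ?_ ?_
    · revert hm
      generalize WW n L b1 sg k' i J = x0
      generalize WW n L b1 sg k' i (J + 1) = x1
      cases x0 <;> cases x1 <;> cases α <;> cases β <;> simp
    · revert hm
      rw [hpq]
      generalize WW n L b1 sg k' i J = x0
      generalize WW n L b1 sg k' i (J + 1) = x1
      cases x0 <;> cases x1 <;> cases α <;> cases β <;> simp

/-- over an edge of a primary row of the special square both `(u, v, u)` and `(v, u, v)` occur -/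
theorem mid_prim (hn : n % 2 = 0) (hn4 : 4 ≤ n)
    (hrev : ∀ (k' : ({k : K // k ≠ b1} × Bool) ⊕ Fin 3) (i' : I × Bool),
      ∃ i'', ∀ J, J < 2 * n → LL n L b1 sg k' i'' J = LL n L b1 sg k' i' (2 * n - 1 - J))
    (i : I) (hs : sgn n L sg b1 i = false) (j : ℕ) (hj : j + 1 < n) (α β : Bool) (d : Bool) :
    ∃ k' i' J, J + 2 < 2 * n ∧
      LL n L b1 sg k' i' J = (L b1 i (if d then j + 1 else j), α) ∧
      LL n L b1 sg k' i' (J + 1) = (L b1 i (if d then j else j + 1), β) ∧
      LL n L b1 sg k' i' (J + 2) = (L b1 i (if d then j + 1 else j), !α) := by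
  rcases Nat.mod_two_eq_zero_or_one j with h | h
  · cases d
    · refine hitmid (k' := Sum.inr 1) (i := i) (J := 2 * j) hrev α β (by omega) ?_ ?_ ?_ ?_
      · rw [VB]; congr 1; unfold vB; simp; omega
      · rw [VB]; congr 1; unfold vB; simp; omega
      · rw [VB]; congr 1; unfold vB; simp; omega
      · rw [WB_f i _ hs, WB_f i _ hs]
        by_cases h0 : j = 0
        · subst h0; rfl
        · rw [bB_big1 (2 * j) (by omega) (by omega), bB_big0 (2 * j + 2) (by omega) (by omega)]
          rfl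
    · refine hitmid (k' := Sum.inr 1) (i := i) (J := 2 * j + 1) hrev α β (by omega) ?_ ?_ ?_ ?_
      · rw [VB]; congr 1; unfold vB; simp; omega
      · rw [VB]; congr 1; unfold vB; simp; omega
      · rw [VB]; congr 1; unfold vB; simp; omega
      · rw [WB_f i _ hs, WB_f i _ hs]
        by_cases h0 : j = 0
        · subst h0; rfl
        · rw [bB_big1 (2 * j + 1) (by omega) (by omega),
            bB_big0 (2 * j + 1 + 2) (by omega) (by omega)]
          rfl
  · cases d
    · refine hitmid (k' := Sum.inr 2) (i := i) (J := 2 * j) hrev α β (by omega) ?_ ?_ ?_ ?_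
      · rw [VC]; congr 1; simp only [Bool.false_eq_true, if_false]; unfold vC; split_ifs <;> omega
      · rw [VC]; congr 1; simp only [Bool.false_eq_true, if_false]; unfold vC; split_ifs <;> omega
      · rw [VC]; congr 1; simp only [Bool.false_eq_true, if_false]; unfold vC; split_ifs <;> omega
      · rw [WC_f i _ hs, WC_f i _ hs, bC_one _ (by omega) (by omega),
          bC_zero _ (by omega) (by omega)]; rfl
    · refine hitmid (k' := Sum.inr 2) (i := i) (J := 2 * j + 1) hrev α β (by omega) ?_ ?_ ?_ ?_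
      · rw [VC]; congr 1; simp only [if_true]; unfold vC; split_ifs <;> omega
      · rw [VC]; congr 1; simp only [if_true]; unfold vC; split_ifs <;> omega
      · rw [VC]; congr 1; simp only [if_true]; unfold vC; split_ifs <;> omega
      · rw [WC_f i _ hs, WC_f i _ hs, bC_one _ (by omega) (by omega),
          bC_zero _ (by omega) (by omega)]; rfl

end cov

end Pool.Agent.Helper969.TB
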