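import Pool.Agent.Helper969.TB10

set_option autoImplicit false

namespace Pool.Agent.Helper969.TB

section cov2

variable {S K I : Type} {n : ℕ} {L : K → I → ℕ → S} {b1 b2 : K} {sg : S → S → Bool}

theorem tri_aba (hD : DataProp n L b1 b2) (hsg : ∀ a b, a ≠ b → sg b a = !(sg a b))
    (hn : n % 2 = 0) (hn4 : 4 ≤ n)
    (hrev : ∀ (k' : ({k : K // k ≠ b1} × Bool) ⊕ Fin 3) (i' : I × Bool),
      ∃ i'', ∀ J, J < 2 * n → LL n L b1 sg k' i'' J = LL n L b1 sg k' i' (2 * n - 1 - J))
    (a b : S) (hab : a ≠ b) (α β : Bool) :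
    ∃ k' i' J, J + 2 < 2 * n ∧ LL n L b1 sg k' i' J = (a, α) ∧
      LL n L b1 sg k' i' (J + 1) = (b, β) ∧ LL n L b1 sg k' i' (J + 2) = (a, !α) := by
  obtain ⟨i, j, hj, ha, hb⟩ := hD.adj1 a b hab
  cases hs : sgn n L sg b1 i
  · have := mid_prim hn hn4 hrev i hs j hj α β false
    simpa only [Bool.false_eq_true, if_false, ha, hb] using this
  · obtain ⟨i', hi'⟩ := hD.rev1 i
    have hs' : sgn n L sg b1 i' = false := by
      rw [sgn_rev (sg := sg) hsg hD.inj hn4 hi', hs]; rfl
    have := mid_prim hn hn4 hrev i' hs' (n - 2 - j) (by omega) α β true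
    have e1 : L b1 i' (n - 2 - j) = b := by
      rw [hi' _ (by omega), ← hb]; congr 1; omega
    have e2 : L b1 i' (n - 2 - j + 1) = a := by
      rw [hi' _ (by omega), ← ha]; congr 1; omega
    simpa only [if_true, e1, e2] using this

theorem tri_dist (hD : DataProp n L b1 b2) (hsg : ∀ a b, a ≠ b → sg b a = !(sg a b))
    (hn : n % 2 = 0) (hn4 : 4 ≤ n)
    (hrev : ∀ (k' : ({k : K // k ≠ b1} × Bool) ⊕ Fin 3) (i' : I × Bool),
      ∃ i'', ∀ J, J < 2 * n → LL n L b1 sg k' i'' J = LL n L b1 sg k' i' (2 * n - 1 - J))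
    (a b c : S) (hab : a ≠ b) (hbc : b ≠ c) (hac : a ≠ c) (α β γ : Bool) :
    ∃ k' i' J, J + 2 < 2 * n ∧ LL n L b1 sg k' i' J = (a, α) ∧
      LL n L b1 sg k' i' (J + 1) = (b, β) ∧ LL n L b1 sg k' i' (J + 2) = (c, γ) := by
  obtain ⟨k, i, j, hj, h0, h1, h2⟩ := hD.tri a b c hab hbc hac
  by_cases hk : k = b1
  · subst hk
    obtain ⟨i', hi'⟩ := hD.rev1 i
    have hss := sgn_rev (sg := sg) hsg hD.inj hn4 hi'
    cases hs : sgn n L sg k i
    · rw [hs] at hss
      have := tri_prim hn hn4 i i' hi' hs hss j hj α β γ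
      rwa [h0, h1, h2] at this
    · rw [hs] at hss
      apply cov_rev hrev
      have hi'' : ∀ j, j < n → L k i j = L k i' (n - 1 - j) := by
        intro j hj
        rw [hi' _ (by omega)]; congr 1; omega
      have := tri_prim hn hn4 i' i hi'' hss hs (n - 3 - j) (by omega) γ β α
      have e0 : L k i' (n - 3 - j) = c := by
        rw [hi' _ (by omega), ← h2]; congr 1; omega
      have e1 : L k i' (n - 3 - j + 1) = b := by
        rw [hi' _ (by omega), ← h1]; congr 1; omega
      have e2 : L k i' (n - 3 - j + 2) = a := by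
        rw [hi' _ (by omega), ← h0]; congr 1; omega
      rwa [e0, e1, e2] at this
  · obtain ⟨k'', i', hk'', hi'⟩ := hD.rev k i hk
    have hss := sgn_rev (sg := sg) hsg hD.inj hn4 hi'
    obtain ⟨t, ⟨hp, hq⟩ | ⟨hp, hq⟩⟩ := ed_cover (sgn n L sg k i) (xor α β) (xor β γ) j
    · refine hit3 (k' := Sum.inl (⟨k, hk⟩, t)) (i := i) (J := j) (by omega) ?_ ?_ ?_ ?_ ?_
      · rw [VF_lo k hk t i _ (by omega), h0]
      · rw [VF_lo k hk t i _ (by omega), h1]
      · rw [VF_lo k hk t i _ (by omega), h2]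
      · rw [WF_lo k hk t i _ (by omega), WF_lo k hk t i _ (by omega), XX_succ, hp]
      · rw [WF_lo k hk t i _ (by omega), WF_lo k hk t i _ (by omega)]
        have := XX_succ (sgn n L sg k i) t (j + 1)
        rw [hq] at this
        exact this
    · refine hit3 (k' := Sum.inl (⟨k'', hk''⟩, t)) (i := i') (J := n + j) (by omega) ?_ ?_ ?_ ?_ ?_
      · rw [VF_hi k'' hk'' t i', hi' _ (by omega), ← h0]; congr 1; omega
      · rw [Nat.add_assoc, VF_hi k'' hk'' t i', hi' _ (by omega), ← h1]; congr 1; omega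
      · rw [Nat.add_assoc, VF_hi k'' hk'' t i', hi' _ (by omega), ← h2]; congr 1; omega
      · rw [Nat.add_assoc, WF_hi, WF_hi, hss]
        have h3 := XX_succ (!(sgn n L sg k i)) t (n - 1 - (j + 1))
        have e3 : n - 1 - (j + 1) + 1 = n - 1 - j := by omega
        rw [e3, ed_parity _ _ _ j (by omega), hp] at h3
        rw [← h3]
        generalize XX (!(sgn n L sg k i)) t (n - 1 - j) = x
        generalize XX (!(sgn n L sg k i)) t (n - 1 - (j + 1)) = y
        cases x <;> cases y <;> rfl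
      · rw [Nat.add_assoc, Nat.add_assoc, WF_hi, WF_hi, hss]
        have h3 := XX_succ (!(sgn n L sg k i)) t (n - 1 - (j + 2))
        have e3 : n - 1 - (j + 2) + 1 = n - 1 - (j + 1) := by omega
        rw [e3, ed_parity _ _ _ (j + 1) (by omega), hq] at h3
        rw [← h3]
        generalize XX (!(sgn n L sg k i)) t (n - 1 - (j + 1)) = x
        generalize XX (!(sgn n L sg k i)) t (n - 1 - (j + 2)) = y
        cases x <;> cases y <;> rfl

theorem bool_ne {x y : Bool} (h : x ≠ y) : x = !y := by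
  cases x <;> cases y
  · exact absurd rfl h
  · rfl
  · rfl
  · exact absurd rfl h

theorem tri_all (hD : DataProp n L b1 b2) (hsg : ∀ a b, a ≠ b → sg b a = !(sg a b))
    (hn : n % 2 = 0) (hn4 : 4 ≤ n)
    (hrev : ∀ (k' : ({k : K // k ≠ b1} × Bool) ⊕ Fin 3) (i' : I × Bool),
      ∃ i'', ∀ J, J < 2 * n → LL n L b1 sg k' i'' J = LL n L b1 sg k' i' (2 * n - 1 - J))
    (x y z : S × Bool) (hxy : x ≠ y) (hyz : y ≠ z) (hxz : x ≠ z) :
    ∃ k' i' J, J + 2 < 2 * n ∧ LL n L b1 sg k' i' J = x ∧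
      LL n L b1 sg k' i' (J + 1) = y ∧ LL n L b1 sg k' i' (J + 2) = z := by
  obtain ⟨a, α⟩ := x
  obtain ⟨b, β⟩ := y
  obtain ⟨c, γ⟩ := z
  by_cases hab : a = b
  · subst hab
    have hβ : α = !β := bool_ne fun h => hxy (by rw [h])
    by_cases hbc : a = c
    · subst hbc
      have h1 : β = !γ := bool_ne fun h => hyz (by rw [h])
      have h2 : α = !γ := bool_ne fun h => hxz (by rw [h])
      exact absurd (by rw [h1, h2]) hxy
    · subst hβ
      apply cov_rev hrev
      exact tri_last hD hn hn4 c a (Ne.symm hbc) γ β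
  · by_cases hbc : b = c
    · subst hbc
      have hγ : γ = !β := bool_ne fun h => hyz (by rw [h])
      subst hγ
      exact tri_last hD hn hn4 a b hab α β
    · by_cases hac : a = c
      · subst hac
        have hγ : γ = !α := bool_ne fun h => hxz (by rw [h])
        subst hγ
        exact tri_aba hD hsg hn hn4 hrev a b hab α β
      · exact tri_dist hD hsg hn hn4 hrev a b c hab hbc hac α β γ

theorem last_all (hD : DataProp n L b1 b2) (hsg : ∀ a b, a ≠ b → sg b a = !(sg a b))
    (hn : n % 2 = 0) (hn4 : 4 ≤ n) (x y : S × Bool) (hxy : x ≠ y) :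
    ∃ k' i', LL n L b1 sg k' i' (2 * n - 2) = x ∧ LL n L b1 sg k' i' (2 * n - 1) = y := by
  obtain ⟨a, α⟩ := x
  obtain ⟨b, β⟩ := y
  have e1 : 2 * n - 2 + 1 = 2 * n - 1 := by omega
  have e2 : 2 * n - 2 = n + (n - 2) := by omega
  have e3 : n + (n - 2) + 1 = n + (n - 1) := by omega
  by_cases hab : a = b
  · subst hab
    have hβ : β = !α := bool_ne fun h => hxy (by rw [h])
    subst hβ
    obtain ⟨i, hi⟩ := hD.col b1 (n - 1) a (by omega)
    have : ∃ i', LL n L b1 sg (Sum.inr 2) i' (2 * n - 2) = (a, α) ∧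
        LL n L b1 sg (Sum.inr 2) i' (2 * n - 2 + 1) = (a, !α) := by
      refine hit2 (i := i) ?_ ?_ ?_
      · rw [VC, ← hi]; congr 1; unfold vC; split_ifs <;> omega
      · rw [VC, ← hi]; congr 1; unfold vC; split_ifs <;> omega
      · have hx : xor α (!α) = true := by cases α <;> rfl
        rw [hx, e1]
        cases hs : sgn n L sg b1 i
        · rw [WC_f i _ hs, WC_f i _ hs, bC_last hn4, bC_zero _ (by omega) (by omega)]; rfl
        · rw [WC_t i _ hs, WC_t i _ hs]
          have f1 : 2 * n - 1 - (2 * n - 1) = 0 := by omega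
          have f2 : 2 * n - 1 - (2 * n - 2) = 1 := by omega
          rw [f1, f2, bC_one 1 (by omega) (by omega), bC_z]; rfl
    rw [e1] at this
    exact ⟨_, this⟩
  · obtain ⟨k, i, ha, hb⟩ := hD.last a b hab
    by_cases hk : k = b1
    · subst hk
      obtain ⟨i', hi'⟩ := hD.rev1 i
      have hss := sgn_rev (sg := sg) hsg hD.inj hn4 hi'
      have hA : ∀ p, sgn n L sg k i = !p → xor α β = p →
          ∃ k' i', LL n L k sg k' i' (2 * n - 2) = (a, α) ∧
            LL n L k sg k' i' (2 * n - 1) = (b, β) := by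
        intro p hs hp
        refine ⟨Sum.inr 0, ?_⟩
        rw [← e1, e2]
        refine hit2 (i := i') ?_ ?_ ?_
        · rw [VA_hi, hi' _ (by omega), ← ha]; congr 1; omega
        · rw [e3, VA_hi, hi' _ (by omega), ← hb]; congr 1; omega
        · rw [e3, WA_hi, WA_hi, hss, hs, Bool.not_not, hp]
          have f1 : n - 1 - (n - 2) = 1 := by omega
          have f2 : n - 1 - (n - 1) = 0 := by omega
          rw [f1, f2, XA_even p 0 rfl]
          cases p
          · rfl
          · rw [XA_odd 1 rfl (by omega)]; rfl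
      have hB : ∀ p, sgn n L sg k i = p → xor α β = p →
          ∃ k' i', LL n L k sg k' i' (2 * n - 2) = (a, α) ∧
            LL n L k sg k' i' (2 * n - 1) = (b, β) := by
        intro p hs hp
        refine ⟨Sum.inr 1, ?_⟩
        rw [← e1]
        refine hit2 (i := i) ?_ ?_ ?_
        · rw [VB, ← ha]; congr 1; unfold vB; omega
        · rw [VB, ← hb]; congr 1; unfold vB; omega
        · rw [e1, hp]
          cases p
          · rw [WB_f i _ hs, WB_f i _ hs, bB_big0 _ (by omega) (by omega),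
              bB_big0 _ (by omega) (by omega)]; rfl
          · rw [WB_t i _ hs, WB_t i _ hs]
            have f1 : 2 * n - 1 - (2 * n - 1) = 0 := by omega
            have f2 : 2 * n - 1 - (2 * n - 2) = 1 := by omega
            rw [f1, f2]; rfl
      cases hs : sgn n L sg k i <;> cases hp : xor α β
      · exact hB false hs hp
      · exact hA true hs hp
      · exact hA false hs hp
      · exact hB true hs hp
    · obtain ⟨k'', i', hk'', hi'⟩ := hD.rev k i hk
      obtain ⟨t, ht⟩ := ed_solve (sgn n L sg k'' i') (xor α β) 0 rfl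
      refine ⟨Sum.inl (⟨k'', hk''⟩, t), ?_⟩
      rw [← e1, e2]
      refine hit2 (i := i') ?_ ?_ ?_
      · rw [VF_hi, hi' _ (by omega), ← ha]; congr 1; omega
      · rw [e3, VF_hi, hi' _ (by omega), ← hb]; congr 1; omega
      · rw [e3, WF_hi, WF_hi, ← ht]
        have h3 := XX_succ (sgn n L sg k'' i') t 0
        have f1 : n - 1 - (n - 2) = 1 := by omega
        have f2 : n - 1 - (n - 1) = 0 := by omega
        rw [f1, f2, ← h3]
        generalize XX (sgn n L sg k'' i') t 0 = x
        generalize XX (sgn n L sg k'' i') t 1 = y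
        cases x <;> cases y <;> rfl

theorem adj_all (hD : DataProp n L b1 b2) (hsg : ∀ a b, a ≠ b → sg b a = !(sg a b))
    (hn : n % 2 = 0) (hn4 : 4 ≤ n) (hb2 : b2 ≠ b1) (t : Bool) (x y : S × Bool) (hxy : x ≠ y) :
    ∃ i' J, J + 1 < 2 * n ∧ LL n L b1 sg (Sum.inl (⟨b2, hb2⟩, t)) i' J = x ∧
      LL n L b1 sg (Sum.inl (⟨b2, hb2⟩, t)) i' (J + 1) = y := by
  obtain ⟨a, α⟩ := x
  obtain ⟨b, β⟩ := y
  by_cases hab : a = b
  · subst hab
    have hβ : β = !α := bool_ne fun h => hxy (by rw [h])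
    subst hβ
    obtain ⟨i, hi⟩ := hD.col b2 (n - 1) a (by omega)
    have e1 : n - 1 + 1 = n + 0 := by omega
    have : ∃ i', LL n L b1 sg (Sum.inl (⟨b2, hb2⟩, t)) i' (n - 1) = (a, α) ∧
        LL n L b1 sg (Sum.inl (⟨b2, hb2⟩, t)) i' (n - 1 + 1) = (a, !α) := by
      refine hit2 (i := i) ?_ ?_ ?_
      · rw [VF_lo _ _ _ _ _ (by omega), hi]
      · rw [e1, VF_hi, Nat.sub_zero, hi]
      · rw [e1, WF_hi, WF_lo _ _ _ _ _ (by omega), Nat.sub_zero]
        generalize XX (sgn n L sg b2 i) t (n - 1) = x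
        cases x <;> cases α <;> rfl
    obtain ⟨i', hi'⟩ := this
    exact ⟨i', n - 1, by omega, hi'⟩
  · obtain ⟨i, j, hj, ha, hb⟩ := hD.adj2 a b hab
    obtain ⟨i', hi'⟩ := hD.rev2 i
    have hss := sgn_rev (sg := sg) hsg hD.inj hn4 hi'
    by_cases hp : ed (sgn n L sg b2 i) t j = xor α β
    · have : ∃ i', LL n L b1 sg (Sum.inl (⟨b2, hb2⟩, t)) i' j = (a, α) ∧
          LL n L b1 sg (Sum.inl (⟨b2, hb2⟩, t)) i' (j + 1) = (b, β) := by
        refine hit2 (i := i) ?_ ?_ ?_
        · rw [VF_lo _ _ _ _ _ (by omega), ha]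
        · rw [VF_lo _ _ _ _ _ (by omega), hb]
        · rw [WF_lo _ _ _ _ _ (by omega), WF_lo _ _ _ _ _ (by omega), XX_succ, hp]
      obtain ⟨i', hi'⟩ := this
      exact ⟨i', j, by omega, hi'⟩
    · have : ∃ i', LL n L b1 sg (Sum.inl (⟨b2, hb2⟩, t)) i' (n + j) = (a, α) ∧
          LL n L b1 sg (Sum.inl (⟨b2, hb2⟩, t)) i' (n + j + 1) = (b, β) := by
        refine hit2 (i := i') ?_ ?_ ?_
        · rw [VF_hi, hi' _ (by omega), ← ha]; congr 1; omega
        · rw [Nat.add_assoc, VF_hi, hi' _ (by omega), ← hb]; congr 1; omega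
        · rw [Nat.add_assoc, WF_hi, WF_hi, hss]
          have h3 := XX_succ (!(sgn n L sg b2 i)) t (n - 1 - (j + 1))
          have e3 : n - 1 - (j + 1) + 1 = n - 1 - j := by omega
          rw [e3, ed_parity _ _ _ j (by omega), ed_not] at h3
          revert h3 hp
          generalize XX (!(sgn n L sg b2 i)) t (n - 1 - j) = x
          generalize XX (!(sgn n L sg b2 i)) t (n - 1 - (j + 1)) = y
          generalize ed (sgn n L sg b2 i) t j = z
          cases x <;> cases y <;> cases z <;> cases α <;> cases β <;> simp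
      obtain ⟨i', hi'⟩ := this
      exact ⟨i', n + j, by omega, hi'⟩

end cov2

theorem double (n : ℕ) (h : Data n) : Data (2 * n) := by
  classical
  obtain ⟨S, K, I, iS, iK, iI, L, b1, b2, hn, hn4, hS, hK, hI, hne, hD⟩ := h
  let e := Fintype.equivFin S
  obtain ⟨sg, hsg⟩ : ∃ sg : S → S → Bool, ∀ a b, a ≠ b → sg b a = !(sg a b) := by
    refine ⟨fun a b => decide (e a < e b), ?_⟩
    intro a b hab
    have h1 : e a ≠ e b := fun h => hab (e.injective h)
    simp only
    rw [← decide_not, decide_eq_decide, not_lt]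
    exact ⟨le_of_lt, fun h => lt_of_le_of_ne h h1.symm⟩
  have hrev := LL_rev (L := L) (b1 := b1) hsg hD.inj hn hn4 hD.rev1
  refine ⟨S × Bool, ({k : K // k ≠ b1} × Bool) ⊕ Fin 3, I × Bool, inferInstance, inferInstance,
    inferInstance, LL n L b1 sg, Sum.inl (⟨b2, hne.symm⟩, false), Sum.inl (⟨b2, hne.symm⟩, true),
    by omega, by omega, ?_, ?_, ?_, by simp, ?_⟩
  · rw [Fintype.card_prod, hS, Fintype.card_bool, Nat.mul_comm]
  · rw [Fintype.card_sum, Fintype.card_prod, Fintype.card_bool, Fintype.card_fin]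
    have h1 : Fintype.card {k : K // k ≠ b1} = Fintype.card K - 1 := by
      rw [Fintype.card_subtype_compl, Fintype.card_subtype_eq]
    rw [h1]
    omega
  · rw [Fintype.card_prod, hI, Fintype.card_bool, Nat.mul_comm]
  · exact
      { inj := LL_inj hD.inj hn hn4
        col := fun k' J s hJ => LL_col hD.col hn hn4 k' J s hJ
        tri := tri_all hD hsg hn hn4 hrev
        last := last_all hD hsg hn hn4
        rev := by
          intro k' i' hk'
          obtain ⟨i'', hi''⟩ := hrev k' i'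
          exact ⟨k', i'', hk', hi''⟩
        rev1 := fun i' => hrev _ i'
        rev2 := fun i' => hrev _ i'
        adj1 := adj_all hD hsg hn hn4 hne.symm false
        adj2 := adj_all hD hsg hn hn4 hne.symm true }

end Pool.Agent.Helper969.TB
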