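import Pool.Agent.Helper969.TB11

set_option autoImplicit false

namespace Pool.Agent.Helper969.TB

def vR (J : ℕ) : ℕ := if J < 2 then 0 else 2 * ((J - 2) / 4) + 1 + J % 2

def bR (J : ℕ) : Bool :=
  if J < 2 then decide (J = 1) else decide (((J - 2) / 4 + 1 + ((J - 2) / 2) % 2) % 2 = 1)

theorem vR_lt (m J : ℕ) (hm : m % 2 = 1) (hJ : J < 2 * m) : vR J < m := by
  unfold vR; split_ifs <;> omega

theorem R_inj (J J' : ℕ) (h : vR J = vR J') (hb : bR J = bR J') : J = J' := by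
  unfold vR at h
  unfold bR at hb
  by_cases h1 : J < 2 <;> by_cases h2 : J' < 2
  · simp only [h1, h2, if_true, decide_eq_decide] at h hb
    omega
  · simp only [h1, h2, if_true, if_false] at h
    omega
  · simp only [h1, h2, if_true, if_false] at h
    omega
  · simp only [h1, h2, if_false, decide_eq_decide] at h hb
    omega

theorem bR_one (J : ℕ) (h : 2 ≤ J)
    (h' : ((J - 2) / 4 + 1 + ((J - 2) / 2) % 2) % 2 = 1) : bR J = true := by
  have : ¬ J < 2 := by omega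
  simp [bR, this, h']

theorem bR_eq (J J' : ℕ) (h : 2 ≤ J) (h' : 2 ≤ J')
    (hh : ((J - 2) / 4 + 1 + ((J - 2) / 2) % 2) % 2 = ((J' - 2) / 4 + 1 + ((J' - 2) / 2) % 2) % 2) :
    bR J = bR J' := by
  have h1 : ¬ J < 2 := by omega
  have h2 : ¬ J' < 2 := by omega
  simp only [bR, h1, h2, if_false, hh]

theorem bR_ne (J J' : ℕ) (h : 2 ≤ J) (h' : 2 ≤ J')
    (hh : ((J - 2) / 4 + 1 + ((J - 2) / 2) % 2) % 2 ≠ ((J' - 2) / 4 + 1 + ((J' - 2) / 2) % 2) % 2) :
    bR J' = !(bR J) := by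
  have h1 : ¬ J < 2 := by omega
  have h2 : ¬ J' < 2 := by omega
  simp only [bR, h1, h2, if_false]
  rw [← decide_not, decide_eq_decide]
  omega

section base

variable {G Q : Type} [AddCommGroup G]

open Classical in
noncomputable def BV (m : ℕ) (P : Q → ℕ → G) (q0 : Q) (k : (Q × Bool × Bool) ⊕ Unit) (J : ℕ) : G :=
  match k with
  | Sum.inl (q, s, t) => if q = q0 ∧ s = false ∧ t = false then P q0 (vR J) else
      if t then P q (fold m J) else P q (m - 1 - fold m J)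
  | Sum.inr _ => P q0 (vR (2 * m - 1 - J))

open Classical in
noncomputable def BW (m : ℕ) (q0 : Q) (k : (Q × Bool × Bool) ⊕ Unit) (J : ℕ) : Bool :=
  match k with
  | Sum.inl (q, s, t) => if q = q0 ∧ s = false ∧ t = false then bR J else
      foldb m (XX s t) J
  | Sum.inr _ => bR (2 * m - 1 - J)

noncomputable def BL (m : ℕ) (P : Q → ℕ → G) (q0 : Q) (k : (Q × Bool × Bool) ⊕ Unit)
    (i : G × Bool) (J : ℕ) : G × Bool :=
  (BV m P q0 k J + i.1, xor (BW m q0 k J) i.2)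

variable {m : ℕ} {P : Q → ℕ → G} {q0 : Q}

theorem BV_exc (J : ℕ) : BV m P q0 (Sum.inl (q0, false, false)) J = P q0 (vR J) := by
  simp [BV]

theorem BW_exc (J : ℕ) : BW m q0 (Sum.inl (q0, false, false)) J = bR J := by
  simp [BW]

theorem BV_inr (J : ℕ) : BV m P q0 (Sum.inr ()) J = P q0 (vR (2 * m - 1 - J)) := rfl

theorem BW_inr (J : ℕ) : BW m q0 (Sum.inr ()) J = bR (2 * m - 1 - J) := rfl

theorem BV_t (q : Q) (s : Bool) (J : ℕ) :
    BV m P q0 (Sum.inl (q, s, true)) J = P q (fold m J) := by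
  simp [BV]

theorem BW_t (q : Q) (s : Bool) (J : ℕ) :
    BW m q0 (Sum.inl (q, s, true)) J = foldb m (XX s true) J := by
  simp [BW]

theorem BV_f (q : Q) (s : Bool) (J : ℕ) (h : ¬ (q = q0 ∧ s = false)) :
    BV m P q0 (Sum.inl (q, s, false)) J = P q (m - 1 - fold m J) := by
  have h' : ¬ (q = q0 ∧ s = false ∧ (false : Bool) = false) := fun hh => h ⟨hh.1, hh.2.1⟩
  simp only [BV, if_neg h', Bool.false_eq_true, if_false]

theorem BW_f (q : Q) (s : Bool) (J : ℕ) (h : ¬ (q = q0 ∧ s = false)) :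
    BW m q0 (Sum.inl (q, s, false)) J = foldb m (XX s false) J := by
  have h' : ¬ (q = q0 ∧ s = false ∧ (false : Bool) = false) := fun hh => h ⟨hh.1, hh.2.1⟩
  simp only [BW, if_neg h']

theorem bhit3 {k : (Q × Bool × Bool) ⊕ Unit} {g : G} {J : ℕ} {a b c : G}
    {α β γ : Bool} (hJ : J + 2 < 2 * m) (h0 : BV m P q0 k J + g = a)
    (h1 : BV m P q0 k (J + 1) + g = b) (h2 : BV m P q0 k (J + 2) + g = c)
    (hp : xor (BW m q0 k J) (BW m q0 k (J + 1)) = xor α β)
    (hq : xor (BW m q0 k (J + 1)) (BW m q0 k (J + 2)) = xor β γ) :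
    ∃ k i J, J + 2 < 2 * m ∧ BL m P q0 k i J = (a, α) ∧
      BL m P q0 k i (J + 1) = (b, β) ∧ BL m P q0 k i (J + 2) = (c, γ) := by
  refine ⟨k, (g, xor α (BW m q0 k J)), J, hJ, ?_, ?_, ?_⟩
  · simp only [BL, h0, Prod.mk.injEq, true_and]
    generalize BW m q0 k J = x0
    cases x0 <;> cases α <;> rfl
  · simp only [BL, h1, Prod.mk.injEq, true_and]
    revert hp
    generalize BW m q0 k J = x0
    generalize BW m q0 k (J + 1) = x1
    cases x0 <;> cases x1 <;> cases α <;> cases β <;> simp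
  · simp only [BL, h2, Prod.mk.injEq, true_and]
    revert hp hq
    generalize BW m q0 k J = x0
    generalize BW m q0 k (J + 1) = x1
    generalize BW m q0 k (J + 2) = x2
    cases x0 <;> cases x1 <;> cases x2 <;> cases α <;> cases β <;> cases γ <;> simp

theorem bhit2 {k : (Q × Bool × Bool) ⊕ Unit} {g : G} {J : ℕ} {a b : G}
    {α β : Bool} (h0 : BV m P q0 k J + g = a) (h1 : BV m P q0 k (J + 1) + g = b)
    (hp : xor (BW m q0 k J) (BW m q0 k (J + 1)) = xor α β) :
    ∃ i, BL m P q0 k i J = (a, α) ∧ BL m P q0 k i (J + 1) = (b, β) := by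
  refine ⟨(g, xor α (BW m q0 k J)), ?_, ?_⟩
  · simp only [BL, h0, Prod.mk.injEq, true_and]
    generalize BW m q0 k J = x0
    cases x0 <;> cases α <;> rfl
  · simp only [BL, h1, Prod.mk.injEq, true_and]
    revert hp
    generalize BW m q0 k J = x0
    generalize BW m q0 k (J + 1) = x1
    cases x0 <;> cases x1 <;> cases α <;> cases β <;> simp

theorem BL_col (k : (Q × Bool × Bool) ⊕ Unit) (J : ℕ) (x : G × Bool) :
    ∃ i, BL m P q0 k i J = x := by
  refine ⟨(x.1 - BV m P q0 k J, xor (BW m q0 k J) x.2), ?_⟩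
  simp [BL]

theorem BL_inj (hP : ∀ k a b, a < m → b < m → P k a = P k b → a = b) (hm : m % 2 = 1)
    (k : (Q × Bool × Bool) ⊕ Unit) (i : G × Bool) (a b : ℕ) (ha : a < 2 * m)
    (hb : b < 2 * m) (h : BL m P q0 k i a = BL m P q0 k i b) : a = b := by
  obtain ⟨g, e⟩ := i
  simp only [BL, Prod.mk.injEq, add_left_inj] at h
  obtain ⟨h1, h2⟩ := h
  have h2 : BW m q0 k a = BW m q0 k b := by
    revert h2
    generalize BW m q0 k a = x
    generalize BW m q0 k b = y
    cases x <;> cases y <;> cases e <;> simp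
  rcases k with ⟨q, s, t⟩ | ⟨⟩
  · cases t
    · by_cases hex : q = q0 ∧ s = false
      · obtain ⟨rfl, rfl⟩ := hex
        rw [BV_exc, BV_exc] at h1
        rw [BW_exc, BW_exc] at h2
        exact R_inj a b (hP _ _ _ (vR_lt m a hm ha) (vR_lt m b hm hb) h1) h2
      · rw [BV_f q s _ hex, BV_f q s _ hex] at h1
        rw [BW_f q s _ hex, BW_f q s _ hex] at h2
        have fa := fold_lt m a ha
        have fb := fold_lt m b hb
        have := hP _ _ _ (by omega) (by omega) h1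
        exact fold_inj m _ a b ha hb (by omega) h2
    · rw [BV_t, BV_t] at h1
      rw [BW_t, BW_t] at h2
      exact fold_inj m _ a b ha hb (hP _ _ _ (fold_lt m a ha) (fold_lt m b hb) h1) h2
  · rw [BV_inr, BV_inr] at h1
    rw [BW_inr, BW_inr] at h2
    have := R_inj _ _ (hP _ _ _ (vR_lt m _ hm (by omega)) (vR_lt m _ hm (by omega)) h1) h2
    omega

theorem BL_rev_t (q : Q) (s : Bool) (i : G × Bool) :
    ∃ i', ∀ J, J < 2 * m → BL m P q0 (Sum.inl (q, s, true)) i' J =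
      BL m P q0 (Sum.inl (q, s, true)) i (2 * m - 1 - J) := by
  obtain ⟨g, e⟩ := i
  refine ⟨(g, !e), fun J hJ => ?_⟩
  simp only [BL, BV_t, BW_t, fold_rev m J hJ, foldb_rev m J _ hJ, Prod.mk.injEq, true_and]
  generalize foldb m (XX s true) J = x
  cases x <;> cases e <;> rfl

theorem BL_rev (k : (Q × Bool × Bool) ⊕ Unit) (i : G × Bool)
    (hk : k ≠ Sum.inl (q0, false, true)) :
    ∃ k' i', k' ≠ Sum.inl (q0, false, true) ∧ ∀ J, J < 2 * m → BL m P q0 k' i' J =
      BL m P q0 k i (2 * m - 1 - J) := by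
  obtain ⟨g, e⟩ := i
  rcases k with ⟨q, s, t⟩ | ⟨⟩
  · cases t
    · by_cases hex : q = q0 ∧ s = false
      · obtain ⟨rfl, rfl⟩ := hex
        refine ⟨Sum.inr (), (g, e), by simp, fun J hJ => ?_⟩
        simp only [BL, BV_exc, BW_exc, BV_inr, BW_inr]
      · refine ⟨Sum.inl (q, s, false), (g, !e), by simp, fun J hJ => ?_⟩
        simp only [BL, BV_f q s _ hex, BW_f q s _ hex, fold_rev m J hJ, foldb_rev m J _ hJ,
          Prod.mk.injEq, true_and]
        generalize foldb m (XX s false) J = x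
        cases x <;> cases e <;> rfl
    · obtain ⟨i', hi'⟩ := BL_rev_t (m := m) (P := P) (q0 := q0) q s (g, e)
      exact ⟨_, i', hk, hi'⟩
  · refine ⟨Sum.inl (q0, false, false), (g, e), by simp, fun J hJ => ?_⟩
    have e2 : 2 * m - 1 - (2 * m - 1 - J) = J := by omega
    simp only [BL, BV_exc, BW_exc]
    change _ = (P q0 (vR (2 * m - 1 - (2 * m - 1 - J))) + g,
      xor (bR (2 * m - 1 - (2 * m - 1 - J))) e)
    rw [e2]

theorem BL_rev_all (k : (Q × Bool × Bool) ⊕ Unit) (i : G × Bool) :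
    ∃ k' i', ∀ J, J < 2 * m → BL m P q0 k' i' J = BL m P q0 k i (2 * m - 1 - J) := by
  by_cases hk : k = Sum.inl (q0, false, true)
  · subst hk
    obtain ⟨i', hi'⟩ := BL_rev_t (m := m) (P := P) (q0 := q0) q0 false i
    exact ⟨_, i', hi'⟩
  · obtain ⟨k', i', -, h⟩ := BL_rev (m := m) (P := P) k i hk
    exact ⟨k', i', h⟩

theorem bcov_rev {x y z : G × Bool}
    (h : ∃ k i J, J + 2 < 2 * m ∧ BL m P q0 k i J = z ∧
      BL m P q0 k i (J + 1) = y ∧ BL m P q0 k i (J + 2) = x) :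
    ∃ k i J, J + 2 < 2 * m ∧ BL m P q0 k i J = x ∧
      BL m P q0 k i (J + 1) = y ∧ BL m P q0 k i (J + 2) = z := by
  obtain ⟨k, i, J, hJ, h0, h1, h2⟩ := h
  obtain ⟨k', i', hi'⟩ := BL_rev_all (m := m) (P := P) (q0 := q0) k i
  refine ⟨k', i', 2 * m - 3 - J, by omega, ?_, ?_, ?_⟩
  · rw [hi' _ (by omega), ← h2]; congr 1; omega
  · rw [hi' _ (by omega), ← h1]; congr 1; omega
  · rw [hi' _ (by omega), ← h0]; congr 1; omega

end base

end Pool.Agent.Helper969.TB
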