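import Pool.Agent.Helper969.TB12

set_option autoImplicit false

namespace Pool.Agent.Helper969.TB

section base2

variable {G Q : Type} [AddCommGroup G] {m : ℕ} {P : Q → ℕ → G} {q0 : Q}

theorem BVt_lo (q : Q) (s : Bool) (J : ℕ) (h : J < m) :
    BV m P q0 (Sum.inl (q, s, true)) J = P q J := by
  rw [BV_t, fold_lo m J h]

theorem BVt_hi (q : Q) (s : Bool) (j : ℕ) :
    BV m P q0 (Sum.inl (q, s, true)) (m + j) = P q (m - 1 - j) := by
  rw [BV_t, fold_hi]

theorem BWt_lo (q : Q) (s : Bool) (J : ℕ) (h : J < m) :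
    BW m q0 (Sum.inl (q, s, true)) J = XX s true J := by
  rw [BW_t, foldb_lo m J _ h]

theorem BWt_hi (q : Q) (s : Bool) (j : ℕ) :
    BW m q0 (Sum.inl (q, s, true)) (m + j) = !(XX s true (m - 1 - j)) := by
  rw [BW_t, foldb_hi]

theorem BVf_lo (q : Q) (s : Bool) (hx : ¬ (q = q0 ∧ s = false)) (J : ℕ) (h : J < m) :
    BV m P q0 (Sum.inl (q, s, false)) J = P q (m - 1 - J) := by
  rw [BV_f q s J hx, fold_lo m J h]

theorem BVf_hi (q : Q) (s : Bool) (hx : ¬ (q = q0 ∧ s = false)) (j : ℕ) :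
    BV m P q0 (Sum.inl (q, s, false)) (m + j) = P q (m - 1 - (m - 1 - j)) := by
  rw [BV_f q s _ hx, fold_hi]

theorem BWf_lo (q : Q) (s : Bool) (hx : ¬ (q = q0 ∧ s = false)) (J : ℕ) (h : J < m) :
    BW m q0 (Sum.inl (q, s, false)) J = XX s false J := by
  rw [BW_f q s J hx, foldb_lo m J _ h]

theorem BWf_hi (q : Q) (s : Bool) (hx : ¬ (q = q0 ∧ s = false)) (j : ℕ) :
    BW m q0 (Sum.inl (q, s, false)) (m + j) = !(XX s false (m - 1 - j)) := by
  rw [BW_f q s _ hx, foldb_hi]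

theorem xor_not_not (x y : Bool) : xor (!x) (!y) = xor x y := by cases x <;> cases y <;> rfl

theorem xor_com (x y : Bool) : xor x y = xor y x := by cases x <;> cases y <;> rfl

theorem XX_edge (s t : Bool) (j j' : ℕ) (h : j' = j + 1) : xor (XX s t j) (XX s t j') = ed s t j := by
  rw [h]; exact XX_succ s t j

theorem XX_edge' (s t : Bool) (j j' : ℕ) (h : j = j' + 1) :
    xor (XX s t j) (XX s t j') = ed s t j' := by
  rw [h, xor_com]; exact XX_succ s t j'

theorem ed_f (s : Bool) (j : ℕ) : ed s false j = s := by simp [ed]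

theorem ed_t_even (s : Bool) (j : ℕ) (h : j % 2 = 0) : ed s true j = !s := by simp [ed, h]

theorem ed_t_odd (s : Bool) (j : ℕ) (h : j % 2 = 1) : ed s true j = s := by simp [ed, h]

theorem bdist (hm : m % 2 = 1) (k : Q) (g : G) (j : ℕ) (hj : j + 2 < m) (α β γ : Bool) :
    ∃ k' i J, J + 2 < 2 * m ∧ BL m P q0 k' i J = (P k j + g, α) ∧
      BL m P q0 k' i (J + 1) = (P k (j + 1) + g, β) ∧
      BL m P q0 k' i (J + 2) = (P k (j + 2) + g, γ) := by
  by_cases hpq : xor β γ = xor α β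
  · by_cases hex : k = q0 ∧ xor α β = false
    · obtain ⟨rfl, hp⟩ := hex
      rw [hp] at hpq
      rcases Nat.mod_two_eq_zero_or_one j with h | h
      · refine bhit3 (k := Sum.inl (k, false, false)) (g := g) (J := 2 * j + 1) (by omega)
          ?_ ?_ ?_ ?_ ?_
        · rw [BV_exc]; congr 2; unfold vR; split_ifs <;> omega
        · rw [BV_exc]; congr 2; unfold vR; split_ifs <;> omega
        · rw [BV_exc]; congr 2; unfold vR; split_ifs <;> omega
        · rw [BW_exc, BW_exc, hp]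
          by_cases h0 : j = 0
          · subst h0; rfl
          · rw [bR_eq (2 * j + 1 + 1) (2 * j + 1) (by omega) (by omega) (by omega)]
            cases bR (2 * j + 1) <;> rfl
        · rw [BW_exc, BW_exc, hpq, bR_eq (2 * j + 1 + 2) (2 * j + 1 + 1) (by omega) (by omega)
            (by omega)]
          cases bR (2 * j + 1 + 1) <;> rfl
      · refine bhit3 (k := Sum.inl (k, false, false)) (g := g) (J := 2 * j + 2) (by omega)
          ?_ ?_ ?_ ?_ ?_
        · rw [BV_exc]; congr 2; unfold vR; split_ifs <;> omega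
        · rw [BV_exc]; congr 2; unfold vR; split_ifs <;> omega
        · rw [BV_exc]; congr 2; unfold vR; split_ifs <;> omega
        · rw [BW_exc, BW_exc, hp]
          rw [bR_eq (2 * j + 2 + 1) (2 * j + 2) (by omega) (by omega) (by omega)]
          cases bR (2 * j + 2) <;> rfl
        · rw [BW_exc, BW_exc, hpq, bR_eq (2 * j + 2 + 2) (2 * j + 2 + 1) (by omega) (by omega)
            (by omega)]
          cases bR (2 * j + 2 + 1) <;> rfl
    · refine bhit3 (k := Sum.inl (k, xor α β, false)) (g := g) (J := m + j) (by omega) ?_ ?_ ?_ ?_ ?_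
      · rw [BVf_hi _ _ hex]; congr 2; omega
      · rw [Nat.add_assoc, BVf_hi _ _ hex]; congr 2; omega
      · rw [Nat.add_assoc, BVf_hi _ _ hex]; congr 2; omega
      · rw [Nat.add_assoc, BWf_hi _ _ hex, BWf_hi _ _ hex, xor_not_not,
          XX_edge' _ _ _ _ (by omega), ed_f]
      · rw [Nat.add_assoc, Nat.add_assoc, BWf_hi _ _ hex, BWf_hi _ _ hex, xor_not_not,
          XX_edge' _ _ _ _ (by omega), ed_f, hpq]
  · have hq : xor β γ = !(xor α β) := bool_ne hpq
    obtain ⟨s, hs⟩ : ∃ s, ed s true j = xor α β := by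
      rcases Nat.mod_two_eq_zero_or_one j with h | h
      · exact ⟨!(xor α β), by rw [ed_t_even _ _ h, Bool.not_not]⟩
      · exact ⟨xor α β, by rw [ed_t_odd _ _ h]⟩
    refine bhit3 (k := Sum.inl (k, s, true)) (g := g) (J := j) (by omega) ?_ ?_ ?_ ?_ ?_
    · rw [BVt_lo _ _ _ (by omega)]
    · rw [BVt_lo _ _ _ (by omega)]
    · rw [BVt_lo _ _ _ (by omega)]
    · rw [BWt_lo _ _ _ (by omega), BWt_lo _ _ _ (by omega), XX_edge _ _ _ _ rfl, hs]
    · rw [BWt_lo _ _ _ (by omega), BWt_lo _ _ _ (by omega), XX_edge _ _ _ _ rfl, hq, ← hs]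
      rcases Nat.mod_two_eq_zero_or_one j with h | h
      · rw [ed_t_even _ _ h, ed_t_odd _ _ (by omega), Bool.not_not]
      · rw [ed_t_odd _ _ h, ed_t_even _ _ (by omega)]

/-- target `(a, b, b)` -/
theorem blast3 (hm : m % 2 = 1) (hm3 : 3 ≤ m) (hlast : ∀ a b : G, a ≠ b → ∃ k g,
    (P k (m - 2) + g = a ∧ P k (m - 1) + g = b) ∨ (P k 1 + g = a ∧ P k 0 + g = b))
    (a b : G) (hab : a ≠ b) (α β : Bool) :
    ∃ k i J, J + 2 < 2 * m ∧ BL m P q0 k i J = (a, α) ∧
      BL m P q0 k i (J + 1) = (b, β) ∧ BL m P q0 k i (J + 2) = (b, !β) := by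
  have e1 : m - 2 + 1 = m - 1 := by omega
  have e2 : m - 2 + 2 = m + 0 := by omega
  have q1 : xor β (!β) = true := by cases β <;> rfl
  obtain ⟨k, g, ⟨ha, hb⟩ | ⟨ha, hb⟩⟩ := hlast a b hab
  · refine bhit3 (k := Sum.inl (k, xor α β, true)) (g := g) (J := m - 2) (by omega) ?_ ?_ ?_ ?_ ?_
    · rw [BVt_lo _ _ _ (by omega), ha]
    · rw [BVt_lo _ _ _ (by omega), e1, hb]
    · rw [e2, BVt_hi, Nat.sub_zero, hb]
    · rw [BWt_lo _ _ _ (by omega), BWt_lo _ _ _ (by omega), XX_edge _ _ _ _ rfl,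
        ed_t_odd _ _ (by omega)]
    · rw [e2, BWt_lo _ _ _ (by omega), BWt_hi, Nat.sub_zero, e1, q1]
      cases XX (xor α β) true (m - 1) <;> rfl
  · by_cases hex : k = q0 ∧ xor α β = false
    · obtain ⟨rfl, hp⟩ := hex
      have f0 : 2 * m - 1 - (2 * m - 3) = 2 := by omega
      have f1 : 2 * m - 1 - (2 * m - 3 + 1) = 1 := by omega
      have f2 : 2 * m - 1 - (2 * m - 3 + 2) = 0 := by omega
      refine bhit3 (k := Sum.inr ()) (g := g) (J := 2 * m - 3) (by omega) ?_ ?_ ?_ ?_ ?_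
      · rw [BV_inr, f0]; exact ha
      · rw [BV_inr, f1]; exact hb
      · rw [BV_inr, f2]; exact hb
      · rw [BW_inr, BW_inr, f0, f1, hp]; rfl
      · rw [BW_inr, BW_inr, f1, f2, q1]; rfl
    · refine bhit3 (k := Sum.inl (k, xor α β, false)) (g := g) (J := m - 2) (by omega) ?_ ?_ ?_ ?_ ?_
      · rw [BVf_lo _ _ hex _ (by omega), ← ha]; congr 2; omega
      · rw [BVf_lo _ _ hex _ (by omega), ← hb]; congr 2; omega
      · rw [e2, BVf_hi _ _ hex, ← hb]; congr 2; omega
      · rw [BWf_lo _ _ hex _ (by omega), BWf_lo _ _ hex _ (by omega), XX_edge _ _ _ _ rfl, ed_f]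
      · rw [e2, BWf_lo _ _ hex _ (by omega), BWf_hi _ _ hex, Nat.sub_zero, e1, q1]
        cases XX (xor α β) false (m - 1) <;> rfl

theorem bmid_aux (k : (Q × Bool × Bool) ⊕ Unit) (g : G) (J : ℕ) {a b : G}
    (α β : Bool) (hJ : J + 2 < 2 * m) (h0 : BV m P q0 k J + g = a)
    (h1 : BV m P q0 k (J + 1) + g = b) (h2 : BV m P q0 k (J + 2) + g = a)
    (hpq : BW m q0 k (J + 2) = !(BW m q0 k J)) :
    ∃ k i J, J + 2 < 2 * m ∧ BL m P q0 k i J = (a, α) ∧
      BL m P q0 k i (J + 1) = (b, β) ∧ BL m P q0 k i (J + 2) = (a, !α) := by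
  by_cases hm : xor (BW m q0 k J) (BW m q0 k (J + 1)) = xor α β
  · refine bhit3 hJ h0 h1 h2 hm ?_
    revert hm
    rw [hpq]
    generalize BW m q0 k J = x0
    generalize BW m q0 k (J + 1) = x1
    cases x0 <;> cases x1 <;> cases α <;> cases β <;> simp
  · apply bcov_rev
    refine bhit3 hJ h0 h1 h2 ?_ ?_
    · revert hm
      generalize BW m q0 k J = x0
      generalize BW m q0 k (J + 1) = x1
      cases x0 <;> cases x1 <;> cases α <;> cases β <;> simp
    · revert hm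
      rw [hpq]
      generalize BW m q0 k J = x0
      generalize BW m q0 k (J + 1) = x1
      cases x0 <;> cases x1 <;> cases α <;> cases β <;> simp

/-- target `(a, b, a)` -/
theorem baba (hm : m % 2 = 1) (hpair : ∀ a b : G, a ≠ b → ∃ g j, j % 2 = 1 ∧ j + 1 < m ∧
    ((P q0 j + g = a ∧ P q0 (j + 1) + g = b) ∨ (P q0 j + g = b ∧ P q0 (j + 1) + g = a)))
    (a b : G) (hab : a ≠ b) (α β : Bool) :
    ∃ k i J, J + 2 < 2 * m ∧ BL m P q0 k i J = (a, α) ∧
      BL m P q0 k i (J + 1) = (b, β) ∧ BL m P q0 k i (J + 2) = (a, !α) := by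
  obtain ⟨g, j, hj1, hj2, ⟨ha, hb⟩ | ⟨hb, ha⟩⟩ := hpair a b hab
  · refine bmid_aux (Sum.inl (q0, false, false)) g (2 * j) α β (by omega) ?_ ?_ ?_ ?_
    · rw [BV_exc, ← ha]; congr 2; unfold vR; split_ifs <;> omega
    · rw [BV_exc, ← hb]; congr 2; unfold vR; split_ifs <;> omega
    · rw [BV_exc, ← ha]; congr 2; unfold vR; split_ifs <;> omega
    · rw [BW_exc, BW_exc]
      exact bR_ne _ _ (by omega) (by omega) (by omega)
  · refine bmid_aux (Sum.inl (q0, false, false)) g (2 * j + 1) α β (by omega) ?_ ?_ ?_ ?_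
    · rw [BV_exc, ← ha]; congr 2; unfold vR; split_ifs <;> omega
    · rw [BV_exc, ← hb]; congr 2; unfold vR; split_ifs <;> omega
    · rw [BV_exc, ← ha]; congr 2; unfold vR; split_ifs <;> omega
    · rw [BW_exc, BW_exc]
      exact bR_ne _ _ (by omega) (by omega) (by omega)

theorem btri (hm : m % 2 = 1) (hm3 : 3 ≤ m)
    (htri : ∀ a b c : G, a ≠ b → b ≠ c → a ≠ c → ∃ k g j, j + 2 < m ∧
      ((P k j + g = a ∧ P k (j + 1) + g = b ∧ P k (j + 2) + g = c) ∨
       (P k j + g = c ∧ P k (j + 1) + g = b ∧ P k (j + 2) + g = a)))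
    (hlast : ∀ a b : G, a ≠ b → ∃ k g,
      (P k (m - 2) + g = a ∧ P k (m - 1) + g = b) ∨ (P k 1 + g = a ∧ P k 0 + g = b))
    (hpair : ∀ a b : G, a ≠ b → ∃ g j, j % 2 = 1 ∧ j + 1 < m ∧
      ((P q0 j + g = a ∧ P q0 (j + 1) + g = b) ∨ (P q0 j + g = b ∧ P q0 (j + 1) + g = a)))
    (x y z : G × Bool) (hxy : x ≠ y) (hyz : y ≠ z) (hxz : x ≠ z) :
    ∃ k i J, J + 2 < 2 * m ∧ BL m P q0 k i J = x ∧
      BL m P q0 k i (J + 1) = y ∧ BL m P q0 k i (J + 2) = z := by
  obtain ⟨a, α⟩ := x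
  obtain ⟨b, β⟩ := y
  obtain ⟨c, γ⟩ := z
  by_cases hab : a = b
  · subst hab
    have hβ : α = !β := bool_ne fun h => hxy (by rw [h])
    by_cases hbc : a = c
    · subst hbc
      have h1 : β = !γ := bool_ne fun h => hyz (by rw [h])
      have h2 : α = !γ := bool_ne fun h => hxz (by rw [h])
      exact absurd (by rw [h1, h2]) hxy
    · subst hβ
      apply bcov_rev
      exact blast3 hm hm3 hlast c a (Ne.symm hbc) γ β
  · by_cases hbc : b = c
    · subst hbc
      have hγ : γ = !β := bool_ne fun h => hyz (by rw [h])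
      subst hγ
      exact blast3 hm hm3 hlast a b hab α β
    · by_cases hac : a = c
      · subst hac
        have hγ : γ = !α := bool_ne fun h => hxz (by rw [h])
        subst hγ
        exact baba hm hpair a b hab α β
      · obtain ⟨k, g, j, hj, ⟨h0, h1, h2⟩ | ⟨h0, h1, h2⟩⟩ := htri a b c hab hbc hac
        · rw [← h0, ← h1, ← h2]
          exact bdist hm k g j hj α β γ
        · apply bcov_rev
          rw [← h0, ← h1, ← h2]
          exact bdist hm k g j hj γ β α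

theorem blast (hm : m % 2 = 1) (hm3 : 3 ≤ m)
    (hlast : ∀ a b : G, a ≠ b → ∃ k g,
      (P k (m - 2) + g = a ∧ P k (m - 1) + g = b) ∨ (P k 1 + g = a ∧ P k 0 + g = b))
    (x y : G × Bool) (hxy : x ≠ y) :
    ∃ k i, BL m P q0 k i (2 * m - 2) = x ∧ BL m P q0 k i (2 * m - 1) = y := by
  obtain ⟨a, α⟩ := x
  obtain ⟨b, β⟩ := y
  have e1 : 2 * m - 2 + 1 = 2 * m - 1 := by omega
  have e2 : 2 * m - 2 = m + (m - 2) := by omega
  have e3 : m + (m - 2) + 1 = m + (m - 1) := by omega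
  by_cases hab : a = b
  · subst hab
    have hβ : β = !α := (bool_ne fun h => hxy (by rw [h]))
    subst hβ
    refine ⟨Sum.inr (), ?_⟩
    rw [← e1]
    refine bhit2 (g := a - P q0 0) ?_ ?_ ?_
    · rw [BV_inr]
      have : 2 * m - 1 - (2 * m - 2) = 1 := by omega
      rw [this]
      change P q0 0 + (a - P q0 0) = a
      abel
    · rw [BV_inr]
      have : 2 * m - 1 - (2 * m - 2 + 1) = 0 := by omega
      rw [this]
      change P q0 0 + (a - P q0 0) = a
      abel
    · rw [BW_inr, BW_inr]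
      have f1 : 2 * m - 1 - (2 * m - 2) = 1 := by omega
      have f2 : 2 * m - 1 - (2 * m - 2 + 1) = 0 := by omega
      rw [f1, f2]
      cases α <;> rfl
  · obtain ⟨k, g, ⟨ha, hb⟩ | ⟨ha, hb⟩⟩ := hlast a b hab
    · by_cases hex : k = q0 ∧ xor α β = false
      · obtain ⟨rfl, hp⟩ := hex
        refine ⟨Sum.inl (k, false, false), ?_⟩
        rw [← e1]
        refine bhit2 (g := g) ?_ ?_ ?_
        · rw [BV_exc, ← ha]; congr 2; unfold vR; split_ifs <;> omega
        · rw [BV_exc, ← hb]; congr 2; unfold vR; split_ifs <;> omega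
        · rw [BW_exc, BW_exc, hp, bR_eq (2 * m - 2 + 1) (2 * m - 2) (by omega) (by omega)
            (by omega)]
          cases bR (2 * m - 2) <;> rfl
      · refine ⟨Sum.inl (k, xor α β, false), ?_⟩
        rw [← e1, e2]
        refine bhit2 (g := g) ?_ ?_ ?_
        · rw [BVf_hi _ _ hex, ← ha]; congr 2; omega
        · rw [e3, BVf_hi _ _ hex, ← hb]; congr 2; omega
        · rw [e3, BWf_hi _ _ hex, BWf_hi _ _ hex, xor_not_not, XX_edge' _ _ _ _ (by omega), ed_f]
    · refine ⟨Sum.inl (k, !(xor α β), true), ?_⟩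
      rw [← e1, e2]
      refine bhit2 (g := g) ?_ ?_ ?_
      · rw [BVt_hi, ← ha]; congr 2; omega
      · rw [e3, BVt_hi, ← hb]; congr 2; omega
      · rw [e3, BWt_hi, BWt_hi, xor_not_not, XX_edge' _ _ _ _ (by omega),
          ed_t_even _ _ (by omega), Bool.not_not]

theorem badj (hm : m % 2 = 1) (hm3 : 3 ≤ m)
    (hpair : ∀ a b : G, a ≠ b → ∃ g j, j % 2 = 1 ∧ j + 1 < m ∧
      ((P q0 j + g = a ∧ P q0 (j + 1) + g = b) ∨ (P q0 j + g = b ∧ P q0 (j + 1) + g = a)))
    (hdiff : ∀ a b : G, a ≠ b → ∃ g j, j % 2 = 0 ∧ j + 1 < m ∧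
      ((P q0 j + g = a ∧ P q0 (j + 1) + g = b) ∨ (P q0 j + g = b ∧ P q0 (j + 1) + g = a)))
    (s : Bool) (x y : G × Bool) (hxy : x ≠ y) :
    ∃ i J, J + 1 < 2 * m ∧ BL m P q0 (Sum.inl (q0, s, true)) i J = x ∧
      BL m P q0 (Sum.inl (q0, s, true)) i (J + 1) = y := by
  obtain ⟨a, α⟩ := x
  obtain ⟨b, β⟩ := y
  by_cases hab : a = b
  · subst hab
    have hβ : β = !α := (bool_ne fun h => hxy (by rw [h]))
    subst hβ
    have e1 : m - 1 + 1 = m + 0 := by omega
    have : ∃ i, BL m P q0 (Sum.inl (q0, s, true)) i (m - 1) = (a, α) ∧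
        BL m P q0 (Sum.inl (q0, s, true)) i (m - 1 + 1) = (a, !α) := by
      refine bhit2 (g := a - P q0 (m - 1)) ?_ ?_ ?_
      · rw [BVt_lo _ _ _ (by omega)]; abel
      · rw [e1, BVt_hi, Nat.sub_zero]; abel
      · rw [e1, BWt_lo _ _ _ (by omega), BWt_hi, Nat.sub_zero]
        cases XX s true (m - 1) <;> cases α <;> rfl
    obtain ⟨i, hi⟩ := this
    exact ⟨i, m - 1, by omega, hi⟩
  · obtain ⟨g, j, hed, hj2, hj3⟩ : ∃ g j, ed s true j = xor α β ∧ j + 1 < m ∧
        ((P q0 j + g = a ∧ P q0 (j + 1) + g = b) ∨ (P q0 j + g = b ∧ P q0 (j + 1) + g = a)) := by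
      by_cases hs : s = xor α β
      · obtain ⟨g, j, h1, h2, h3⟩ := hpair a b hab
        exact ⟨g, j, by rw [ed_t_odd _ _ h1, hs], h2, h3⟩
      · obtain ⟨g, j, h1, h2, h3⟩ := hdiff a b hab
        have : s = !(xor α β) := bool_ne hs
        exact ⟨g, j, by rw [ed_t_even _ _ h1, this, Bool.not_not], h2, h3⟩
    rcases hj3 with ⟨ha, hb⟩ | ⟨hb, ha⟩
    · have : ∃ i, BL m P q0 (Sum.inl (q0, s, true)) i j = (a, α) ∧
          BL m P q0 (Sum.inl (q0, s, true)) i (j + 1) = (b, β) := by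
        refine bhit2 (g := g) ?_ ?_ ?_
        · rw [BVt_lo _ _ _ (by omega), ha]
        · rw [BVt_lo _ _ _ (by omega), hb]
        · rw [BWt_lo _ _ _ (by omega), BWt_lo _ _ _ (by omega), XX_edge _ _ _ _ rfl, hed]
      obtain ⟨i, hi⟩ := this
      exact ⟨i, j, by omega, hi⟩
    · have : ∃ i, BL m P q0 (Sum.inl (q0, s, true)) i (m + (m - 2 - j)) = (a, α) ∧
          BL m P q0 (Sum.inl (q0, s, true)) i (m + (m - 2 - j) + 1) = (b, β) := by
        refine bhit2 (g := g) ?_ ?_ ?_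
        · rw [BVt_hi, ← ha]; congr 2; omega
        · rw [Nat.add_assoc, BVt_hi, ← hb]; congr 2; omega
        · have f1 : m - 1 - (m - 2 - j) = j + 1 := by omega
          have f2 : m - 1 - (m - 2 - j + 1) = j := by omega
          rw [Nat.add_assoc, BWt_hi, BWt_hi, xor_not_not, f1, f2, XX_edge' _ _ _ _ rfl, hed]
      obtain ⟨i, hi⟩ := this
      exact ⟨i, _, by omega, hi⟩

end base2

theorem base_data (m : ℕ) (hm : m % 2 = 1) (hm3 : 3 ≤ m) : Data (2 * m) := by
  classical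
  obtain ⟨G, iG, iF, Q, iQ, P, q0, hG, hQ, hD⟩ := oddData_all m hm hm3
  have hinj := hD.inj
  have htri := hD.tri
  have hlast := hD.last
  have hpair := hD.pair
  have hdiff := hD.diff
  rw [hG] at hinj htri hlast hpair hdiff
  refine ⟨G × Bool, (Q × Bool × Bool) ⊕ Unit, G × Bool, inferInstance, inferInstance,
    inferInstance, BL m P q0, Sum.inl (q0, false, true), Sum.inl (q0, true, true),
    by omega, by omega, ?_, ?_, ?_, by simp, ?_⟩
  · rw [Fintype.card_prod, hG, Fintype.card_bool, Nat.mul_comm]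
  · rw [Fintype.card_sum, Fintype.card_prod, Fintype.card_prod, Fintype.card_bool,
      Fintype.card_unit]
    omega
  · rw [Fintype.card_prod, hG, Fintype.card_bool, Nat.mul_comm]
  · exact
      { inj := BL_inj hinj hm
        col := fun k J x _ => BL_col k J x
        tri := btri hm hm3 htri hlast hpair
        last := blast hm hm3 hlast
        rev := fun k i hk => BL_rev k i hk
        rev1 := fun i => BL_rev_t q0 false i
        rev2 := fun i => BL_rev_t q0 true i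
        adj1 := badj hm hm3 hpair hdiff false
        adj2 := badj hm hm3 hpair hdiff true }

end Pool.Agent.Helper969.TB
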