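import Pool.Agent.Helper969.TB1

set_option autoImplicit false

namespace Pool.Agent.Helper969.TB

open SymCyc

variable {G : Type} [AddCommGroup G] [Fintype G] {κ : G → G}

theorem mid_point (h : SymCyc κ) (hodd : Fintype.card G % 2 = 1) (h3 : 3 ≤ Fintype.card G) :
    ∃ x0, ∀ x, κ x = -x ↔ x = x0 := by
  refine ⟨κ^[(Fintype.card G - 1) / 2] 0, fun x => ⟨fun hx => ?_, fun hx => ?_⟩⟩
  · obtain ⟨m, hm, rfl⟩ := h.exists_lt x
    rw [← h.iter_neg m hm.le, ← Function.iterate_succ_apply' κ m] at hx
    rcases Nat.eq_zero_or_pos m with h0 | h0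
    · subst h0
      rw [Nat.sub_zero, h.iter_card] at hx
      have := h.iter_inj (a := 1) (b := 0) (by omega) (by omega) (by simpa using hx)
      omega
    · by_cases h1 : m + 1 = Fintype.card G
      · rw [Nat.succ_eq_add_one, h1, h.iter_card] at hx
        have := h.iter_inj (a := 0) (b := Fintype.card G - m) (by omega) (by omega)
          (by simpa using hx)
        omega
      · have := h.iter_inj (by omega) (by omega) hx
        congr 1
        omega
  · subst hx
    rw [← h.iter_neg _ (by omega), ← Function.iterate_succ_apply' κ]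
    congr 1
    omega

theorem first_point (h : SymCyc κ) (h3 : 3 ≤ Fintype.card G) :
    ∃ x1, x1 ≠ 0 ∧ ∀ x, κ x = 0 ↔ x = x1 := by
  refine ⟨-(κ 0), ?_, fun x => ⟨fun hx => ?_, fun hx => ?_⟩⟩
  · intro h0
    have h1 : κ^[1] 0 = κ^[0] 0 := by
      simpa using neg_eq_zero.1 h0
    have := h.iter_inj (a := 1) (b := 0) (by omega) (by omega) h1
    omega
  · apply h.inj
    rw [h.symm, hx, neg_zero]
  · rw [hx, h.symm, neg_zero]

theorem iter_congr (h : SymCyc κ) {a b : ℕ} (hab : a ≡ b [MOD Fintype.card G]) :
    κ^[a] 0 = κ^[b] 0 := by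
  have ha : κ^[a % Fintype.card G] 0 = κ^[a] 0 := by
    have := Function.iterate_mod_minimalPeriod_eq (f := κ) (x := (0 : G)) (n := a)
    rwa [h.period] at this
  have hb : κ^[b % Fintype.card G] 0 = κ^[b] 0 := by
    have := Function.iterate_mod_minimalPeriod_eq (f := κ) (x := (0 : G)) (n := b)
    rwa [h.period] at this
  rw [← ha, ← hb, hab]

theorem sum_cycle (h : SymCyc κ) {M : Type} [AddCommMonoid M] (f : G → M) :
    ∑ j ∈ Finset.range (Fintype.card G), f (κ^[j] 0) = ∑ x, f x := by
  apply Finset.sum_bij (fun j _ => κ^[j] (0 : G))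
  · intro a _; exact Finset.mem_univ _
  · intro a ha b hb hab
    exact h.iter_inj (Finset.mem_range.1 ha) (Finset.mem_range.1 hb) hab
  · intro x _
    obtain ⟨m, hm, hx⟩ := h.exists_lt x
    exact ⟨m, Finset.mem_range.2 hm, hx⟩
  · intro a _; rfl

section Blow

variable {p : ℕ} [Fact p.Prime]

theorem blow_iter (κ : G → G) (f : G → ZMod p) (m : ℕ) (i : G) (z : ZMod p) :
    (fun v : G × ZMod p => (κ v.1, v.2 + f v.1))^[m] (i, z) =
      (κ^[m] i, z + ∑ j ∈ Finset.range m, f (κ^[j] i)) := by
  induction m with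
  | zero => simp
  | succ m ih =>
    rw [Function.iterate_succ_apply', ih, Function.iterate_succ_apply', Finset.sum_range_succ]
    simp only [add_assoc]

theorem blow (h : SymCyc κ) (f : G → ZMod p) (hf : ∀ x, f (-(κ x)) = f x)
    (hF : ∑ x, f x ≠ 0) : SymCyc (fun v : G × ZMod p => (κ v.1, v.2 + f v.1)) := by
  constructor
  · rintro ⟨i, z⟩
    ext
    · simp [h.symm]
    · simp only [Prod.snd_neg, Prod.fst_neg, hf]
      ring
  · rintro ⟨x, w⟩
    obtain ⟨m, hm, hx⟩ := h.exists_lt x
    have key : ∀ k : ℕ, (fun v : G × ZMod p => (κ v.1, v.2 + f v.1))^[Fintype.card G * k] (0, 0) =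
        (0, (k : ZMod p) * ∑ x, f x) := by
      intro k
      induction k with
      | zero => simp
      | succ k ih =>
        rw [Nat.mul_succ, Nat.add_comm, Function.iterate_add_apply, ih, blow_iter, h.iter_card,
          sum_cycle h f]
        push_cast
        ring_nf
    refine ⟨m + Fintype.card G *
      ((w - ∑ j ∈ Finset.range m, f (κ^[j] 0)) * (∑ x, f x)⁻¹).val, ?_⟩
    have e0 : ((0 : G × ZMod p)) = (0, 0) := rfl
    rw [Function.iterate_add_apply, e0, key, blow_iter, hx, ZMod.natCast_val, ZMod.cast_id]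
    rw [mul_assoc, inv_mul_cancel₀ hF, mul_one]
    ext
    · rfl
    · simp

theorem blow_complete (hc : Function.Injective (fun x : G => x + κ x)) (h2 : (2 : ZMod p) ≠ 0)
    (f : G → ZMod p) :
    Function.Injective (fun v : G × ZMod p => v + (κ v.1, v.2 + f v.1)) := by
  rintro ⟨a, b⟩ ⟨c, d⟩ hh
  simp only [Prod.mk_add_mk, Prod.mk.injEq] at hh
  have h1 : a = c := hc hh.1
  subst h1
  have h3 : (2 : ZMod p) * b = 2 * d := by linear_combination hh.2
  have h4 : b = d := mul_left_cancel₀ h2 h3
  rw [h4]

theorem mix_iter (κ : G → G) (w : ZMod p → Prop) [DecidablePred w] (r : ZMod p) (m : ℕ) (i : G)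
    (z : ZMod p) :
    (fun v : G × ZMod p => ((if w v.2 then κ v.1 else v.1), v.2 + r))^[m] (i, z) =
      (κ^[∑ j ∈ Finset.range m, (if w (z + j * r) then 1 else 0)] i, z + m * r) := by
  induction m with
  | zero => simp
  | succ m ih =>
    rw [Function.iterate_succ_apply', ih, Finset.sum_range_succ]
    ext
    · simp only
      split_ifs with hw
      · rw [Function.iterate_succ_apply']
      · rw [add_zero]
    · push_cast
      ring

theorem mix (h : SymCyc κ) (w : ZMod p → Prop) [DecidablePred w] (r : ZMod p) (hr : r ≠ 0)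
    (hw : ∀ z, w (-(z + r)) ↔ w z)
    (hW : Nat.Coprime (Finset.univ.filter w).card (Fintype.card G)) :
    SymCyc (fun v : G × ZMod p => ((if w v.2 then κ v.1 else v.1), v.2 + r)) := by
  have hp : p.Prime := Fact.out
  constructor
  · rintro ⟨i, z⟩
    by_cases hz : w z
    · have hz' : w (-(z + r)) := (hw z).2 hz
      ext
      · simp [hz, h.symm]
        intro hn
        exact absurd (by simpa using hz') (by simpa using hn)
      · simp
    · have hz' : ¬ w (-(z + r)) := fun hh => hz ((hw z).1 hh)
      ext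
      · simp [hz]
        intro hn
        exact absurd (by simpa using hn) (by simpa using hz')
      · simp
  · rintro ⟨x, y⟩
    obtain ⟨m, hm, hx⟩ := h.exists_lt x
    have hcnt : ∀ z : ZMod p, ∑ j ∈ Finset.range p, (if w (z + j * r) then 1 else 0) =
        (Finset.univ.filter w).card := by
      intro z
      rw [Finset.card_filter]
      apply Finset.sum_bij (fun (j : ℕ) _ => z + (j : ZMod p) * r)
      · intro a _; exact Finset.mem_univ _
      · intro a ha b hb hab
        have h1 : (a : ZMod p) = b := mul_right_cancel₀ hr (add_left_cancel hab)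
        rw [ZMod.natCast_eq_natCast_iff] at h1
        exact Nat.ModEq.eq_of_lt_of_lt h1 (Finset.mem_range.1 ha) (Finset.mem_range.1 hb)
      · intro y _
        refine ⟨((y - z) * r⁻¹).val, Finset.mem_range.2 (ZMod.val_lt _), ?_⟩
        rw [ZMod.natCast_val, ZMod.cast_id, mul_assoc, inv_mul_cancel₀ hr]
        ring
      · intro a _; rfl
    have key : ∀ k : ℕ,
        (fun v : G × ZMod p => ((if w v.2 then κ v.1 else v.1), v.2 + r))^[p * k] (0, 0) =
        (κ^[(Finset.univ.filter w).card * k] 0, 0) := by
      intro k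
      induction k with
      | zero => simp
      | succ k ih =>
        rw [Nat.mul_succ, Nat.add_comm, Function.iterate_add_apply, ih, mix_iter, hcnt,
          ← Function.iterate_add_apply, Nat.mul_succ, Nat.add_comm]
        simp
    set W := (Finset.univ.filter w).card with hWdef
    set l := (y * r⁻¹).val with hl
    set c := ∑ j ∈ Finset.range l, (if w ((0 : ZMod p) + j * r) then 1 else 0) with hc
    have : NeZero (Fintype.card G) := ⟨(Fintype.card_pos_iff.2 ⟨0⟩).ne'⟩
    set k := (((m : ZMod (Fintype.card G)) - c) * (W : ZMod (Fintype.card G))⁻¹).val with hk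
    refine ⟨l + p * k, ?_⟩
    have e0 : ((0 : G × ZMod p)) = (0, 0) := rfl
    rw [Function.iterate_add_apply, e0, key, mix_iter, ← hc, ← Function.iterate_add_apply]
    ext
    · simp only
      rw [← hx]
      apply iter_congr h
      rw [← ZMod.natCast_eq_natCast_iff]
      push_cast
      rw [hk, ZMod.natCast_val, ZMod.cast_id]
      have hu : (W : ZMod (Fintype.card G)) * (W : ZMod (Fintype.card G))⁻¹ = 1 :=
        ZMod.coe_mul_inv_eq_one W hW
      linear_combination ((m : ZMod (Fintype.card G)) - c) * hu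
    · simp only
      rw [hl, ZMod.natCast_val, ZMod.cast_id, mul_assoc, inv_mul_cancel₀ hr]
      ring

end Blow

end Pool.Agent.Helper969.TB
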