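import Pool.Agent.Helper969.TB2

set_option autoImplicit false

namespace Pool.Agent.Helper969.TB

open SymCyc

section Fns

variable {G : Type} [AddCommGroup G] [Fintype G] {κ : G → G} {p : ℕ} [Fact p.Prime]

theorem sum_mid {x0 : G} (P : G → Prop) [DecidablePred P] (hP : ∀ x, P x ↔ x = x0)
    (u v : ZMod p) :
    ∑ x : G, (if P x then u else v) = u + ((Fintype.card G : ZMod p) - 1) * v := by
  classical
  have hpos : 1 ≤ Fintype.card G := Fintype.card_pos_iff.2 ⟨0⟩
  rw [Finset.sum_ite, Finset.sum_const, Finset.sum_const]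
  have e1 : Finset.univ.filter P = {x0} := by
    ext x; simp [hP]
  have e2 : (Finset.univ.filter (fun x => ¬ P x)).card = Fintype.card G - 1 := by
    have := Finset.card_filter_add_card_filter_not (s := (Finset.univ : Finset G)) P
    rw [e1] at this
    simp only [Finset.card_singleton, Finset.card_univ] at this
    omega
  rw [e2, e1]
  simp only [Finset.card_singleton, one_smul, nsmul_eq_mul]
  rw [Nat.cast_sub hpos, Nat.cast_one]

theorem sum_first {x0 x1 : G} (hne : x0 ≠ x1) (P : G → Prop) [DecidablePred P]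
    (hP : ∀ x, P x ↔ x = x0 ∨ x = x1) (u v : ZMod p) :
    ∑ x : G, (if P x then u else v) = 2 * u + ((Fintype.card G : ZMod p) - 2) * v := by
  classical
  rw [Finset.sum_ite, Finset.sum_const, Finset.sum_const]
  have e1 : Finset.univ.filter P = {x0, x1} := by
    ext x; simp [hP]
  have e3 : ({x0, x1} : Finset G).card = 2 := Finset.card_pair hne
  have hc : 2 ≤ Fintype.card G := by
    rw [← e3]; exact Finset.card_le_univ _
  have e2 : (Finset.univ.filter (fun x => ¬ P x)).card = Fintype.card G - 2 := by
    have := Finset.card_filter_add_card_filter_not (s := (Finset.univ : Finset G)) P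
    rw [e1, e3] at this
    simp only [Finset.card_univ] at this
    omega
  rw [e2, e1, e3]
  simp only [nsmul_eq_mul]
  rw [Nat.cast_sub hc]
  norm_num

/-- shifts for the blow up of a cycle -/
theorem exists_shift (h : SymCyc κ) (hodd : Fintype.card G % 2 = 1) (h3 : 3 ≤ Fintype.card G)
    (h2 : (2 : ZMod p) ≠ 0) :
    ∃ f : ZMod p → G → ZMod p, (∀ c x, f c (-(κ x)) = f c x) ∧ (∀ x w, ∃ c, f c x = w) ∧
      ∀ c, ∑ x, f c x ≠ 0 := by
  classical
  obtain ⟨x0, hx0⟩ := mid_point h hodd h3
  obtain ⟨x1, hx1, hx1'⟩ := first_point h h3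
  have hnegmid : ∀ x, κ (-(κ x)) = -(-(κ x)) ↔ κ x = -x := by
    intro x
    rw [h.symm, neg_neg]
    exact eq_comm
  by_cases hA : (Fintype.card G : ZMod p) - 1 = 0
  · refine ⟨fun c x => if x = 0 ∨ κ x = 0 then (1 + c) / 2 else c, ?_, ?_, ?_⟩
    · intro c x
      have e : (-(κ x) = 0 ∨ κ (-(κ x)) = 0) ↔ (x = 0 ∨ κ x = 0) := by
        rw [h.symm, neg_eq_zero, neg_eq_zero]
        exact or_comm
      simp only [e]
    · intro x w
      by_cases hx : x = 0 ∨ κ x = 0
      · refine ⟨2 * w - 1, ?_⟩
        simp only [hx, if_true]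
        field_simp
        ring
      · exact ⟨w, by simp only [hx, if_false]⟩
    · intro c
      rw [sum_first (x0 := 0) (x1 := x1) (Ne.symm hx1) (fun x => x = 0 ∨ κ x = 0)
        (fun x => by rw [hx1'])]
      have e : 2 * ((1 + c) / 2) = 1 + c := by field_simp
      rw [e]
      have e2 : 1 + c + ((Fintype.card G : ZMod p) - 2) * c = 1 := by
        linear_combination c * hA
      rw [e2]
      exact one_ne_zero
  · refine ⟨fun c x => if κ x = -x then 1 - ((Fintype.card G : ZMod p) - 1) * c else c,
      ?_, ?_, ?_⟩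
    · intro c x
      simp only [hnegmid]
    · intro x w
      by_cases hx : κ x = -x
      · refine ⟨(1 - w) * ((Fintype.card G : ZMod p) - 1)⁻¹, ?_⟩
        simp only [hx, if_true]
        field_simp
        ring
      · exact ⟨w, by simp only [hx, if_false]⟩
    · intro c
      rw [sum_mid (fun x => κ x = -x) hx0]
      have e2 : 1 - ((Fintype.card G : ZMod p) - 1) * c + ((Fintype.card G : ZMod p) - 1) * c = 1 := by
        ring
      rw [e2]
      exact one_ne_zero

theorem cast_ne (q : ℕ) (hq : 2 * q + 1 = p) (c : ℕ) (h0 : 0 < c) (h1 : c ≤ 2 * q) :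
    (c : ZMod p) ≠ 0 := by
  rw [Ne, ZMod.natCast_eq_zero_iff]
  intro hd
  have := Nat.le_of_dvd h0 hd
  omega

/-- shifts in `-{0,...,q}` for the remaining factors of the special cycle -/
theorem exists_shift' (h : SymCyc κ) (hodd : Fintype.card G % 2 = 1) (h3 : 3 ≤ Fintype.card G)
    (q : ℕ) (hq : 2 * q + 1 = p) (hq1 : 1 ≤ q) :
    ∃ f : Fin (q + 1) → G → ZMod p, (∀ c x, f c (-(κ x)) = f c x) ∧
      (∀ x (w : Fin (q + 1)), ∃ c, f c x = -((w : ℕ) : ZMod p)) ∧ ∀ c, ∑ x, f c x ≠ 0 := by
  classical
  obtain ⟨x0, hx0⟩ := mid_point h hodd h3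
  obtain ⟨x1, hx1, hx1'⟩ := first_point h h3
  have hnegmid : ∀ x, κ (-(κ x)) = -(-(κ x)) ↔ κ x = -x := by
    intro x
    rw [h.symm, neg_neg]
    exact eq_comm
  have hfirst : ∀ x, (-(κ x) = 0 ∨ κ (-(κ x)) = 0) ↔ (x = 0 ∨ κ x = 0) := by
    intro x
    rw [h.symm, neg_eq_zero, neg_eq_zero]
    exact or_comm
  -- generic construction with a permutation on the middle
  have mk_mid : ∀ σ : Equiv.Perm (Fin (q + 1)),
      (∀ c : Fin (q + 1), ((σ c : ℕ) : ZMod p) + ((Fintype.card G : ZMod p) - 1) * (c : ℕ) ≠ 0) →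
      ∃ f : Fin (q + 1) → G → ZMod p, (∀ c x, f c (-(κ x)) = f c x) ∧
      (∀ x (w : Fin (q + 1)), ∃ c, f c x = -((w : ℕ) : ZMod p)) ∧ ∀ c, ∑ x, f c x ≠ 0 := by
    intro σ hσ
    refine ⟨fun c x => if κ x = -x then -((σ c : ℕ) : ZMod p) else -((c : ℕ) : ZMod p),
      ?_, ?_, ?_⟩
    · intro c x
      simp only [hnegmid]
    · intro x w
      by_cases hx : κ x = -x
      · exact ⟨σ.symm w, by simp only [hx, if_true, Equiv.apply_symm_apply]⟩
      · exact ⟨w, by simp only [hx, if_false]⟩
    · intro c
      rw [sum_mid (fun x => κ x = -x) hx0]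
      intro h0
      apply hσ c
      linear_combination -h0
  by_cases hA : (Fintype.card G : ZMod p) = 0
  · apply mk_mid (finRotate (q + 1))
    intro c
    rw [hA]
    by_cases hc : c = Fin.last q
    · subst hc
      rw [finRotate_last]
      simp only [Fin.val_zero, Nat.cast_zero, Fin.val_last, zero_add, zero_sub, neg_mul, one_mul]
      rw [neg_ne_zero]
      exact cast_ne q hq q (by omega) (by omega)
    · have hlt : (c : ℕ) < q := by
        have := c.isLt
        have h' : (c : ℕ) ≠ q := fun hh => hc (Fin.ext hh)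
        omega
      have e : ((finRotate (q + 1) c : Fin (q + 1)) : ℕ) = c + 1 := coe_finRotate_of_ne_last hc
      rw [e]
      push_cast
      have e2 : (c : ℕ) + 1 + (0 - 1) * ((c : ℕ) : ZMod p) = 1 := by ring
      rw [e2]
      exact one_ne_zero
  · by_cases hA1 : (Fintype.card G : ZMod p) - 1 = 0
    · -- permutation on the first and last arcs
      refine ⟨fun c x => if x = 0 ∨ κ x = 0 then
          -(((Equiv.swap (0 : Fin (q + 1)) ⟨1, by omega⟩ c : Fin (q + 1)) : ℕ) : ZMod p)
          else -((c : ℕ) : ZMod p), ?_, ?_, ?_⟩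
      · intro c x
        simp only [hfirst]
      · intro x w
        by_cases hx : x = 0 ∨ κ x = 0
        · exact ⟨Equiv.swap (0 : Fin (q + 1)) ⟨1, by omega⟩ w, by
            simp only [hx, if_true, Equiv.swap_apply_self]⟩
        · exact ⟨w, by simp only [hx, if_false]⟩
      · intro c
        rw [sum_first (x0 := 0) (x1 := x1) (Ne.symm hx1) (fun x => x = 0 ∨ κ x = 0)
          (fun x => by rw [hx1'])]
        have hA2 : (Fintype.card G : ZMod p) - 2 = -1 := by linear_combination hA1
        rw [hA2]
        by_cases hc0 : c = 0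
        · subst hc0
          rw [Equiv.swap_apply_left]
          simp only [Nat.cast_one, Fin.val_zero, Nat.cast_zero]
          have := cast_ne q hq 2 (by omega) (by omega)
          intro h0
          apply this
          push_cast
          linear_combination -h0
        · by_cases hc1 : c = ⟨1, by omega⟩
          · subst hc1
            rw [Equiv.swap_apply_right]
            simp only [Nat.cast_one, Fin.val_zero, Nat.cast_zero]
            intro h0
            apply one_ne_zero (α := ZMod p)
            linear_combination h0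
          · rw [Equiv.swap_apply_of_ne_of_ne hc0 hc1]
            have hcl : 0 < (c : ℕ) := Nat.pos_of_ne_zero (fun hh => hc0 (Fin.ext hh))
            have := cast_ne q hq c hcl (by have := c.isLt; omega)
            intro h0
            apply this
            linear_combination -h0
    · apply mk_mid (Equiv.swap (0 : Fin (q + 1)) ⟨1, by omega⟩)
      intro c
      by_cases hc0 : c = 0
      · subst hc0
        rw [Equiv.swap_apply_left]
        simp
      · by_cases hc1 : c = ⟨1, by omega⟩
        · subst hc1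
          rw [Equiv.swap_apply_right]
          simpa using hA1
        · rw [Equiv.swap_apply_of_ne_of_ne hc0 hc1]
          have hcl : 0 < (c : ℕ) := Nat.pos_of_ne_zero (fun hh => hc0 (Fin.ext hh))
          have := cast_ne q hq c hcl (by have := c.isLt; omega)
          have e : ((c : ℕ) : ZMod p) + ((Fintype.card G : ZMod p) - 1) * (c : ℕ) =
            (Fintype.card G : ZMod p) * (c : ℕ) := by ring
          rw [e]
          exact mul_ne_zero hA this

end Fns

/-- There is an abelian group of order `N` with a decomposition of a Cayley tournament into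
symmetric Hamiltonian cycles, one of them being complete. -/
def SHD (N : ℕ) : Prop :=
  ∃ (G : Type) (_ : AddCommGroup G) (_ : Fintype G) (Q : Type) (_ : Fintype Q)
    (R : G → Prop) (κ : Q → G → G) (q0 : Q),
    Fintype.card G = N ∧ 2 * Fintype.card Q + 1 = N ∧
    (∀ d, d ≠ 0 → R d ∨ R (-d)) ∧
    (∀ x d, R d → ∃ k, κ k x = x + d) ∧
    (∀ k, SymCyc (κ k)) ∧
    Function.Injective (fun x => x + κ q0 x) ∧
    (∀ x : G, ∃ y, y + y = x)

theorem shd_prime (p : ℕ) (hp : p.Prime) (hp2 : p ≠ 2) : SHD p := by
  haveI : Fact p.Prime := ⟨hp⟩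
  obtain ⟨q, hq⟩ : ∃ q, 2 * q + 1 = p := by
    have := hp.eq_two_or_odd
    exact ⟨p / 2, by omega⟩
  have hq1 : 1 ≤ q := by
    have := hp.two_le
    omega
  have h2 : (2 : ZMod p) ≠ 0 := by
    have := cast_ne q hq 2 (by omega) (by omega)
    simpa using this
  refine ⟨ZMod p, inferInstance, inferInstance, Fin q, inferInstance,
    fun d => ∃ k : Fin q, d = ((k : ℕ) : ZMod p) + 1,
    fun k x => x + (((k : ℕ) : ZMod p) + 1), ⟨0, by omega⟩, ZMod.card p, ?_, ?_, ?_, ?_, ?_, ?_⟩
  · simpa using hq
  · intro d hd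
    have hv : d.val < p := ZMod.val_lt d
    have hv0 : d.val ≠ 0 := by
      intro h0
      exact hd ((ZMod.val_eq_zero d).1 h0)
    by_cases hle : d.val ≤ q
    · left
      refine ⟨⟨d.val - 1, by omega⟩, ?_⟩
      have e : (((d.val - 1 : ℕ) : ZMod p)) = (d.val : ZMod p) - 1 := by
        rw [Nat.cast_sub (by omega)]; simp
      simp only [e]
      rw [ZMod.natCast_val, ZMod.cast_id]
      ring
    · right
      refine ⟨⟨p - d.val - 1, by omega⟩, ?_⟩
      have e : (((p - d.val - 1 : ℕ) : ZMod p)) = (p : ZMod p) - (d.val : ZMod p) - 1 := by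
        rw [Nat.cast_sub (by omega), Nat.cast_sub (by omega)]; simp
      simp only [e]
      rw [ZMod.natCast_val, ZMod.cast_id, ZMod.natCast_self]
      ring
  · rintro x d ⟨k, rfl⟩
    exact ⟨k, rfl⟩
  · intro k
    have hr : ((k : ℕ) : ZMod p) + 1 ≠ 0 := by
      have := cast_ne q hq (k + 1) (by omega) (by have := k.isLt; omega)
      simpa using this
    constructor
    · intro x; ring
    · intro x
      have key : ∀ m : ℕ, (fun x => x + (((k : ℕ) : ZMod p) + 1))^[m] 0 =
          m * (((k : ℕ) : ZMod p) + 1) := by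
        intro m
        induction m with
        | zero => simp
        | succ m ih => rw [Function.iterate_succ_apply', ih]; push_cast; ring
      refine ⟨(x * (((k : ℕ) : ZMod p) + 1)⁻¹).val, ?_⟩
      rw [key, ZMod.natCast_val, ZMod.cast_id, mul_assoc, inv_mul_cancel₀ hr, mul_one]
  · intro a b hab
    have hab' : a + (a + (((0 : ℕ) : ZMod p) + 1)) = b + (b + (((0 : ℕ) : ZMod p) + 1)) := hab
    have h3 : (2 : ZMod p) * a = 2 * b := by linear_combination hab'
    exact mul_left_cancel₀ h2 h3
  · intro x
    refine ⟨x * 2⁻¹, ?_⟩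
    field_simp
    ring

end Pool.Agent.Helper969.TB
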