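import Pool.Agent.Helper969.TB3

set_option autoImplicit false

namespace Pool.Agent.Helper969.TB

open SymCyc

theorem val_cases {p : ℕ} [Fact p.Prime] (q : ℕ) (hq : 2 * q + 1 = p) (w : ZMod p) :
    (∃ k : Fin q, w = ((k : ℕ) : ZMod p) + 1) ∨ (∃ c : Fin (q + 1), w = -((c : ℕ) : ZMod p)) := by
  have hv : w.val < p := ZMod.val_lt w
  by_cases h0 : w.val = 0
  · right
    refine ⟨0, ?_⟩
    rw [(ZMod.val_eq_zero w).1 h0]
    simp
  · by_cases hle : w.val ≤ q
    · left
      refine ⟨⟨w.val - 1, by omega⟩, ?_⟩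
      have e : (((w.val - 1 : ℕ) : ZMod p)) = (w.val : ZMod p) - 1 := by
        rw [Nat.cast_sub (by omega)]; simp
      simp only [e]
      rw [ZMod.natCast_val, ZMod.cast_id]
      ring
    · right
      refine ⟨⟨p - w.val, by omega⟩, ?_⟩
      have e : (((p - w.val : ℕ) : ZMod p)) = (p : ZMod p) - (w.val : ZMod p) := by
        rw [Nat.cast_sub (by omega)]
      simp only [e]
      rw [ZMod.natCast_val, ZMod.cast_id, ZMod.natCast_self]
      ring

theorem shd_step (A p : ℕ) (hp : p.Prime) (hp2 : p ≠ 2) (hA : A % 2 = 1) (hA3 : 3 ≤ A)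
    (hcop : Nat.Coprime (p - 1) A) (h : SHD A) : SHD (A * p) := by
  classical
  haveI : Fact p.Prime := ⟨hp⟩
  obtain ⟨q, hq⟩ : ∃ q, 2 * q + 1 = p := by
    have := hp.eq_two_or_odd
    exact ⟨p / 2, by omega⟩
  have hq1 : 1 ≤ q := by
    have := hp.two_le
    omega
  have h2 : (2 : ZMod p) ≠ 0 := by
    have := cast_ne q hq 2 (by omega) (by omega)
    simpa using this
  obtain ⟨G, iG, iF, Q, iQ, R, κ, q0, hG, hQ, hR, hcov, hcyc, hcomp, hhalf⟩ := h
  subst hG
  -- shifts
  have hs : ∀ k, ∃ f : ZMod p → G → ZMod p, (∀ c x, f c (-(κ k x)) = f c x) ∧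
      (∀ x w, ∃ c, f c x = w) ∧ ∀ c, ∑ x, f c x ≠ 0 :=
    fun k => exists_shift (hcyc k) hA hA3 h2
  choose f hf1 hf2 hf3 using hs
  obtain ⟨g, hg1, hg2, hg3⟩ := exists_shift' (hcyc q0) hA hA3 q hq hq1
  -- the special exit value
  let ex : Fin q → ZMod p := fun k => -((((k : ℕ) : ZMod p) + 1) / 2)
  have hr : ∀ k : Fin q, ((k : ℕ) : ZMod p) + 1 ≠ 0 := by
    intro k
    have := cast_ne q hq (k + 1) (by omega) (by have := k.isLt; omega)
    simpa using this
  have hex : ∀ (k : Fin q) (z : ZMod p), -(z + (((k : ℕ) : ZMod p) + 1)) = ex k ↔ z = ex k := by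
    intro k z
    have hhalf2 : ((((k : ℕ) : ZMod p) + 1) / 2) + ((((k : ℕ) : ZMod p) + 1) / 2) =
        ((k : ℕ) : ZMod p) + 1 := by field_simp; ring
    constructor
    · intro hh
      simp only [ex] at hh ⊢
      linear_combination -hh + hhalf2
    · intro hh
      simp only [ex] at hh ⊢
      rw [hh]
      linear_combination hhalf2
  have hY : ∀ k : Fin q, SymCyc (fun v : G × ZMod p =>
      ((if v.2 = ex k then κ q0 v.1 else v.1), v.2 + (((k : ℕ) : ZMod p) + 1))) := by
    intro k
    apply mix (hcyc q0) (fun z => z = ex k) _ (hr k) (hex k)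
    have : (Finset.univ.filter (fun z : ZMod p => z = ex k)).card = 1 := by
      rw [Finset.filter_eq']
      simp
    rw [this]
    exact Nat.coprime_one_left _
  have hX : ∀ k : Fin q, SymCyc (fun v : G × ZMod p =>
      ((if v.2 ≠ ex k then κ q0 v.1 else v.1), v.2 + (((k : ℕ) : ZMod p) + 1))) := by
    intro k
    apply mix (hcyc q0) (fun z => z ≠ ex k) _ (hr k) (fun z => not_congr (hex k z))
    have : (Finset.univ.filter (fun z : ZMod p => z ≠ ex k)).card = p - 1 := by
      rw [Finset.filter_ne']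
      rw [Finset.card_erase_of_mem (Finset.mem_univ _), Finset.card_univ, ZMod.card]
    rw [this]
    exact hcop
  refine ⟨G × ZMod p, inferInstance, inferInstance,
    ({k : Q // k ≠ q0} × ZMod p) ⊕ ((Fin q × Bool) ⊕ Fin (q + 1)), inferInstance,
    fun d => R d.1 ∨ (d.1 = 0 ∧ ∃ k : Fin q, d.2 = ((k : ℕ) : ZMod p) + 1),
    fun k v => match k with
      | Sum.inl (k, c) => (κ k.1 v.1, v.2 + f k.1 c v.1)
      | Sum.inr (Sum.inl (k, false)) =>
          ((if v.2 = ex k then κ q0 v.1 else v.1), v.2 + (((k : ℕ) : ZMod p) + 1))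
      | Sum.inr (Sum.inl (k, true)) =>
          ((if v.2 ≠ ex k then κ q0 v.1 else v.1), v.2 + (((k : ℕ) : ZMod p) + 1))
      | Sum.inr (Sum.inr c) => (κ q0 v.1, v.2 + g c v.1),
    Sum.inr (Sum.inr 0), ?_, ?_, ?_, ?_, ?_, ?_, ?_⟩
  · rw [Fintype.card_prod, ZMod.card]
  · have e1 : Fintype.card {k : Q // k ≠ q0} = Fintype.card Q - 1 := by
      rw [Fintype.card_subtype_compl, Fintype.card_subtype_eq]
    rw [Fintype.card_sum, Fintype.card_sum, Fintype.card_prod, Fintype.card_prod, e1, ZMod.card,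
      Fintype.card_fin, Fintype.card_fin, Fintype.card_bool]
    have hQ1 : 1 ≤ Fintype.card Q := by omega
    obtain ⟨t, ht⟩ : ∃ t, Fintype.card Q = t + 1 := ⟨Fintype.card Q - 1, by omega⟩
    rw [ht] at hQ ⊢
    rw [← hQ, ← hq]
    simp only [Nat.add_sub_cancel]
    ring
  · rintro ⟨d, w⟩ hd
    by_cases h0 : d = 0
    · subst h0
      have hw : w ≠ 0 := by
        intro hh
        exact hd (by rw [hh]; rfl)
      rcases val_cases q hq w with ⟨k, hk⟩ | ⟨c, hc⟩
      · exact Or.inl (Or.inr ⟨rfl, k, hk⟩)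
      · right
        right
        refine ⟨by simp, ?_⟩
        have hc0 : (c : ℕ) ≠ 0 := by
          intro hh
          apply hw
          rw [hc, hh]
          simp
        refine ⟨⟨c - 1, by have := c.isLt; omega⟩, ?_⟩
        simp only [Prod.snd_neg, hc, neg_neg]
        rw [Nat.cast_sub (by omega)]
        simp
    · rcases hR d h0 with h1 | h1
      · exact Or.inl (Or.inl h1)
      · exact Or.inr (Or.inl (by simpa using h1))
  · rintro ⟨x, z⟩ ⟨d, w⟩ hd
    simp only [Prod.mk_add_mk] at hd ⊢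
    rcases hd with hd | ⟨hd0, k, hk⟩
    · obtain ⟨a, ha⟩ := hcov x d hd
      by_cases ha0 : a = q0
      · subst ha0
        rcases val_cases q hq w with ⟨k, hk⟩ | ⟨c, hc⟩
        · by_cases hz : z = ex k
          · refine ⟨Sum.inr (Sum.inl (k, false)), ?_⟩
            simp only [hz, if_true, ha, hk]
          · refine ⟨Sum.inr (Sum.inl (k, true)), ?_⟩
            simp only [ne_eq, hz, not_false_eq_true, if_true, ha, hk]
        · obtain ⟨c', hc'⟩ := hg2 x c
          refine ⟨Sum.inr (Sum.inr c'), ?_⟩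
          simp only [ha, hc', hc]
      · obtain ⟨c, hc⟩ := hf2 a x w
        refine ⟨Sum.inl (⟨a, ha0⟩, c), ?_⟩
        simp only [ha, hc]
    · subst hd0
      by_cases hz : z = ex k
      · refine ⟨Sum.inr (Sum.inl (k, true)), ?_⟩
        simp only [ne_eq, hz, not_true_eq_false, if_false, hk, add_zero]
      · refine ⟨Sum.inr (Sum.inl (k, false)), ?_⟩
        simp only [hz, if_false, hk, add_zero]
  · rintro (⟨k, c⟩ | ⟨k, b⟩ | c)
    · exact blow (hcyc k.1) (f k.1 c) (hf1 k.1 c) (hf3 k.1 c)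
    · cases b
      · exact hY k
      · exact hX k
    · exact blow (hcyc q0) (g c) (hg1 c) (hg3 c)
  · exact blow_complete hcomp h2 (g 0)
  · rintro ⟨x, z⟩
    obtain ⟨y, hy⟩ := hhalf x
    refine ⟨(y, z / 2), ?_⟩
    ext
    · exact hy
    · simp only [Prod.mk_add_mk]
      field_simp
      ring

theorem shd_all (N : ℕ) (hodd : N % 2 = 1) (h3 : 3 ≤ N) : SHD N := by
  induction N using Nat.strong_induction_on with
  | _ N ih =>
    have hN1 : N ≠ 1 := by omega
    have hpp : N.minFac.Prime := Nat.minFac_prime hN1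
    have hp2 : N.minFac ≠ 2 := by
      intro h
      have := Nat.minFac_dvd N
      rw [h] at this
      omega
    by_cases hprime : N.Prime
    · exact shd_prime N hprime (by rintro rfl; omega)
    · obtain ⟨A, hA⟩ := Nat.minFac_dvd N
      have hA' : N = A * N.minFac := by rw [Nat.mul_comm]; exact hA
      have hpge : 3 ≤ N.minFac := by
        have := hpp.two_le
        omega
      have hAodd : A % 2 = 1 := by
        rcases Nat.mod_two_eq_zero_or_one A with h0 | h0
        · exfalso
          have : N % 2 = 0 := by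
            rw [hA', Nat.mul_mod, h0]; simp
          omega
        · exact h0
      have hA1 : A ≠ 1 := by
        rintro rfl
        rw [Nat.one_mul] at hA'
        exact hprime (hA'.symm ▸ hpp)
      have hA3 : 3 ≤ A := by omega
      have hlt : A < N := by
        rw [hA']
        calc A = A * 1 := (Nat.mul_one A).symm
          _ < A * N.minFac := Nat.mul_lt_mul_of_pos_left (by omega) (by omega)
      have hcop : Nat.Coprime (N.minFac - 1) A := by
        rw [Nat.coprime_iff_gcd_eq_one]
        by_contra hg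
        obtain ⟨r, hr, hrd⟩ := Nat.exists_prime_and_dvd hg
        have h1 : r ∣ N.minFac - 1 := hrd.trans (Nat.gcd_dvd_left _ _)
        have h2 : r ∣ A := hrd.trans (Nat.gcd_dvd_right _ _)
        have h3 : r ∣ N := by rw [hA']; exact h2.mul_right _
        have h4 : N.minFac ≤ r := Nat.minFac_le_of_dvd hr.two_le h3
        have h5 : r ≤ N.minFac - 1 := Nat.le_of_dvd (by omega) h1
        omega
      have := shd_step A N.minFac hpp hp2 hAodd hA3 hcop (ih A hlt hAodd hA3)
      rwa [← hA'] at this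

end Pool.Agent.Helper969.TB
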