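import Pool.Agent.Helper969.TB4

set_option autoImplicit false

namespace Pool.Agent.Helper969.TB

open SymCyc

/-- The zigzag along a symmetric Hamiltonian cycle: `0, y₁, -y₁, y₂, -y₂, …`. -/
def zig {G : Type} [AddCommGroup G] [Fintype G] (κ : G → G) (j : ℕ) : G :=
  if j % 2 = 1 then κ^[(j + 1) / 2] 0 else κ^[Fintype.card G - j / 2] 0

section
variable {G : Type} [AddCommGroup G] [Fintype G] {κ : G → G}

theorem zig_odd (j : ℕ) (hj : j % 2 = 1) : zig κ j = κ^[(j + 1) / 2] 0 := by
  simp [zig, hj]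

theorem zig_even (j : ℕ) (hj : j % 2 = 0) : zig κ j = κ^[Fintype.card G - j / 2] 0 := by
  simp [zig, hj]

theorem zig_inj (h : SymCyc κ) (hodd : Fintype.card G % 2 = 1) {a b : ℕ}
    (ha : a < Fintype.card G) (hb : b < Fintype.card G) (hab : zig κ a = zig κ b) : a = b := by
  have aux : ∀ j, j < Fintype.card G →
      zig κ j = κ^[if j % 2 = 1 then (j + 1) / 2 else (if j = 0 then 0 else Fintype.card G - j / 2)] 0 ∧
      (if j % 2 = 1 then (j + 1) / 2 else (if j = 0 then 0 else Fintype.card G - j / 2)) <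
        Fintype.card G := by
    intro j hj
    split_ifs with h1 h2
    · exact ⟨zig_odd j h1, by omega⟩
    · subst h2
      refine ⟨?_, by omega⟩
      rw [zig_even 0 rfl, Nat.zero_div, Nat.sub_zero, h.iter_card]
      rfl
    · exact ⟨zig_even j (by omega), by omega⟩
  obtain ⟨ea, la⟩ := aux a ha
  obtain ⟨eb, lb⟩ := aux b hb
  rw [ea, eb] at hab
  have := h.iter_inj la lb hab
  split_ifs at this <;> omega

theorem neg_iter (h : SymCyc κ) (j : ℕ) (hj : j ≤ Fintype.card G) :
    -(κ^[j] 0) = κ^[Fintype.card G - j] 0 := (h.iter_neg j hj).symm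

/-- the arc `-x → y` gives the consecutive entries `-x, x, y` of the zigzag, up to reversal -/
theorem zig_arc (h : SymCyc κ) (hodd : Fintype.card G % 2 = 1) (x y : G) (hx : x ≠ 0)
    (hxy : x ≠ y) (hy : κ (-x) = y) :
    ∃ j, j + 2 < Fintype.card G ∧
      ((zig κ j = -x ∧ zig κ (j + 1) = x ∧ zig κ (j + 2) = y) ∨
       (zig κ j = y ∧ zig κ (j + 1) = x ∧ zig κ (j + 2) = -x)) := by
  obtain ⟨k, hk, hkx⟩ := h.exists_lt (-x)
  have hk0 : k ≠ 0 := by
    rintro rfl
    apply hx
    have : -x = 0 := by rw [← hkx]; rfl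
    simpa using this
  have hxk : x = κ^[Fintype.card G - k] 0 := by
    rw [← neg_iter h k hk.le, hkx, neg_neg]
  have hyk : y = κ^[k + 1] 0 := by
    rw [Function.iterate_succ_apply', hkx, hy]
  have hne : Fintype.card G - k ≠ k + 1 := by
    intro he
    apply hxy
    rw [hxk, hyk, he]
  by_cases hle : 2 * k + 1 < Fintype.card G
  · refine ⟨2 * k - 1, by omega, Or.inl ⟨?_, ?_, ?_⟩⟩
    · rw [zig_odd _ (by omega), ← hkx]
      congr 1
      omega
    · rw [zig_even _ (by omega), hxk]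
      congr 1
      omega
    · rw [zig_odd _ (by omega), hyk]
      congr 1
      omega
  · obtain ⟨l, hl⟩ : ∃ l, k = Fintype.card G - l ∧ 1 ≤ l ∧ 2 * l + 1 ≤ Fintype.card G :=
      ⟨Fintype.card G - k, by omega, by omega, by omega⟩
    refine ⟨2 * l - 2, by omega, Or.inr ⟨?_, ?_, ?_⟩⟩
    · rw [zig_even _ (by omega), hyk]
      congr 1
      omega
    · rw [zig_odd _ (by omega), hxk]
      congr 1
      omega
    · rw [zig_even _ (by omega), ← hkx]
      congr 1
      omega

theorem zig_last (h : SymCyc κ) (hodd : Fintype.card G % 2 = 1) (h3 : 3 ≤ Fintype.card G) (x : G)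
    (hx : κ x = -x) :
    zig κ (Fintype.card G - 2) = x ∧ zig κ (Fintype.card G - 1) = -x := by
  obtain ⟨k, hk, hkx⟩ := h.exists_lt x
  have e1 : κ^[k + 1] 0 = κ^[Fintype.card G - k] 0 := by
    rw [Function.iterate_succ_apply', hkx, hx, ← hkx, h.iter_neg k hk.le]
  have hk2 : 2 * k + 1 = Fintype.card G := by
    by_cases hk0 : k = 0
    · subst hk0
      rw [Nat.sub_zero, h.iter_card] at e1
      have := h.iter_inj (a := 1) (b := 0) (by omega) (by omega) (by simpa using e1)
      omega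
    · by_cases hk1 : k + 1 = Fintype.card G
      · rw [hk1, h.iter_card] at e1
        have := h.iter_inj (a := 0) (b := Fintype.card G - k) (by omega) (by omega)
          (by simpa using e1)
        omega
      · have := h.iter_inj (by omega) (by omega) e1
        omega
  constructor
  · rw [zig_odd _ (by omega), ← hkx]
    congr 1
    omega
  · rw [zig_even _ (by omega), ← hkx, neg_iter h k hk.le]
    congr 1
    omega

theorem zig_zero (h : SymCyc κ) : zig κ 0 = 0 := by
  rw [zig_even 0 rfl, Nat.zero_div, Nat.sub_zero, h.iter_card]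

theorem zig_one : zig κ 1 = κ 0 := by
  rw [zig_odd 1 rfl]; rfl

/-- the pairs in positions `2i+1, 2i+2` -/
theorem zig_pair (h : SymCyc κ) (hodd : Fintype.card G % 2 = 1) (x : G) (hx : x ≠ 0) :
    ∃ j, j % 2 = 1 ∧ j + 1 < Fintype.card G ∧
      ((zig κ j = x ∧ zig κ (j + 1) = -x) ∨ (zig κ j = -x ∧ zig κ (j + 1) = x)) := by
  obtain ⟨k, hk, hkx⟩ := h.exists_lt x
  have hk0 : k ≠ 0 := by
    rintro rfl
    exact hx hkx.symm
  by_cases hle : 2 * k < Fintype.card G
  · refine ⟨2 * k - 1, by omega, by omega, Or.inl ⟨?_, ?_⟩⟩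
    · rw [zig_odd _ (by omega), ← hkx]
      congr 1
      omega
    · rw [zig_even _ (by omega), ← hkx, neg_iter h k hk.le]
      congr 1
      omega
  · refine ⟨2 * (Fintype.card G - k) - 1, by omega, by omega, Or.inr ⟨?_, ?_⟩⟩
    · rw [zig_odd _ (by omega), ← hkx, neg_iter h k hk.le]
      congr 1
      omega
    · rw [zig_even _ (by omega), ← hkx]
      congr 1
      omega

/-- the differences in positions `2i, 2i+1`, for a complete cycle -/
theorem zig_diff (h : SymCyc κ) (hodd : Fintype.card G % 2 = 1)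
    (hc : Function.Injective (fun x => x + κ x)) (d : G) (hd : d ≠ 0) :
    ∃ j, j % 2 = 0 ∧ j + 1 < Fintype.card G ∧
      (zig κ (j + 1) - zig κ j = d ∨ zig κ (j + 1) - zig κ j = -d) := by
  have hsurj : Function.Surjective (fun x : G => x + κ x) := Finite.surjective_of_injective hc
  obtain ⟨x, hx⟩ := hsurj d
  obtain ⟨k, hk, hkx⟩ := h.exists_lt x
  simp only at hx
  rw [← hkx, ← Function.iterate_succ_apply' κ] at hx
  by_cases hle : 2 * k + 1 < Fintype.card G
  · refine ⟨2 * k, by omega, by omega, Or.inl ?_⟩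
    rw [zig_odd _ (by omega), zig_even _ (by omega), ← hx]
    have e1 : (2 * k + 1 + 1) / 2 = k + 1 := by omega
    have e2 : 2 * k / 2 = k := by omega
    rw [e1, e2, h.iter_neg k hk.le, sub_neg_eq_add, add_comm]
  · by_cases heq : 2 * k + 1 = Fintype.card G
    · exfalso
      apply hd
      have e3 : k + 1 = Fintype.card G - k := by omega
      rw [← hx, Nat.succ_eq_add_one, e3, h.iter_neg k hk.le]
      simp
    · obtain ⟨l, hl1, hl2⟩ : ∃ l, k + 1 + l = Fintype.card G ∧ 2 * l + 1 < Fintype.card G :=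
        ⟨Fintype.card G - k - 1, by omega, by omega⟩
      refine ⟨2 * l, by omega, by omega, Or.inr ?_⟩
      rw [zig_odd _ (by omega), zig_even _ (by omega), ← hx]
      have e1 : (2 * l + 1 + 1) / 2 = Fintype.card G - k := by omega
      have e2 : Fintype.card G - 2 * l / 2 = k + 1 := by omega
      rw [e1, e2, h.iter_neg k hk.le, Nat.succ_eq_add_one]
      abel

end

/-- All data for an odd order in terms of the zigzags. -/
structure OddData (G : Type) [AddCommGroup G] [Fintype G] (Q : Type) (P : Q → ℕ → G) (q0 : Q) :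
    Prop where
  inj : ∀ k a b, a < Fintype.card G → b < Fintype.card G → P k a = P k b → a = b
  tri : ∀ a b c : G, a ≠ b → b ≠ c → a ≠ c → ∃ k g j, j + 2 < Fintype.card G ∧
    ((P k j + g = a ∧ P k (j + 1) + g = b ∧ P k (j + 2) + g = c) ∨
     (P k j + g = c ∧ P k (j + 1) + g = b ∧ P k (j + 2) + g = a))
  last : ∀ a b : G, a ≠ b → ∃ k g,
    (P k (Fintype.card G - 2) + g = a ∧ P k (Fintype.card G - 1) + g = b) ∨
    (P k 1 + g = a ∧ P k 0 + g = b)
  pair : ∀ a b : G, a ≠ b → ∃ g j, j % 2 = 1 ∧ j + 1 < Fintype.card G ∧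
    ((P q0 j + g = a ∧ P q0 (j + 1) + g = b) ∨ (P q0 j + g = b ∧ P q0 (j + 1) + g = a))
  diff : ∀ a b : G, a ≠ b → ∃ g j, j % 2 = 0 ∧ j + 1 < Fintype.card G ∧
    ((P q0 j + g = a ∧ P q0 (j + 1) + g = b) ∨ (P q0 j + g = b ∧ P q0 (j + 1) + g = a))

theorem oddData_all (N : ℕ) (hodd : N % 2 = 1) (h3 : 3 ≤ N) :
    ∃ (G : Type) (_ : AddCommGroup G) (_ : Fintype G) (Q : Type) (_ : Fintype Q)
      (P : Q → ℕ → G) (q0 : Q), Fintype.card G = N ∧ 2 * Fintype.card Q + 1 = N ∧
      OddData G Q P q0 := by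
  obtain ⟨G, iG, iF, Q, iQ, R, κ, q0, hG, hQ, hR, hcov, hcyc, hcomp, hhalf⟩ := shd_all N hodd h3
  subst hG
  refine ⟨G, iG, iF, Q, iQ, fun k => zig (κ k), q0, rfl, hQ, ?_, ?_, ?_, ?_, ?_⟩
  · intro k a b ha hb hab
    exact zig_inj (hcyc k) hodd ha hb hab
  · -- triads
    have main : ∀ a b c : G, a ≠ b → b ≠ c → a ≠ c → R (c - a) → ∃ k g j,
        j + 2 < Fintype.card G ∧
        ((zig (κ k) j + g = a ∧ zig (κ k) (j + 1) + g = b ∧ zig (κ k) (j + 2) + g = c) ∨
        (zig (κ k) j + g = c ∧ zig (κ k) (j + 1) + g = b ∧ zig (κ k) (j + 2) + g = a)) := by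
      intro a b c hab hbc hac hr
      obtain ⟨s, hs⟩ := hhalf (a + b)
      -- x = b - s, -x = a - s, y = c - s
      have hneg : -(b - s) = a - s := by
        rw [neg_sub, sub_eq_sub_iff_add_eq_add, hs]
      obtain ⟨k, hk⟩ := hcov (-(b - s)) (c - a) hr
      have hy : κ k (-(b - s)) = c - s := by
        rw [hk, hneg]; abel
      have hx0 : b - s ≠ 0 := by
        intro h0
        apply hab
        have h1 : a - s = 0 := by rw [← hneg, h0, neg_zero]
        rw [sub_eq_zero.1 h0, sub_eq_zero.1 h1]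
      have hxy : b - s ≠ c - s := by
        intro h0
        exact hbc (sub_left_inj.1 h0)
      obtain ⟨j, hj, hj'⟩ := zig_arc (hcyc k) hodd (b - s) (c - s) hx0 hxy hy
      refine ⟨k, s, j, hj, ?_⟩
      rcases hj' with ⟨h1, h2, h3⟩ | ⟨h1, h2, h3⟩
      · left
        rw [h1, h2, h3, hneg]
        simp
      · right
        rw [h1, h2, h3, hneg]
        simp
    intro a b c hab hbc hac
    rcases hR (c - a) (sub_ne_zero.2 (Ne.symm hac)) with h | h
    · exact main a b c hab hbc hac h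
    · rw [neg_sub] at h
      obtain ⟨k, g, j, hj, h1 | h1⟩ := main c b a (Ne.symm hbc) (Ne.symm hab) (Ne.symm hac) h
      · exact ⟨k, g, j, hj, Or.inr h1⟩
      · exact ⟨k, g, j, hj, Or.inl h1⟩
  · -- last
    intro a b hab
    rcases hR (b - a) (sub_ne_zero.2 (Ne.symm hab)) with h | h
    · obtain ⟨s, hs⟩ := hhalf (a + b)
      obtain ⟨k, hk⟩ := hcov (a - s) (b - a) h
      have hm : κ k (a - s) = -(a - s) := by
        rw [hk, neg_sub]
        have : a - s + (b - a) = b - s := by abel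
        rw [this, sub_eq_sub_iff_add_eq_add, hs, add_comm]
      obtain ⟨h1, h2⟩ := zig_last (hcyc k) hodd h3 _ hm
      refine ⟨k, s, Or.inl ⟨?_, ?_⟩⟩
      · simp only [h1]; abel
      · simp only [h2, ← hm, hk]; abel
    · obtain ⟨k, hk⟩ := hcov 0 (-(b - a)) h
      refine ⟨k, b, Or.inr ⟨?_, ?_⟩⟩
      · simp only [zig_one, hk]; abel
      · simp only [zig_zero (hcyc k)]; abel
  · -- pair
    intro a b hab
    obtain ⟨s, hs⟩ := hhalf (a + b)
    have hneg : -(a - s) = b - s := by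
      rw [neg_sub, sub_eq_sub_iff_add_eq_add, hs, add_comm]
    have hx0 : a - s ≠ 0 := by
      intro h0
      apply hab
      have h1 : b - s = 0 := by rw [← hneg, h0, neg_zero]
      rw [sub_eq_zero.1 h0, sub_eq_zero.1 h1]
    obtain ⟨j, hj1, hj2, hj3⟩ := zig_pair (hcyc q0) hodd (a - s) hx0
    refine ⟨s, j, hj1, hj2, ?_⟩
    rcases hj3 with ⟨h1, h2⟩ | ⟨h1, h2⟩
    · left
      simp only [h1, h2, hneg]
      constructor <;> abel
    · right
      simp only [h1, h2, hneg]
      constructor <;> abel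
  · -- diff
    intro a b hab
    obtain ⟨j, hj1, hj2, hj3⟩ := zig_diff (hcyc q0) hodd hcomp (b - a)
      (sub_ne_zero.2 (Ne.symm hab))
    rcases hj3 with h1 | h1
    · refine ⟨a - zig (κ q0) j, j, hj1, hj2, Or.inl ⟨by abel, ?_⟩⟩
      have : zig (κ q0) (j + 1) = (b - a) + zig (κ q0) j := by rw [← h1]; abel
      simp only [this]; abel
    · refine ⟨b - zig (κ q0) j, j, hj1, hj2, Or.inr ⟨by abel, ?_⟩⟩
      have : zig (κ q0) (j + 1) = -(b - a) + zig (κ q0) j := by rw [← h1]; abel
      simp only [this]; abel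

end Pool.Agent.Helper969.TB
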