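import Pool.Agent.Helper969.TB5

set_option autoImplicit false

namespace Pool.Agent.Helper969.TB

/-- The data carried through the doubling construction. -/
structure DataProp (n : ℕ) {S K I : Type} (L : K → I → ℕ → S) (b1 b2 : K) : Prop where
  inj : ∀ k i a b, a < n → b < n → L k i a = L k i b → a = b
  col : ∀ k j s, j < n → ∃ i, L k i j = s
  tri : ∀ a b c, a ≠ b → b ≠ c → a ≠ c → ∃ k i j, j + 2 < n ∧ L k i j = a ∧
    L k i (j + 1) = b ∧ L k i (j + 2) = c
  last : ∀ a b, a ≠ b → ∃ k i, L k i (n - 2) = a ∧ L k i (n - 1) = b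
  rev : ∀ k i, k ≠ b1 → ∃ k' i', k' ≠ b1 ∧ ∀ j, j < n → L k' i' j = L k i (n - 1 - j)
  rev1 : ∀ i, ∃ i', ∀ j, j < n → L b1 i' j = L b1 i (n - 1 - j)
  rev2 : ∀ i, ∃ i', ∀ j, j < n → L b2 i' j = L b2 i (n - 1 - j)
  adj1 : ∀ a b, a ≠ b → ∃ i j, j + 1 < n ∧ L b1 i j = a ∧ L b1 i (j + 1) = b
  adj2 : ∀ a b, a ≠ b → ∃ i j, j + 1 < n ∧ L b2 i j = a ∧ L b2 i (j + 1) = b

def Data (n : ℕ) : Prop :=
  ∃ (S K I : Type) (_ : Fintype S) (_ : Fintype K) (_ : Fintype I) (L : K → I → ℕ → S)
    (b1 b2 : K), n % 2 = 0 ∧ 4 ≤ n ∧ Fintype.card S = n ∧ Fintype.card K + 1 = n ∧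
    Fintype.card I = n ∧ b1 ≠ b2 ∧ DataProp n L b1 b2

/-- bits along a row, depending on its orientation `s` and on the copy `t` -/
def XX (s t : Bool) (j : ℕ) : Bool :=
  match s, t with
  | false, false => false
  | false, true => decide (((j + 1) / 2) % 2 = 1)
  | true, false => decide (j % 2 = 1)
  | true, true => decide ((j / 2) % 2 = 1)

def ed (s t : Bool) (j : ℕ) : Bool := if t then xor s (decide (j % 2 = 0)) else s

theorem XX_succ (s t : Bool) (j : ℕ) : xor (XX s t j) (XX s t (j + 1)) = ed s t j := by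
  have h4 : j % 4 = 0 ∨ j % 4 = 1 ∨ j % 4 = 2 ∨ j % 4 = 3 := by omega
  cases s <;> cases t
  · rfl
  · simp only [XX, ed, if_true, Bool.false_xor]
    rcases h4 with h | h | h | h
    · have e1 : (j + 1) / 2 % 2 = 0 := by omega
      have e2 : (j + 1 + 1) / 2 % 2 = 1 := by omega
      have e3 : j % 2 = 0 := by omega
      simp [e1, e2, e3]
    · have e1 : (j + 1) / 2 % 2 = 1 := by omega
      have e2 : (j + 1 + 1) / 2 % 2 = 1 := by omega
      have e3 : j % 2 = 1 := by omega
      simp [e1, e2, e3]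
    · have e1 : (j + 1) / 2 % 2 = 1 := by omega
      have e2 : (j + 1 + 1) / 2 % 2 = 0 := by omega
      have e3 : j % 2 = 0 := by omega
      simp [e1, e2, e3]
    · have e1 : (j + 1) / 2 % 2 = 0 := by omega
      have e2 : (j + 1 + 1) / 2 % 2 = 0 := by omega
      have e3 : j % 2 = 1 := by omega
      simp [e1, e2, e3]
  · simp only [XX, ed]
    rcases Nat.mod_two_eq_zero_or_one j with h | h
    · have e2 : (j + 1) % 2 = 1 := by omega
      simp [h, e2]
    · have e2 : (j + 1) % 2 = 0 := by omega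
      simp [h, e2]
  · simp only [XX, ed, if_true, Bool.true_xor]
    rcases h4 with h | h | h | h
    · have e1 : j / 2 % 2 = 0 := by omega
      have e2 : (j + 1) / 2 % 2 = 0 := by omega
      have e3 : j % 2 = 0 := by omega
      simp [e1, e2, e3]
    · have e1 : j / 2 % 2 = 0 := by omega
      have e2 : (j + 1) / 2 % 2 = 1 := by omega
      have e3 : j % 2 = 1 := by omega
      simp [e1, e2, e3]
    · have e1 : j / 2 % 2 = 1 := by omega
      have e2 : (j + 1) / 2 % 2 = 1 := by omega
      have e3 : j % 2 = 0 := by omega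
      simp [e1, e2, e3]
    · have e1 : j / 2 % 2 = 1 := by omega
      have e2 : (j + 1) / 2 % 2 = 0 := by omega
      have e3 : j % 2 = 1 := by omega
      simp [e1, e2, e3]

theorem ed_parity (s t : Bool) (i j : ℕ) (h : i % 2 = j % 2) : ed s t i = ed s t j := by
  simp only [ed, h]

theorem ed_not (s t : Bool) (j : ℕ) : ed (!s) t j = !(ed s t j) := by
  cases s <;> cases t <;> simp [ed]

/-- all four pairs of consecutive bits occur -/
theorem ed_cover (s p q : Bool) (j : ℕ) : ∃ t, (ed s t j = p ∧ ed s t (j + 1) = q) ∨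
    (ed (!s) t j = p ∧ ed (!s) t (j + 1) = q) := by
  rcases Nat.mod_two_eq_zero_or_one j with h | h
  · have e2 : (j + 1) % 2 = 1 := by omega
    cases s <;> cases p <;> cases q
    · exact ⟨false, by simp [ed]⟩
    · exact ⟨true, by simp [ed, h, e2]⟩
    · exact ⟨true, by simp [ed, h, e2]⟩
    · exact ⟨false, by simp [ed]⟩
    · exact ⟨false, by simp [ed]⟩
    · exact ⟨true, by simp [ed, h, e2]⟩
    · exact ⟨true, by simp [ed, h, e2]⟩
    · exact ⟨false, by simp [ed]⟩
  · have e2 : (j + 1) % 2 = 0 := by omega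
    cases s <;> cases p <;> cases q
    · exact ⟨false, by simp [ed]⟩
    · exact ⟨true, by simp [ed, h, e2]⟩
    · exact ⟨true, by simp [ed, h, e2]⟩
    · exact ⟨false, by simp [ed]⟩
    · exact ⟨false, by simp [ed]⟩
    · exact ⟨true, by simp [ed, h, e2]⟩
    · exact ⟨true, by simp [ed, h, e2]⟩
    · exact ⟨false, by simp [ed]⟩

def XA (n : ℕ) (s : Bool) (j : ℕ) : Bool := s && (decide (j % 2 = 1) && decide (j + 1 < n))

def vB (J : ℕ) : ℕ := 2 * (J / 4) + J % 2

def bB (J : ℕ) : Bool := if J < 4 then decide (J = 1 ∨ J = 2) else decide (J % 4 < 2)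

def vC (n J : ℕ) : ℕ := if J < 2 then 0 else min (2 * ((J - 2) / 4) + 1 + J % 2) (n - 1)

def bC (n J : ℕ) : Bool :=
  if J = 0 then false else if J = 2 * n - 1 then true else decide (J % 4 < 2)

def fold (n J : ℕ) : ℕ := if J < n then J else 2 * n - 1 - J

def foldb (n : ℕ) (X : ℕ → Bool) (J : ℕ) : Bool := if J < n then X J else !(X (2 * n - 1 - J))

theorem fold_lt (n J : ℕ) (hJ : J < 2 * n) : fold n J < n := by
  unfold fold; split_ifs <;> omega

theorem fold_rev (n J : ℕ) (hJ : J < 2 * n) : fold n (2 * n - 1 - J) = fold n J := by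
  unfold fold; split_ifs <;> omega

theorem foldb_rev (n J : ℕ) (X : ℕ → Bool) (hJ : J < 2 * n) :
    foldb n X (2 * n - 1 - J) = !(foldb n X J) := by
  unfold foldb
  by_cases h : J < n
  · have h1 : ¬ (2 * n - 1 - J < n) := by omega
    have h2 : 2 * n - 1 - (2 * n - 1 - J) = J := by omega
    simp only [h, h1, if_true, if_false, h2]
  · have h1 : 2 * n - 1 - J < n := by omega
    simp only [h, h1, if_true, if_false, Bool.not_not]

theorem fold_inj (n : ℕ) (X : ℕ → Bool) (J J' : ℕ) (hJ : J < 2 * n) (hJ' : J' < 2 * n)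
    (h : fold n J = fold n J') (hb : foldb n X J = foldb n X J') : J = J' := by
  unfold fold at h
  unfold foldb at hb
  by_cases h1 : J < n <;> by_cases h2 : J' < n
  · simpa [h1, h2] using h
  · simp only [h1, h2, if_true, if_false] at h hb
    rw [← h] at hb
    exfalso
    revert hb
    cases X J <;> simp
  · simp only [h1, h2, if_true, if_false] at h hb
    rw [h] at hb
    exfalso
    revert hb
    cases X J' <;> simp
  · simp only [h1, h2, if_false] at h
    omega

theorem vB_lt (n J : ℕ) (hn : n % 2 = 0) (hJ : J < 2 * n) : vB J < n := by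
  unfold vB; omega

theorem vB_rev (n J : ℕ) (hn : n % 2 = 0) (hJ : J < 2 * n) :
    vB (2 * n - 1 - J) = n - 1 - vB J := by
  unfold vB; omega

theorem B_inj (J J' : ℕ) (h : vB J = vB J') (hb : bB J = bB J') : J = J' := by
  unfold vB at h
  unfold bB at hb
  have h1 : J / 4 = J' / 4 := by omega
  have h2 : J % 2 = J' % 2 := by omega
  by_cases h3 : J < 4
  · have h4 : J' < 4 := by omega
    simp only [h3, h4, if_true, decide_eq_decide] at hb
    omega
  · have h4 : ¬ J' < 4 := by omega
    simp only [h3, h4, if_false, decide_eq_decide] at hb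
    omega

theorem vC_lt (n J : ℕ) (hn : 4 ≤ n) : vC n J < n := by
  unfold vC; split_ifs <;> omega

theorem vC_rev (n J : ℕ) (hn : n % 2 = 0) (hn4 : 4 ≤ n) (hJ : J < 2 * n) :
    vC n (2 * n - 1 - J) = n - 1 - vC n J := by
  unfold vC; split_ifs <;> omega

theorem C_inj (n J J' : ℕ) (hn : n % 2 = 0) (hn4 : 4 ≤ n) (hJ : J < 2 * n) (hJ' : J' < 2 * n)
    (h : vC n J = vC n J') (hb : bC n J = bC n J') : J = J' := by
  unfold vC at h
  unfold bC at hb
  by_cases h1 : J = 0 <;> by_cases h1' : J' = 0
  · omega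
  · by_cases h2' : J' = 2 * n - 1
    · split_ifs at h <;> omega
    · simp only [h1, h1', h2', if_true, if_false] at hb
      have hb' : ¬ J' % 4 < 2 := by simpa using hb.symm
      split_ifs at h <;> omega
  · by_cases h2' : J = 2 * n - 1
    · split_ifs at h <;> omega
    · simp only [h1, h1', h2', if_true, if_false] at hb
      have hb' : ¬ J % 4 < 2 := by simpa using hb
      split_ifs at h <;> omega
  · by_cases h2 : J = 2 * n - 1 <;> by_cases h2' : J' = 2 * n - 1
    · omega
    · simp only [h1, h1', h2, h2', if_true, if_false] at hb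
      have hb' : J' % 4 < 2 := by
        have h3 : ¬ (2 * n - 1 = 0) := by omega
        simp only [h3, if_false] at hb
        simpa using hb.symm
      split_ifs at h <;> omega
    · simp only [h1, h1', h2, h2', if_true, if_false] at hb
      have hb' : J % 4 < 2 := by
        have h3 : ¬ (2 * n - 1 = 0) := by omega
        simp only [h3, if_false] at hb
        simpa using hb
      split_ifs at h <;> omega
    · simp only [h1, h1', h2, h2', if_false, decide_eq_decide] at hb
      split_ifs at h <;> omega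

end Pool.Agent.Helper969.TB
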