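import Pool.Agent.Helper969.TB7

set_option autoImplicit false

namespace Pool.Agent.Helper969.TB

theorem fold_lo (n J : ℕ) (h : J < n) : fold n J = J := by simp [fold, h]

theorem fold_hi (n j : ℕ) : fold n (n + j) = n - 1 - j := by
  have h : ¬ (n + j < n) := by omega
  simp only [fold, h, if_false]
  omega

theorem foldb_lo (n J : ℕ) (X : ℕ → Bool) (h : J < n) : foldb n X J = X J := by simp [foldb, h]

theorem foldb_hi (n j : ℕ) (X : ℕ → Bool) : foldb n X (n + j) = !(X (n - 1 - j)) := by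
  have h : ¬ (n + j < n) := by omega
  have h2 : 2 * n - 1 - (n + j) = n - 1 - j := by omega
  simp only [foldb, h, if_false, h2]

section dbl

variable {S K I : Type} (n : ℕ) (L : K → I → ℕ → S) (b1 : K) (sg : S → S → Bool)

/-- orientation of a row -/
def sgn (k : K) (i : I) : Bool := sg (L k i 0) (L k i (n - 1))

def VV (k' : ({k : K // k ≠ b1} × Bool) ⊕ Fin 3) (i : I) (J : ℕ) : S :=
  match k' with
  | Sum.inl kt => L kt.1.1 i (fold n J)
  | Sum.inr c => L b1 i (if c = 0 then fold n J else if c = 1 then vB J else vC n J)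

def WW (k' : ({k : K // k ≠ b1} × Bool) ⊕ Fin 3) (i : I) (J : ℕ) : Bool :=
  match k' with
  | Sum.inl kt => foldb n (XX (sgn n L sg kt.1.1 i) kt.2) J
  | Sum.inr c => if c = 0 then foldb n (XA n (sgn n L sg b1 i)) J else
      if c = 1 then (if sgn n L sg b1 i then bB (2 * n - 1 - J) else bB J) else
      (if sgn n L sg b1 i then bC n (2 * n - 1 - J) else bC n J)

def LL (k' : ({k : K // k ≠ b1} × Bool) ⊕ Fin 3) (i' : I × Bool) (J : ℕ) : S × Bool :=
  (VV n L b1 k' i'.1 J, xor (WW n L b1 sg k' i'.1 J) i'.2)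

variable {n L b1 sg}

theorem hit3 {k' : ({k : K // k ≠ b1} × Bool) ⊕ Fin 3} {i : I} {J : ℕ} {a b c : S}
    {α β γ : Bool} (hJ : J + 2 < 2 * n) (h0 : VV n L b1 k' i J = a)
    (h1 : VV n L b1 k' i (J + 1) = b) (h2 : VV n L b1 k' i (J + 2) = c)
    (hp : xor (WW n L b1 sg k' i J) (WW n L b1 sg k' i (J + 1)) = xor α β)
    (hq : xor (WW n L b1 sg k' i (J + 1)) (WW n L b1 sg k' i (J + 2)) = xor β γ) :
    ∃ k' i' J, J + 2 < 2 * n ∧ LL n L b1 sg k' i' J = (a, α) ∧
      LL n L b1 sg k' i' (J + 1) = (b, β) ∧ LL n L b1 sg k' i' (J + 2) = (c, γ) := by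
  refine ⟨k', (i, xor α (WW n L b1 sg k' i J)), J, hJ, ?_, ?_, ?_⟩
  · simp only [LL, h0, Prod.mk.injEq, true_and]
    generalize WW n L b1 sg k' i J = x0
    cases x0 <;> cases α <;> rfl
  · simp only [LL, h1, Prod.mk.injEq, true_and]
    revert hp
    generalize WW n L b1 sg k' i J = x0
    generalize WW n L b1 sg k' i (J + 1) = x1
    cases x0 <;> cases x1 <;> cases α <;> cases β <;> simp
  · simp only [LL, h2, Prod.mk.injEq, true_and]
    revert hp hq
    generalize WW n L b1 sg k' i J = x0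
    generalize WW n L b1 sg k' i (J + 1) = x1
    generalize WW n L b1 sg k' i (J + 2) = x2
    cases x0 <;> cases x1 <;> cases x2 <;> cases α <;> cases β <;> cases γ <;> simp

theorem hit2 {k' : ({k : K // k ≠ b1} × Bool) ⊕ Fin 3} {i : I} {J : ℕ} {a b : S}
    {α β : Bool} (h0 : VV n L b1 k' i J = a)
    (h1 : VV n L b1 k' i (J + 1) = b)
    (hp : xor (WW n L b1 sg k' i J) (WW n L b1 sg k' i (J + 1)) = xor α β) :
    ∃ i', LL n L b1 sg k' i' J = (a, α) ∧ LL n L b1 sg k' i' (J + 1) = (b, β) := by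
  refine ⟨(i, xor α (WW n L b1 sg k' i J)), ?_, ?_⟩
  · simp only [LL, h0, Prod.mk.injEq, true_and]
    generalize WW n L b1 sg k' i J = x0
    cases x0 <;> cases α <;> rfl
  · simp only [LL, h1, Prod.mk.injEq, true_and]
    revert hp
    generalize WW n L b1 sg k' i J = x0
    generalize WW n L b1 sg k' i (J + 1) = x1
    cases x0 <;> cases x1 <;> cases α <;> cases β <;> simp

theorem LL_col (hcol : ∀ k j s, j < n → ∃ i, L k i j = s) (hn : n % 2 = 0) (hn4 : 4 ≤ n)
    (k' : ({k : K // k ≠ b1} × Bool) ⊕ Fin 3) (J : ℕ) (s : S × Bool) (hJ : J < 2 * n) :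
    ∃ i', LL n L b1 sg k' i' J = s := by
  obtain ⟨s, σ⟩ := s
  have key : ∃ i, VV n L b1 k' i J = s := by
    rcases k' with ⟨k, t⟩ | c
    · exact hcol k.1 (fold n J) s (fold_lt n J hJ)
    · apply hcol b1 _ s
      split_ifs
      · exact fold_lt n J hJ
      · exact vB_lt n J hn hJ
      · exact vC_lt n J hn4
  obtain ⟨i, hi⟩ := key
  refine ⟨(i, xor (WW n L b1 sg k' i J) σ), ?_⟩
  simp [LL, hi]

theorem LL_inj (hinj : ∀ k i a b, a < n → b < n → L k i a = L k i b → a = b)
    (hn : n % 2 = 0) (hn4 : 4 ≤ n)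
    (k' : ({k : K // k ≠ b1} × Bool) ⊕ Fin 3) (i' : I × Bool) (a b : ℕ) (ha : a < 2 * n)
    (hb : b < 2 * n) (h : LL n L b1 sg k' i' a = LL n L b1 sg k' i' b) : a = b := by
  obtain ⟨i, e⟩ := i'
  simp only [LL, Prod.mk.injEq] at h
  obtain ⟨h1, h2⟩ := h
  have h2 : WW n L b1 sg k' i a = WW n L b1 sg k' i b := by
    revert h2
    generalize WW n L b1 sg k' i a = x
    generalize WW n L b1 sg k' i b = y
    cases x <;> cases y <;> cases e <;> simp
  rcases k' with ⟨k, t⟩ | c
  · exact fold_inj n _ a b ha hb (hinj _ _ _ _ (fold_lt n a ha) (fold_lt n b hb) h1) h2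
  · fin_cases c
    · exact fold_inj n _ a b ha hb (hinj _ _ _ _ (fold_lt n a ha) (fold_lt n b hb) h1) h2
    · have h1' : vB a = vB b := hinj _ _ _ _ (vB_lt n a hn ha) (vB_lt n b hn hb) h1
      have h2' : (if sgn n L sg b1 i then bB (2 * n - 1 - a) else bB a) =
        (if sgn n L sg b1 i then bB (2 * n - 1 - b) else bB b) := h2
      by_cases hs : sgn n L sg b1 i = true
      · simp only [hs, if_true] at h2'
        have := B_inj (2 * n - 1 - a) (2 * n - 1 - b)
          (by rw [vB_rev n a hn ha, vB_rev n b hn hb, h1']) h2'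
        omega
      · simp only [hs, if_false, Bool.false_eq_true] at h2'
        exact B_inj a b h1' h2'
    · have h1' : vC n a = vC n b := hinj _ _ _ _ (vC_lt n a hn4) (vC_lt n b hn4) h1
      have h2' : (if sgn n L sg b1 i then bC n (2 * n - 1 - a) else bC n a) =
        (if sgn n L sg b1 i then bC n (2 * n - 1 - b) else bC n b) := h2
      by_cases hs : sgn n L sg b1 i = true
      · simp only [hs, if_true] at h2'
        have := C_inj n (2 * n - 1 - a) (2 * n - 1 - b) hn hn4 (by omega) (by omega)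
          (by rw [vC_rev n a hn hn4 ha, vC_rev n b hn hn4 hb, h1']) h2'
        omega
      · simp only [hs, if_false, Bool.false_eq_true] at h2'
        exact C_inj n a b hn hn4 ha hb h1' h2'

theorem sgn_rev (hsg : ∀ a b, a ≠ b → sg b a = !(sg a b))
    (hinj : ∀ k i a b, a < n → b < n → L k i a = L k i b → a = b) (hn4 : 4 ≤ n)
    {k k' : K} {i i' : I} (h : ∀ j, j < n → L k' i' j = L k i (n - 1 - j)) :
    sgn n L sg k' i' = !(sgn n L sg k i) := by
  unfold sgn
  rw [h 0 (by omega), h (n - 1) (by omega), Nat.sub_zero, Nat.sub_self]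
  apply hsg
  intro he
  have := hinj _ _ _ _ (by omega) (by omega) he
  omega

theorem LL_rev (hsg : ∀ a b, a ≠ b → sg b a = !(sg a b))
    (hinj : ∀ k i a b, a < n → b < n → L k i a = L k i b → a = b)
    (hn : n % 2 = 0) (hn4 : 4 ≤ n)
    (hrev1 : ∀ i, ∃ i', ∀ j, j < n → L b1 i' j = L b1 i (n - 1 - j))
    (k' : ({k : K // k ≠ b1} × Bool) ⊕ Fin 3) (i' : I × Bool) :
    ∃ i'', ∀ J, J < 2 * n → LL n L b1 sg k' i'' J = LL n L b1 sg k' i' (2 * n - 1 - J) := by
  obtain ⟨i, e⟩ := i'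
  rcases k' with ⟨k, t⟩ | c
  · refine ⟨(i, !e), fun J hJ => ?_⟩
    simp only [LL, VV, WW, fold_rev n J hJ, foldb_rev n J _ hJ, Prod.mk.injEq, true_and]
    generalize foldb n (XX (sgn n L sg k.1 i) t) J = x
    cases x <;> cases e <;> rfl
  · fin_cases c
    · refine ⟨(i, !e), fun J hJ => ?_⟩
      simp only [LL, VV, WW, Fin.zero_eta, if_true, fold_rev n J hJ, foldb_rev n J _ hJ,
        Prod.mk.injEq, true_and]
      generalize foldb n (XA n (sgn n L sg b1 i)) J = x
      cases x <;> cases e <;> rfl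
    · obtain ⟨i', hi'⟩ := hrev1 i
      refine ⟨(i', e), fun J hJ => ?_⟩
      have hs := sgn_rev (sg := sg) hsg hinj hn4 hi'
      have e2 : 2 * n - 1 - (2 * n - 1 - J) = J := by omega
      have e3 : n - 1 - vB J = vB (2 * n - 1 - J) := (vB_rev n J hn hJ).symm
      have hne : ¬ ((1 : Fin 3) = 0) := by decide
      simp only [LL, VV, WW, Fin.mk_one, hne, if_true, if_false, hs,
        hi' _ (vB_lt n J hn hJ), e2, e3]
      cases sgn n L sg b1 i <;> simp
    · obtain ⟨i', hi'⟩ := hrev1 i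
      refine ⟨(i', e), fun J hJ => ?_⟩
      have hs := sgn_rev (sg := sg) hsg hinj hn4 hi'
      have e2 : 2 * n - 1 - (2 * n - 1 - J) = J := by omega
      have e3 : n - 1 - vC n J = vC n (2 * n - 1 - J) := (vC_rev n J hn hn4 hJ).symm
      have hne : ¬ ((2 : Fin 3) = 0) := by decide
      have hne' : ¬ ((2 : Fin 3) = 1) := by decide
      simp only [LL, VV, WW, Fin.reduceFinMk, hne, hne', if_false, hs,
        hi' _ (vC_lt n J hn4), e2, e3]
      cases sgn n L sg b1 i <;> simp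

end dbl

end Pool.Agent.Helper969.TB
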