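import Pool.Agent.Helper969.TB8

set_option autoImplicit false

namespace Pool.Agent.Helper969.TB

section vals

variable {S K I : Type} {n : ℕ} {L : K → I → ℕ → S} {b1 : K} {sg : S → S → Bool}

theorem VF_lo (k : K) (hk : k ≠ b1) (t : Bool) (i : I) (J : ℕ) (h : J < n) :
    VV n L b1 (Sum.inl (⟨k, hk⟩, t)) i J = L k i J := by
  simp only [VV, fold_lo n J h]

theorem VF_hi (k : K) (hk : k ≠ b1) (t : Bool) (i : I) (j : ℕ) :
    VV n L b1 (Sum.inl (⟨k, hk⟩, t)) i (n + j) = L k i (n - 1 - j) := by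
  simp only [VV, fold_hi]

theorem WF_lo (k : K) (hk : k ≠ b1) (t : Bool) (i : I) (J : ℕ) (h : J < n) :
    WW n L b1 sg (Sum.inl (⟨k, hk⟩, t)) i J = XX (sgn n L sg k i) t J := by
  simp only [WW, foldb_lo n J _ h]

theorem WF_hi (k : K) (hk : k ≠ b1) (t : Bool) (i : I) (j : ℕ) :
    WW n L b1 sg (Sum.inl (⟨k, hk⟩, t)) i (n + j) = !(XX (sgn n L sg k i) t (n - 1 - j)) := by
  simp only [WW, foldb_hi]

theorem VA_lo (i : I) (J : ℕ) (h : J < n) : VV n L b1 (Sum.inr 0) i J = L b1 i J := by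
  simp only [VV, fold_lo n J h, if_true]

theorem VA_hi (i : I) (j : ℕ) :
    VV n L b1 (Sum.inr 0) i (n + j) = L b1 i (n - 1 - j) := by
  simp only [VV, fold_hi, if_true]

theorem WA_lo (i : I) (J : ℕ) (h : J < n) :
    WW n L b1 sg (Sum.inr 0) i J = XA n (sgn n L sg b1 i) J := by
  simp only [WW, foldb_lo n J _ h, if_true]

theorem WA_hi (i : I) (j : ℕ) :
    WW n L b1 sg (Sum.inr 0) i (n + j) = !(XA n (sgn n L sg b1 i) (n - 1 - j)) := by
  simp only [WW, foldb_hi, if_true]

theorem VB (i : I) (J : ℕ) : VV n L b1 (Sum.inr 1) i J = L b1 i (vB J) := rfl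

theorem VC (i : I) (J : ℕ) : VV n L b1 (Sum.inr 2) i J = L b1 i (vC n J) := rfl

theorem WB_f (i : I) (J : ℕ) (hs : sgn n L sg b1 i = false) :
    WW n L b1 sg (Sum.inr 1) i J = bB J := by
  have : WW n L b1 sg (Sum.inr 1) i J =
    if sgn n L sg b1 i then bB (2 * n - 1 - J) else bB J := rfl
  rw [this, hs]; rfl

theorem WB_t (i : I) (J : ℕ) (hs : sgn n L sg b1 i = true) :
    WW n L b1 sg (Sum.inr 1) i J = bB (2 * n - 1 - J) := by
  have : WW n L b1 sg (Sum.inr 1) i J =
    if sgn n L sg b1 i then bB (2 * n - 1 - J) else bB J := rfl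
  rw [this, hs]; rfl

theorem WC_f (i : I) (J : ℕ) (hs : sgn n L sg b1 i = false) :
    WW n L b1 sg (Sum.inr 2) i J = bC n J := by
  have : WW n L b1 sg (Sum.inr 2) i J =
    if sgn n L sg b1 i then bC n (2 * n - 1 - J) else bC n J := rfl
  rw [this, hs]; rfl

theorem WC_t (i : I) (J : ℕ) (hs : sgn n L sg b1 i = true) :
    WW n L b1 sg (Sum.inr 2) i J = bC n (2 * n - 1 - J) := by
  have : WW n L b1 sg (Sum.inr 2) i J =
    if sgn n L sg b1 i then bC n (2 * n - 1 - J) else bC n J := rfl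
  rw [this, hs]; rfl

theorem XA_f (j : ℕ) : XA n false j = false := rfl

theorem XA_even (s : Bool) (j : ℕ) (h : j % 2 = 0) : XA n s j = false := by
  simp [XA, h]

theorem XA_end (s : Bool) (j : ℕ) (h : ¬ (j + 1 < n)) : XA n s j = false := by
  simp [XA, h]

theorem XA_odd (j : ℕ) (h : j % 2 = 1) (h' : j + 1 < n) : XA n true j = true := by
  simp [XA, h, h']

theorem bB_small (J : ℕ) (h : J < 4) : bB J = decide (J = 1 ∨ J = 2) := by simp [bB, h]

theorem bB_big1 (J : ℕ) (h : ¬ J < 4) (h' : J % 4 < 2) : bB J = true := by simp [bB, h, h']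

theorem bB_big0 (J : ℕ) (h : ¬ J < 4) (h' : ¬ J % 4 < 2) : bB J = false := by simp [bB, h, h']

theorem bB_hi0 (J : ℕ) (h : J % 4 = 3) : bB J = false := by
  unfold bB
  have h' : ¬ J % 4 < 2 := by omega
  split_ifs
  · simp; omega
  · simp [h']

theorem bC_one (J : ℕ) (h0 : J ≠ 0) (h : J % 4 < 2) : bC n J = true := by
  by_cases h1 : J = 2 * n - 1
  · simp only [bC, h0, if_false, if_pos h1]
  · simp only [bC, h0, if_false, if_neg h1, h, decide_true]

theorem bC_zero (J : ℕ) (h0 : J ≠ 2 * n - 1) (h : ¬ J % 4 < 2) : bC n J = false := by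
  by_cases h1 : J = 0
  · simp only [bC, h1, if_true]
  · simp only [bC, h1, h0, if_false, h, decide_false]

theorem bC_z : bC n 0 = false := by simp [bC]

theorem bC_last (hn : 4 ≤ n) : bC n (2 * n - 1) = true := by
  unfold bC
  have : ¬ (2 * n - 1 = 0) := by omega
  simp [this]

/-- Triads over a primary row of the special square. -/
theorem tri_prim (hn : n % 2 = 0) (hn4 : 4 ≤ n) (i i' : I)
    (hi' : ∀ j, j < n → L b1 i' j = L b1 i (n - 1 - j))
    (hs : sgn n L sg b1 i = false) (hs' : sgn n L sg b1 i' = true)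
    (j : ℕ) (hj : j + 2 < n) (α β γ : Bool) :
    ∃ k' i' J, J + 2 < 2 * n ∧ LL n L b1 sg k' i' J = (L b1 i j, α) ∧
      LL n L b1 sg k' i' (J + 1) = (L b1 i (j + 1), β) ∧
      LL n L b1 sg k' i' (J + 2) = (L b1 i (j + 2), γ) := by
  have vi' : ∀ j, j < n → L b1 i' (n - 1 - j) = L b1 i j := by
    intro j hj
    rw [hi' _ (by omega)]
    congr 1
    omega
  -- `A(R)`, edge bits `0, 0`
  have c00 : xor α β = false → xor β γ = false → ∃ k' i' J, J + 2 < 2 * n ∧
      LL n L b1 sg k' i' J = (L b1 i j, α) ∧ LL n L b1 sg k' i' (J + 1) = (L b1 i (j + 1), β) ∧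
      LL n L b1 sg k' i' (J + 2) = (L b1 i (j + 2), γ) := by
    intro hp hq
    refine hit3 (k' := Sum.inr 0) (i := i) (J := j) (by omega) (VA_lo i j (by omega))
      (VA_lo i (j + 1) (by omega)) (VA_lo i (j + 2) (by omega)) ?_ ?_
    · rw [hp, WA_lo i j (by omega), WA_lo i (j + 1) (by omega), hs]; rfl
    · rw [hq, WA_lo i (j + 1) (by omega), WA_lo i (j + 2) (by omega), hs]; rfl
  -- `A(R')`
  have cA : ∀ p, (j = 0 → p = false) → (j ≠ 0 → p = true) → xor α β = p → xor β γ = true →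
      ∃ k' i' J, J + 2 < 2 * n ∧
      LL n L b1 sg k' i' J = (L b1 i j, α) ∧ LL n L b1 sg k' i' (J + 1) = (L b1 i (j + 1), β) ∧
      LL n L b1 sg k' i' (J + 2) = (L b1 i (j + 2), γ) := by
    intro p hp0 hp1 hp hq
    refine hit3 (k' := Sum.inr 0) (i := i') (J := n + j) (by omega) ?_ ?_ ?_ ?_ ?_
    · rw [VA_hi, vi' j (by omega)]
    · rw [Nat.add_assoc, VA_hi, vi' (j + 1) (by omega)]
    · rw [Nat.add_assoc, VA_hi, vi' (j + 2) (by omega)]
    · rw [Nat.add_assoc, WA_hi, WA_hi, hs', hp]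
      by_cases h0 : j = 0
      · rw [hp0 h0, XA_end true (n - 1 - j) (by omega), XA_even true (n - 1 - (j + 1)) (by omega)]
        rfl
      · rw [hp1 h0]
        rcases Nat.mod_two_eq_zero_or_one j with h | h
        · rw [XA_odd (n - 1 - j) (by omega) (by omega), XA_even true (n - 1 - (j + 1)) (by omega)]
          rfl
        · rw [XA_even true (n - 1 - j) (by omega), XA_odd (n - 1 - (j + 1)) (by omega) (by omega)]
          rfl
    · rw [Nat.add_assoc, Nat.add_assoc, WA_hi, WA_hi, hs', hq]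
      rcases Nat.mod_two_eq_zero_or_one j with h | h
      · rw [XA_even true (n - 1 - (j + 1)) (by omega), XA_odd (n - 1 - (j + 2)) (by omega) (by omega)]
        rfl
      · rw [XA_odd (n - 1 - (j + 1)) (by omega) (by omega), XA_even true (n - 1 - (j + 2)) (by omega)]
        rfl
  rcases Nat.mod_two_eq_zero_or_one j with h | h
  · -- `j` even
    have cB : ∀ p, (j = 0 → p = true) → (j ≠ 0 → p = false) → xor α β = p → xor β γ = true →
        ∃ k' i' J, J + 2 < 2 * n ∧
        LL n L b1 sg k' i' J = (L b1 i j, α) ∧ LL n L b1 sg k' i' (J + 1) = (L b1 i (j + 1), β) ∧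
        LL n L b1 sg k' i' (J + 2) = (L b1 i (j + 2), γ) := by
      intro p hp0 hp1 hp hq
      refine hit3 (k' := Sum.inr 1) (i := i) (J := 2 * j + 2) (by omega) ?_ ?_ ?_ ?_ ?_
      · rw [VB]; congr 1; unfold vB; omega
      · rw [VB]; congr 1; unfold vB; omega
      · rw [VB]; congr 1; unfold vB; omega
      · rw [WB_f i _ hs, WB_f i _ hs, hp, bB_hi0 (2 * j + 2 + 1) (by omega)]
        by_cases h0 : j = 0
        · rw [hp0 h0, h0, bB_small _ (by omega)]; rfl
        · rw [hp1 h0, bB_big0 _ (by omega) (by omega)]; rfl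
      · rw [WB_f i _ hs, WB_f i _ hs, hq, bB_hi0 (2 * j + 2 + 1) (by omega),
          bB_big1 _ (by omega) (by omega)]; rfl
    have cC : xor α β = true → xor β γ = false →
        ∃ k' i' J, J + 2 < 2 * n ∧
        LL n L b1 sg k' i' J = (L b1 i j, α) ∧ LL n L b1 sg k' i' (J + 1) = (L b1 i (j + 1), β) ∧
        LL n L b1 sg k' i' (J + 2) = (L b1 i (j + 2), γ) := by
      intro hp hq
      refine hit3 (k' := Sum.inr 2) (i := i) (J := 2 * j + 1) (by omega) ?_ ?_ ?_ ?_ ?_
      · rw [VC]; congr 1; unfold vC; split_ifs <;> omega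
      · rw [VC]; congr 1; unfold vC; split_ifs <;> omega
      · rw [VC]; congr 1; unfold vC; split_ifs <;> omega
      · rw [WC_f i _ hs, WC_f i _ hs, hp, bC_one _ (by omega) (by omega),
          bC_zero _ (by omega) (by omega)]; rfl
      · rw [WC_f i _ hs, WC_f i _ hs, hq, bC_zero _ (by omega) (by omega),
          bC_zero _ (by omega) (by omega)]; rfl
    cases hp : xor α β <;> cases hq : xor β γ
    · exact c00 hp hq
    · by_cases h0 : j = 0
      · exact cA false (fun _ => rfl) (fun h' => absurd h0 h') hp hq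
      · exact cB false (fun h' => absurd h' h0) (fun _ => rfl) hp hq
    · exact cC hp hq
    · by_cases h0 : j = 0
      · exact cB true (fun _ => rfl) (fun h' => absurd h0 h') hp hq
      · exact cA true (fun h' => absurd h' h0) (fun _ => rfl) hp hq
  · -- `j` odd
    have cB : xor α β = true → xor β γ = false →
        ∃ k' i' J, J + 2 < 2 * n ∧
        LL n L b1 sg k' i' J = (L b1 i j, α) ∧ LL n L b1 sg k' i' (J + 1) = (L b1 i (j + 1), β) ∧
        LL n L b1 sg k' i' (J + 2) = (L b1 i (j + 2), γ) := by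
      intro hp hq
      refine hit3 (k' := Sum.inr 1) (i := i) (J := 2 * j + 1) (by omega) ?_ ?_ ?_ ?_ ?_
      · rw [VB]; congr 1; unfold vB; omega
      · rw [VB]; congr 1; unfold vB; omega
      · rw [VB]; congr 1; unfold vB; omega
      · rw [WB_f i _ hs, WB_f i _ hs, hp, bB_hi0 _ (by omega), bB_big1 _ (by omega) (by omega)]
        rfl
      · rw [WB_f i _ hs, WB_f i _ hs, hq, bB_big1 _ (by omega) (by omega),
          bB_big1 _ (by omega) (by omega)]; rfl
    have cC : xor α β = false → xor β γ = true →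
        ∃ k' i' J, J + 2 < 2 * n ∧
        LL n L b1 sg k' i' J = (L b1 i j, α) ∧ LL n L b1 sg k' i' (J + 1) = (L b1 i (j + 1), β) ∧
        LL n L b1 sg k' i' (J + 2) = (L b1 i (j + 2), γ) := by
      intro hp hq
      refine hit3 (k' := Sum.inr 2) (i := i) (J := 2 * j + 2) (by omega) ?_ ?_ ?_ ?_ ?_
      · rw [VC]; congr 1; unfold vC; split_ifs <;> omega
      · rw [VC]; congr 1; unfold vC; split_ifs <;> omega
      · rw [VC]; congr 1; unfold vC; split_ifs <;> omega
      · rw [WC_f i _ hs, WC_f i _ hs, hp, bC_one _ (by omega) (by omega),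
          bC_one _ (by omega) (by omega)]; rfl
      · rw [WC_f i _ hs, WC_f i _ hs, hq, bC_one _ (by omega) (by omega),
          bC_zero _ (by omega) (by omega)]; rfl
    cases hp : xor α β <;> cases hq : xor β γ
    · exact c00 hp hq
    · exact cC hp hq
    · exact cB hp hq
    · exact cA true (fun h' => by omega) (fun _ => rfl) hp hq

end vals

end Pool.Agent.Helper969.TB
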